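import Pool.Agent.Work.MP_a98e4e_ag.XE.Mono

/-!
Extremal elements of a Lie algebra with an invariant form: the module `Phi` of all `y` with
`[p, y] = 0` and `[p, [y, w]] = - (p, w) y - (y, w) p` is split by `y ↦ ([w, y], (y, w))` after
inverting `(p, w)`.  All statements for a bilinear bracket `b` and a bilinear form `κ`.
-/

set_option autoImplicit false

namespace Pool.Agent.Licci.XE

open IsLocalRing

universe u v

section alg

variable {A : Type*} [CommRing A] {V : Type*} [AddCommGroup V] [Module A V]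
  (b : V →ₗ[A] V →ₗ[A] V) (κ : V →ₗ[A] V →ₗ[A] A)

/-- the properties of the bracket, of the form and of the extremal element -/
structure ConeDat (p : V) : Prop where
  skew : ∀ x y, b x y = - b y x
  self : ∀ x, b x x = 0
  jac : ∀ x y z, b x (b y z) = b (b x y) z + b y (b x z)
  inv : ∀ x y z, κ (b x y) z = κ x (b y z)
  sym : ∀ x y, κ x y = κ y x
  two : ∀ x y : V, (2 : A) • x = (2 : A) • y → x = y
  cone : ∀ y, b p (b p y) = (-(2 * κ p y)) • p

variable {b κ} {p : V} (H : ConeDat b κ p)
include H

/-- first Premet identity -/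
theorem ConeDat.premet (y z : V) :
    b (b p y) (b p z) = -(κ p (b y z)) • p + κ p y • b p z - κ p z • b p y := by
  apply H.two
  have h1 := H.cone (b y z)
  rw [H.jac p y z, map_add, H.jac p (b p y) z, H.jac p y (b p z), H.cone, H.cone, map_smul,
    map_smul, LinearMap.smul_apply, H.skew y p] at h1
  have h2 : (2 : A) • b (b p y) (b p z) = (-(2 * κ p (b y z))) • p - (-(2 * κ p y)) • b p z -
      (-(2 * κ p z)) • - b p y := by
    rw [← h1, two_smul]
    abel
  rw [h2]
  module

/-- second Premet identity -/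
theorem ConeDat.premet' (z w : V) :
    b p (b z (b p w)) = -(κ p (b z w)) • p + κ p z • b p w + κ p w • b p z := by
  rw [H.jac p z (b p w), H.premet, H.cone, map_smul, H.skew z p]
  module

/-- brackets `[p, z]` with `(p, z) = 0` satisfy the linearized cone identity -/
theorem ConeDat.lin (z : V) (hz : κ p z = 0) (w : V) :
    b p (b (b p z) w) = -(κ p w • b p z) - κ (b p z) w • p := by
  have h1 : b (b p z) w = b p (b z w) - b z (b p w) := by
    rw [H.jac p z w]
    abel
  rw [h1, map_sub, H.cone, H.premet', hz, H.inv p z w]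
  module

theorem ConeDat.self_lin (w : V) : b p (b p w) = -(κ p w • p) - κ p w • p := by
  rw [H.cone]
  module

/-- recovery of `y` -/
theorem ConeDat.recover {y : V} (hy : ∀ w, b p (b y w) = -(κ p w • y) - κ y w • p) (w : V) :
    κ p w • y = b p (b w y) - κ y w • p := by
  rw [H.skew w y, map_neg, hy]
  abel

end alg

/-- from local splittings to `UP` -/
theorem UP_of_local {R : Type u} [CommRing R] [IsLocalRing R] {N : Type v} [AddCommGroup N]
    [Module R N] {ι : Type} [Fintype ι] (V : Type*) [AddCommGroup V] [Module R V] [Module.Free R V]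
    [Module.Finite R V] (g : ι → R) (k : ℕ) (a : ι → N →ₗ[R] V) (b : ι → V →ₗ[R] N)
    (h : ∀ i x, b i (a i x) = g i ^ k • x)
    (hg : ∀ y ∈ maximalIdeal R, ∃ n : ℕ, y ^ n ∈ Ideal.span (Set.range g)) : UP R N := by
  classical
  intro y hy
  obtain ⟨n, hn⟩ := hg y hy
  have h1 : y ∈ (Ideal.span (Set.range fun i => g i ^ k)).radical := by
    have h2 : Ideal.span (Set.range g) ≤ (Ideal.span (Set.range fun i => g i ^ k)).radical := by
      rw [Ideal.span_le]
      rintro _ ⟨i, rfl⟩
      exact ⟨k, Ideal.subset_span ⟨i, rfl⟩⟩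
    exact Ideal.mem_radical_of_pow_mem (h2 hn)
  obtain ⟨m, hm⟩ := h1
  obtain ⟨c, hc⟩ := (Submodule.mem_span_range_iff_exists_fun R).1 hm
  let e : (ι → V) ≃ₗ[R] (Fin (Module.finrank R (ι → V)) → R) :=
    (Module.finBasis R (ι → V)).equivFun
  refine ⟨m, Module.finrank R (ι → V), e.toLinearMap ∘ₗ LinearMap.pi a,
    (∑ i, c i • (b i ∘ₗ LinearMap.proj i)) ∘ₗ e.symm.toLinearMap, fun x => ?_⟩
  rw [LinearMap.comp_apply, LinearMap.comp_apply, LinearEquiv.coe_coe, LinearEquiv.coe_coe,
    LinearEquiv.symm_apply_apply, LinearMap.sum_apply, ← hc, Finset.sum_smul]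
  refine Finset.sum_congr rfl fun i _ => ?_
  rw [LinearMap.smul_apply, LinearMap.comp_apply, LinearMap.proj_apply, LinearMap.pi_apply, h,
    smul_smul, smul_eq_mul]

end Pool.Agent.Licci.XE
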