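import Pool.Agent.Work.MP_a98e4e_ag.XE.Ext

/-!
# LICCI, codimension 6 (XE): vanishing of `Ext` and exactness of the dual of a free resolution
-/

namespace Pool.Agent.Licci.XE

open CategoryTheory Abelian

universe u

variable {R : Type u} [CommRing R]

variable {K P N : Type u} [AddCommGroup K] [Module R K] [AddCommGroup P] [Module R P]
  [AddCommGroup N] [Module R N]

/-- `Ext ^ 1 (N, R) = 0` iff all linear forms on the syzygy extend -/
theorem SE.one_iff [Module.Free R P] {f : K →ₗ[R] P} {g : P →ₗ[R] N} (hf : Function.Injective f)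
    (hfg : Function.Exact f g) (hg : Function.Surjective g) :
    SE (R := R) N 1 ↔ ∀ φ : K →ₗ[R] R, ∃ ψ : P →ₗ[R] R, ψ ∘ₗ f = φ := by
  have hS := shortExact_of hf hfg hg
  have hP : Projective (ModuleCat.of R P) := by
    have : Module.Projective R P := inferInstance
    exact (IsProjective.iff_projective P).1 this
  constructor
  · intro h φ
    unfold SE at h
    obtain ⟨x, hx⟩ := Ext.contravariant_sequence_exact₁ hS (ModuleCat.of R R)
      (Ext.mk₀ (ModuleCat.ofHom φ)) (n₁ := 1) rfl (h.elim _ _)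
    obtain ⟨ψ, rfl⟩ := (Ext.mk₀_bijective _ _).2 x
    rw [Ext.mk₀_comp_mk₀] at hx
    have h2 := (Ext.mk₀_bijective _ _).1 hx
    refine ⟨ψ.hom, ?_⟩
    have h3 := congrArg ModuleCat.Hom.hom h2
    exact h3
  · intro h
    have hz : ∀ z : Ext (ModuleCat.of R N) (ModuleCat.of R R) 1, z = 0 := by
      intro z
      obtain ⟨x, hx⟩ := Ext.contravariant_sequence_exact₃ hS (ModuleCat.of R R) z
        (Ext.eq_zero_of_projective _) (n₀ := 0) rfl
      obtain ⟨φ, rfl⟩ := (Ext.mk₀_bijective _ _).2 x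
      obtain ⟨ψ, hψ⟩ := h φ.hom
      have h2 : φ = ModuleCat.ofHom f ≫ ModuleCat.ofHom ψ := by
        ext y
        exact (LinearMap.congr_fun hψ y).symm
      rw [← hx, h2, ← Ext.mk₀_comp_mk₀]
      exact ShortComplex.ShortExact.extClass_comp_assoc hS _
    exact ⟨fun x y => (hz x).trans (hz y).symm⟩

/-- dimension shift -/
theorem SE.shift [Module.Free R P] {f : K →ₗ[R] P} {g : P →ₗ[R] N} (hf : Function.Injective f)
    (hfg : Function.Exact f g) (hg : Function.Surjective g) (i : ℕ) :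
    SE (R := R) K (i + 1) ↔ SE (R := R) N (i + 2) := by
  have e1 : i + 1 = 1 + i := by omega
  have e2 : i + 2 = 1 + (1 + i) := by omega
  rw [e1, e2]
  constructor
  · intro h
    exact SE.right hf hfg hg h (SE.free _)
  · intro h
    exact SE.left hf hfg hg (SE.free i) h

section

variable {P0 P1 P2 P3 P4 : Type u} [AddCommGroup P0] [Module R P0] [AddCommGroup P1] [Module R P1]
  [AddCommGroup P2] [Module R P2] [AddCommGroup P3] [Module R P3] [AddCommGroup P4] [Module R P4]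

/-- the map onto the syzygy -/
def syz {e : P0 →ₗ[R] N} {d1 : P1 →ₗ[R] P0} (he : Function.Exact d1 e) : P1 →ₗ[R] LinearMap.ker e :=
  d1.codRestrict (LinearMap.ker e) fun x => by
    rw [LinearMap.mem_ker]; exact he.apply_apply_eq_zero x

theorem syz_apply {e : P0 →ₗ[R] N} {d1 : P1 →ₗ[R] P0} (he : Function.Exact d1 e) (x : P1) :
    ((syz he x : LinearMap.ker e) : P0) = d1 x := rfl

theorem syz_surj {e : P0 →ₗ[R] N} {d1 : P1 →ₗ[R] P0} (he : Function.Exact d1 e) :
    Function.Surjective (syz he) := by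
  rintro ⟨x, hx⟩
  obtain ⟨y, hy⟩ := (he x).1 hx
  exact ⟨y, Subtype.ext hy⟩

theorem syz_exact {e : P0 →ₗ[R] N} {d1 : P1 →ₗ[R] P0} {d2 : P2 →ₗ[R] P1} (he : Function.Exact d1 e)
    (h1 : Function.Exact d2 d1) : Function.Exact d2 (syz he) := by
  intro x
  rw [← h1 x]
  constructor
  · intro h
    have := congrArg Subtype.val h
    exact this
  · intro h
    exact Subtype.ext h

theorem ker_exact {e : P0 →ₗ[R] N} : Function.Exact (LinearMap.ker e).subtype e := by
  intro x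
  simp

theorem SE.dual_one [Module.Free R P0] {d2 : P2 →ₗ[R] P1} {d1 : P1 →ₗ[R] P0} {e : P0 →ₗ[R] N}
    (h1 : Function.Exact d2 d1) (h0 : Function.Exact d1 e) (he : Function.Surjective e) :
    SE (R := R) N 1 ↔ ∀ φ : P1 →ₗ[R] R, φ ∘ₗ d2 = 0 → ∃ ψ : P0 →ₗ[R] R, φ = ψ ∘ₗ d1 := by
  rw [SE.one_iff (f := (LinearMap.ker e).subtype) (g := e) (Submodule.injective_subtype _) ker_exact he]
  constructor
  · intro h φ hφ
    -- factor `φ` through the syzygy
    have hk : LinearMap.ker (syz h0) ≤ LinearMap.ker φ := by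
      intro x hx
      rw [LinearMap.mem_ker] at hx ⊢
      obtain ⟨y, hy⟩ := (syz_exact h0 h1 x).1 hx
      rw [← hy]
      exact LinearMap.congr_fun hφ y
    obtain ⟨φ', hφ'⟩ : ∃ φ' : LinearMap.ker e →ₗ[R] R, φ' ∘ₗ syz h0 = φ := by
      refine ⟨((LinearMap.ker (syz h0)).liftQ φ hk) ∘ₗ
        ((syz h0).quotKerEquivOfSurjective (syz_surj h0)).symm.toLinearMap, ?_⟩
      ext x
      have : ((syz h0).quotKerEquivOfSurjective (syz_surj h0)).symm (syz h0 x) =
          Submodule.Quotient.mk x := by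
        rw [LinearEquiv.symm_apply_eq]
        rfl
      simp only [LinearMap.comp_apply, LinearEquiv.coe_coe, this, Submodule.liftQ_apply]
    obtain ⟨ψ, hψ⟩ := h φ'
    refine ⟨ψ, ?_⟩
    rw [← hφ', ← hψ]
    rfl
  · intro h φ
    obtain ⟨ψ, hψ⟩ := h (φ ∘ₗ syz h0) (by
      ext y
      have : syz h0 (d2 y) = 0 := (syz_exact h0 h1).apply_apply_eq_zero y
      simp [this])
    refine ⟨ψ, ?_⟩
    ext x
    obtain ⟨y, rfl⟩ := syz_surj h0 x
    exact (LinearMap.congr_fun hψ y).symm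

theorem SE.dual_two [Module.Free R P0] [Module.Free R P1] {d3 : P3 →ₗ[R] P2} {d2 : P2 →ₗ[R] P1}
    {d1 : P1 →ₗ[R] P0} {e : P0 →ₗ[R] N} (h2 : Function.Exact d3 d2) (h1 : Function.Exact d2 d1)
    (h0 : Function.Exact d1 e) (he : Function.Surjective e) :
    SE (R := R) N 2 ↔ ∀ φ : P2 →ₗ[R] R, φ ∘ₗ d3 = 0 → ∃ ψ : P1 →ₗ[R] R, φ = ψ ∘ₗ d2 := by
  rw [← SE.shift (f := (LinearMap.ker e).subtype) (g := e) (Submodule.injective_subtype _) ker_exact he 0]
  exact SE.dual_one h2 (syz_exact h0 h1) (syz_surj h0)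

theorem SE.dual_three [Module.Free R P0] [Module.Free R P1] [Module.Free R P2] {d4 : P4 →ₗ[R] P3}
    {d3 : P3 →ₗ[R] P2} {d2 : P2 →ₗ[R] P1} {d1 : P1 →ₗ[R] P0} {e : P0 →ₗ[R] N}
    (h3 : Function.Exact d4 d3) (h2 : Function.Exact d3 d2) (h1 : Function.Exact d2 d1)
    (h0 : Function.Exact d1 e) (he : Function.Surjective e) :
    SE (R := R) N 3 ↔ ∀ φ : P3 →ₗ[R] R, φ ∘ₗ d4 = 0 → ∃ ψ : P2 →ₗ[R] R, φ = ψ ∘ₗ d3 := by
  rw [← SE.shift (f := (LinearMap.ker e).subtype) (g := e) (Submodule.injective_subtype _) ker_exact he 1]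
  exact SE.dual_two h3 h2 (syz_exact h0 h1) (syz_surj h0)

/-- the condition `H23` in terms of a free resolution -/
theorem H23.dual [Module.Free R P0] [Module.Free R P1] [Module.Free R P2] {d4 : P4 →ₗ[R] P3}
    {d3 : P3 →ₗ[R] P2} {d2 : P2 →ₗ[R] P1} {d1 : P1 →ₗ[R] P0} {e : P0 →ₗ[R] N}
    (h3 : Function.Exact d4 d3) (h2 : Function.Exact d3 d2) (h1 : Function.Exact d2 d1)
    (h0 : Function.Exact d1 e) (he : Function.Surjective e) :
    H23 R N ↔ (∀ φ : P2 →ₗ[R] R, φ ∘ₗ d3 = 0 → ∃ ψ : P1 →ₗ[R] R, φ = ψ ∘ₗ d2) ∧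
      (∀ φ : P3 →ₗ[R] R, φ ∘ₗ d4 = 0 → ∃ ψ : P2 →ₗ[R] R, φ = ψ ∘ₗ d3) := by
  unfold H23
  rw [SE.dual_two h2 h1 h0 he, SE.dual_three h3 h2 h1 h0 he]

end

/-! ### Free resolutions -/

theorem exists_cover [IsNoetherianRing R] {M : Type u} [AddCommGroup M] [Module R M] [Module.Finite R M] :
    ∃ (n : ℕ) (g : (Fin n → R) →ₗ[R] M), Function.Surjective g :=
  Module.Finite.exists_fin' R M

/-- one step of the resolution: a submodule of `R ^ n` and a submodule of `R ^ m` which is the kernel of a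
surjection onto it -/
theorem exists_step [IsNoetherianRing R] (s : Σ n : ℕ, Submodule R (Fin n → R)) :
    ∃ t : Σ m : ℕ, Submodule R (Fin m → R), ∃ g : (Fin t.1 → R) →ₗ[R] (Fin s.1 → R),
      LinearMap.range g = s.2 ∧ LinearMap.ker g = t.2 := by
  obtain ⟨m, g, hg⟩ := exists_cover (R := R) (M := s.2)
  refine ⟨⟨m, LinearMap.ker (s.2.subtype ∘ₗ g)⟩, s.2.subtype ∘ₗ g, ?_, rfl⟩
  rw [LinearMap.range_comp, LinearMap.range_eq_top.2 hg, Submodule.map_top, Submodule.range_subtype]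

/-- a finite module over a noetherian ring has a resolution by finite free modules -/
theorem exists_resolution [IsNoetherianRing R] (M : Type u) [AddCommGroup M] [Module R M]
    [Module.Finite R M] :
    ∃ (n : ℕ → ℕ) (d : ∀ i : ℕ, (Fin (n (i + 1)) → R) →ₗ[R] (Fin (n i) → R)) (e : (Fin (n 0) → R) →ₗ[R] M),
      Function.Surjective e ∧ Function.Exact (d 0) e ∧ ∀ i, Function.Exact (d (i + 1)) (d i) := by
  obtain ⟨n0, e, he⟩ := exists_cover (R := R) (M := M)
  choose nxt g hg1 hg2 using exists_step (R := R)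
  let s : ℕ → Σ n : ℕ, Submodule R (Fin n → R) := fun i => Nat.rec ⟨n0, LinearMap.ker e⟩ (fun _ t => nxt t) i
  have hs : ∀ i, s (i + 1) = nxt (s i) := fun i => rfl
  refine ⟨fun i => (s i).1, fun i => g (s i), e, he, ?_, ?_⟩
  · rw [LinearMap.exact_iff]
    exact (hg1 (s 0)).symm
  · intro i
    rw [LinearMap.exact_iff]
    exact (hg2 (s i)).trans (hg1 (s (i + 1))).symm

end Pool.Agent.Licci.XE
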