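import Pool.Agent.Work.MP_a98e4e_ag.MFree

/-!
# LICCI, codimension 6 (XE4): the minimal three term complex

`R` local Noetherian, the maximal ideal generated by a regular sequence of length six, `N` a finite
module with a piece `P4 → P3 → P2 → P1 → P0 → N → 0` of a free resolution such that the dual
complex is exact at `P2*` and `P3*` (that is, `Ext² (N, R) = Ext³ (N, R) = 0`), and such that `N`
is projective after inverting any element of the maximal ideal.  Then there is a minimal complex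
`E → B → C` of finite free modules, exact at `E`, with `H⁰ = N*` and `H¹ = Ext¹ (N, R)`, which
splits after inverting any element of the maximal ideal.
-/

set_option autoImplicit false

namespace Pool.Agent.Licci.XE

open RingTheory.Sequence IsLocalRing LicciCodimFour

universe u v

variable {R : Type u} [CommRing R]

/-- `N` is projective after inverting any element of the maximal ideal. -/
def UP (R : Type u) [CommRing R] [IsLocalRing R] (N : Type v) [AddCommGroup N] [Module R N] :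
    Prop :=
  ∀ y ∈ maximalIdeal R, ∃ (n s : ℕ) (a : N →ₗ[R] (Fin s → R)) (b : (Fin s → R) →ₗ[R] N),
    ∀ x, b (a x) = y ^ n • x

theorem wr_free {F : Type v} [AddCommGroup F] [Module R F] [Module.Free R F] {rs : List R}
    (hR : IsWeaklyRegular R rs) : IsWeaklyRegular F rs := by
  have h1 := IsWeaklyRegular.isWeaklyRegular_lTensor (M₂ := F) hR
  exact (LinearEquiv.isWeaklyRegular_congr (TensorProduct.rid R F) _).1 h1

theorem wr_take {F : Type v} [AddCommGroup F] [Module R F] {rs rs' : List R}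
    (h : IsWeaklyRegular F (rs ++ rs')) : IsWeaklyRegular F rs :=
  ((isWeaklyRegular_append_iff F rs rs').1 h).1

/-- the kernel of a linear map onto a submodule, in a chain -/
theorem wr_ker {F M : Type*} [AddCommGroup F] [Module R F] [AddCommGroup M] [Module R M]
    (rs : List R) (x : R) (p : F →ₗ[R] M) (hM : IsWeaklyRegular (LinearMap.range p) rs)
    (hF : IsWeaklyRegular F (rs ++ [x])) : IsWeaklyRegular (LinearMap.ker p) (rs ++ [x]) := by
  refine isWeaklyRegular_kernel rs x (LinearMap.ker p) F (LinearMap.range p)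
    (LinearMap.ker p).subtype p.rangeRestrict Subtype.val_injective ?_
    p.surjective_rangeRestrict hM hF
  intro y
  constructor
  · intro hy
    refine ⟨⟨y, ?_⟩, rfl⟩
    rw [LinearMap.mem_ker]
    exact congrArg Subtype.val hy
  · rintro ⟨⟨z, hz⟩, rfl⟩
    exact Subtype.ext hz

theorem wr_one_sub {F : Type v} [AddCommGroup F] [Module R F] (x : R) (S : Submodule R F)
    (hF : IsWeaklyRegular F [x]) : IsWeaklyRegular S [x] := by
  rw [isWeaklyRegular_singleton_iff] at hF ⊢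
  intro a b hab
  apply Subtype.ext
  exact hF (congrArg Subtype.val hab)

/-- pull back of linear forms -/
def pb {A B : Type v} [AddCommGroup A] [Module R A] [AddCommGroup B] [Module R B]
    (d : A →ₗ[R] B) : (B →ₗ[R] R) →ₗ[R] (A →ₗ[R] R) := LinearMap.lcomp R R d

theorem pb_apply {A B : Type v} [AddCommGroup A] [Module R A] [AddCommGroup B] [Module R B]
    (d : A →ₗ[R] B) (φ : B →ₗ[R] R) : pb d φ = φ ∘ₗ d := rfl

section

variable {P0 P1 P2 P3 P4 : Type v} [AddCommGroup P0] [Module R P0] [AddCommGroup P1] [Module R P1]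
  [AddCommGroup P2] [Module R P2] [AddCommGroup P3] [Module R P3] [AddCommGroup P4] [Module R P4]
  [Module.Free R P0] [Module.Free R P1] [Module.Free R P2] [Module.Free R P3] [Module.Free R P4]
  [Module.Finite R P0] [Module.Finite R P1] [Module.Finite R P2] [Module.Finite R P3]
  [Module.Finite R P4]
  (d1 : P1 →ₗ[R] P0) (d2 : P2 →ₗ[R] P1) (d3 : P3 →ₗ[R] P2) (d4 : P4 →ₗ[R] P3)

/-- the depth of the module of cocycles -/
theorem wr_cocycles (y1 y2 y3 y4 : R) (hR : IsWeaklyRegular R [y1, y2, y3, y4])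
    (ex2 : ∀ φ : P2 →ₗ[R] R, φ ∘ₗ d3 = 0 → ∃ ψ : P1 →ₗ[R] R, φ = ψ ∘ₗ d2)
    (ex3 : ∀ φ : P3 →ₗ[R] R, φ ∘ₗ d4 = 0 → ∃ ψ : P2 →ₗ[R] R, φ = ψ ∘ₗ d3)
    (h32 : d2 ∘ₗ d3 = 0) (h43 : d3 ∘ₗ d4 = 0) :
    IsWeaklyRegular (LinearMap.ker (pb d2)) [y1, y2, y3, y4] := by
  have hR1 : IsWeaklyRegular R [y1] := wr_take (rs' := [y2, y3, y4]) hR
  have hR2 : IsWeaklyRegular R [y1, y2] := wr_take (rs' := [y3, y4]) hR
  have hR3 : IsWeaklyRegular R [y1, y2, y3] := wr_take (rs' := [y4]) hR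
  have e4 : IsWeaklyRegular (LinearMap.range (pb d4)) [y1] :=
    wr_one_sub y1 _ (wr_free hR1)
  have e3 : IsWeaklyRegular (LinearMap.ker (pb d4)) [y1, y2] :=
    wr_ker [y1] y2 (pb d4) e4 (wr_free hR2)
  have r3 : LinearMap.range (pb d3) = LinearMap.ker (pb d4) := by
    apply le_antisymm
    · rintro _ ⟨ψ, rfl⟩
      rw [LinearMap.mem_ker, pb_apply, pb_apply,
        LinearMap.comp_assoc, h43, LinearMap.comp_zero]
    · intro φ hφ
      rw [LinearMap.mem_ker, pb_apply] at hφ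
      obtain ⟨ψ, hψ⟩ := ex3 φ hφ
      exact ⟨ψ, by rw [pb_apply]; exact hψ.symm⟩
  have e2 : IsWeaklyRegular (LinearMap.ker (pb d3)) [y1, y2, y3] :=
    wr_ker [y1, y2] y3 (pb d3) (by rw [r3]; exact e3) (wr_free hR3)
  have r2 : LinearMap.range (pb d2) = LinearMap.ker (pb d3) := by
    apply le_antisymm
    · rintro _ ⟨ψ, rfl⟩
      rw [LinearMap.mem_ker, pb_apply, pb_apply,
        LinearMap.comp_assoc, h32, LinearMap.comp_zero]
    · intro φ hφ
      rw [LinearMap.mem_ker, pb_apply] at hφ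
      obtain ⟨ψ, hψ⟩ := ex2 φ hφ
      exact ⟨ψ, by rw [pb_apply]; exact hψ.symm⟩
  exact wr_ker [y1, y2, y3] y4 (pb d2) (by rw [r2]; exact e2) (wr_free hR)

end

/-- A minimal three term complex `E → B → C` (`E = R ^ e`, `B = R ^ n`, `C = R ^ b`) attached to a
linear map `D : A → Z`: `B → A × C` has image the pairs `(φ, c)` with `D φ = psi c` and kernel
`E`; so `H⁰ = ker D` and `H¹ = Z / D A`. -/
structure Mono [IsLocalRing R] {A Z : Type v} [AddCommGroup A] [Module R A] [AddCommGroup Z]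
    [Module R Z] (D : A →ₗ[R] Z) where
  e : ℕ
  n : ℕ
  b : ℕ
  dm : (Fin e → R) →ₗ[R] (Fin n → R)
  d0 : (Fin n → R) →ₗ[R] (Fin b → R)
  bet : (Fin n → R) →ₗ[R] A
  psi : (Fin b → R) →ₗ[R] Z
  min_m : ∀ x i, dm x i ∈ maximalIdeal R
  min_0 : ∀ x i, d0 x i ∈ maximalIdeal R
  inj : Function.Injective dm
  d0_dm : ∀ x, d0 (dm x) = 0
  bet_dm : ∀ x, bet (dm x) = 0
  bet_D : ∀ x, D (bet x) = psi (d0 x)
  surj : ∀ (φ : A) (c : Fin b → R), D φ = psi c → ∃ x, bet x = φ ∧ d0 x = c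
  exact : ∀ x, bet x = 0 → d0 x = 0 → ∃ w, dm w = x
  gen : ∀ z : Z, ∃ (c : Fin b → R) (φ : A), z = psi c + D φ
  min_psi : ∀ (c : Fin b → R) (φ : A), psi c = D φ → ∀ i, c i ∈ maximalIdeal R
  split : ∀ y ∈ maximalIdeal R, ∃ (k : ℕ) (s : (Fin b → R) →ₗ[R] (Fin n → R))
    (r : (Fin n → R) →ₗ[R] (Fin e → R)), (∀ c, d0 (s c) = y ^ k • c) ∧
      ∀ x, r (dm x) = y ^ k • x

/-- Existence, from `depth Z ≥ 4` and local sections of `D`. -/
theorem exists_mono [IsLocalRing R] [IsNoetherianRing R] {A Z : Type v} [AddCommGroup A]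
    [Module R A] [AddCommGroup Z] [Module R Z] [Module.Free R A] [Module.Finite R A]
    [Module.Finite R Z] (D : A →ₗ[R] Z) (y1 y2 y3 y4 y5 y6 : R)
    (hgen : Ideal.ofList [y1, y2, y3, y4, y5, y6] = maximalIdeal R)
    (hR : IsWeaklyRegular R [y1, y2, y3, y4, y5, y6])
    (hZ : IsWeaklyRegular Z [y1, y2, y3, y4])
    (hloc : ∀ y ∈ maximalIdeal R, ∃ (k : ℕ) (hL : Z →ₗ[R] A), ∀ z, D (hL z) = y ^ k • z) :
    Nonempty (Mono D) := by
  classical
  have hR5 : IsWeaklyRegular R [y1, y2, y3, y4, y5] := wr_take (rs' := [y6]) hR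
  let M := Z ⧸ LinearMap.range D
  obtain ⟨b, pM, hpM, hminM, -⟩ := exists_minimal_cover (R := R) M
  obtain ⟨psi, hpsi0⟩ := Module.projective_lifting_property (LinearMap.range D).mkQ pM
    (Submodule.mkQ_surjective _)
  have hpsi : ∀ c, (Submodule.Quotient.mk (psi c) : M) = pM c := fun c =>
    LinearMap.congr_fun hpsi0 c
  -- the module `G`
  let Th : (A × (Fin b → R)) →ₗ[R] Z := D.coprod (-psi)
  have hTh : ∀ φ c, Th (φ, c) = D φ - psi c := fun φ c => by
    simp [Th, sub_eq_add_neg]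
  have hThsurj : Function.Surjective Th := by
    intro z
    obtain ⟨c, hc⟩ := hpM (Submodule.Quotient.mk z)
    have h4 : (Submodule.Quotient.mk (z - psi c) : M) = 0 := by
      rw [Submodule.Quotient.mk_sub, hpsi, hc, sub_self]
    rw [Submodule.Quotient.mk_eq_zero] at h4
    obtain ⟨φ, hφ⟩ := h4
    refine ⟨(φ, -c), ?_⟩
    rw [hTh, hφ, map_neg]
    abel
  let G := LinearMap.ker Th
  have hG : IsWeaklyRegular G [y1, y2, y3, y4, y5] := by
    refine isWeaklyRegular_kernel [y1, y2, y3, y4] y5 G (A × (Fin b → R)) Z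
      G.subtype Th Subtype.val_injective ?_ hThsurj hZ (wr_free hR5)
    intro y
    constructor
    · intro hy
      exact ⟨⟨y, hy⟩, rfl⟩
    · rintro ⟨⟨z, hz⟩, rfl⟩
      exact hz
  obtain ⟨n, pG, hpG, hminG, -⟩ := exists_minimal_cover (R := R) G
  have hE : Module.Free R (LinearMap.ker pG) :=
    free_kernel [y1, y2, y3, y4, y5] y6 hgen hR hG pG hpG
  let bE := Module.finBasis R (LinearMap.ker pG)
  let e := Module.finrank R (LinearMap.ker pG)
  let eqE : (Fin e → R) ≃ₗ[R] LinearMap.ker pG := bE.equivFun.symm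
  let dm : (Fin e → R) →ₗ[R] (Fin n → R) := (LinearMap.ker pG).subtype ∘ₗ eqE.toLinearMap
  have hdm : ∀ x, dm x = (eqE x : Fin n → R) := fun x => rfl
  have hdmker : ∀ x, pG (dm x) = 0 := fun x => (eqE x).2
  let d0 : (Fin n → R) →ₗ[R] (Fin b → R) := LinearMap.snd R _ _ ∘ₗ G.subtype ∘ₗ pG
  let bet : (Fin n → R) →ₗ[R] A := LinearMap.fst R _ _ ∘ₗ G.subtype ∘ₗ pG
  have hpair : ∀ x, (pG x : A × (Fin b → R)) = (bet x, d0 x) := fun x => rfl
  have hbd : ∀ x, D (bet x) = psi (d0 x) := by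
    intro x
    have h4 := (pG x).2
    rw [LinearMap.mem_ker, hpair, hTh, sub_eq_zero] at h4
    exact h4
  have hmp : ∀ (c : Fin b → R) (φ : A), psi c = D φ → ∀ i, c i ∈ maximalIdeal R := by
    intro c φ h i
    refine hminM c ?_ i
    rw [← hpsi, Submodule.Quotient.mk_eq_zero]
    exact ⟨φ, h.symm⟩
  refine ⟨{
    e := e
    n := n
    b := b
    dm := dm
    d0 := d0
    bet := bet
    psi := psi
    min_m := fun x i => hminG _ (hdmker x) i
    min_0 := fun x i => hmp (d0 x) (bet x) (hbd x).symm i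
    inj := fun x y hxy => eqE.injective (Subtype.ext hxy)
    d0_dm := fun x => by
      show (pG (dm x) : A × (Fin b → R)).2 = 0
      rw [hdmker]
      rfl
    bet_dm := fun x => by
      show (pG (dm x) : A × (Fin b → R)).1 = 0
      rw [hdmker]
      rfl
    bet_D := hbd
    surj := ?_
    exact := ?_
    gen := ?_
    min_psi := hmp
    split := ?_ }⟩
  · intro φ c hφ
    have h4 : Th (φ, c) = 0 := by
      rw [hTh, sub_eq_zero]
      exact hφ
    obtain ⟨x, hx⟩ := hpG ⟨(φ, c), h4⟩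
    have h5 := congrArg Subtype.val hx
    rw [hpair] at h5
    exact ⟨x, congrArg Prod.fst h5, congrArg Prod.snd h5⟩
  · intro x hx1 hx2
    have h4 : pG x = 0 := by
      apply Subtype.ext
      rw [hpair, hx1, hx2]
      rfl
    refine ⟨eqE.symm ⟨x, h4⟩, ?_⟩
    rw [hdm, LinearEquiv.apply_symm_apply]
  · intro z
    obtain ⟨⟨φ0, c⟩, hc⟩ := hThsurj z
    rw [hTh] at hc
    refine ⟨-c, φ0, ?_⟩
    rw [map_neg, ← hc]
    abel
  · intro y hy
    obtain ⟨k, hL, hhL⟩ := hloc y hy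
    -- the splitting at `C`
    let s0 : (Fin b → R) →ₗ[R] G := ((hL ∘ₗ psi).prod (y ^ k • LinearMap.id)).codRestrict G
      (fun c => by
        rw [LinearMap.mem_ker]
        show Th (hL (psi c), y ^ k • c) = 0
        rw [hTh, hhL, map_smul, sub_self])
    obtain ⟨s1, hs1⟩ := Module.projective_lifting_property pG s0 hpG
    have hs1' : ∀ c, pG (s1 c) = s0 c := fun c => LinearMap.congr_fun hs1 c
    -- the splitting at `E`
    let r0 : (A × (Fin b → R)) →ₗ[R] G :=
      ((y ^ k • (LinearMap.id : (A × (Fin b → R)) →ₗ[R] _)) -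
        LinearMap.inl R A (Fin b → R) ∘ₗ hL ∘ₗ Th).codRestrict G (fun x => by
        rw [LinearMap.mem_ker]
        show Th (y ^ k • x - (hL (Th x), 0)) = 0
        have e1 : Th (hL (Th x), 0) = y ^ k • Th x := by
          rw [hTh (hL (Th x)) 0, hhL, map_zero, sub_zero]
        rw [map_sub, map_smul, e1, sub_self])
    have hr0 : ∀ x : G, r0 (x : A × (Fin b → R)) = y ^ k • x := by
      intro x
      apply Subtype.ext
      show y ^ k • (x : A × (Fin b → R)) - (hL (Th x), 0) = _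
      have h5 : Th x = 0 := x.2
      rw [h5, map_zero]
      have h6 : ((0 : A), (0 : Fin b → R)) = 0 := rfl
      rw [h6, sub_zero]
      rfl
    obtain ⟨r1, hr1⟩ := Module.projective_lifting_property pG r0 hpG
    have hr1' : ∀ x, pG (r1 x) = r0 x := fun x => LinearMap.congr_fun hr1 x
    let r2 : (Fin n → R) →ₗ[R] LinearMap.ker pG :=
      ((y ^ k • (LinearMap.id : (Fin n → R) →ₗ[R] _)) -
        r1 ∘ₗ G.subtype ∘ₗ pG).codRestrict (LinearMap.ker pG) (fun x => by
          rw [LinearMap.mem_ker]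
          show pG (y ^ k • x - r1 (pG x)) = 0
          rw [map_sub, map_smul, hr1', hr0, sub_self])
    refine ⟨k, s1, eqE.symm.toLinearMap ∘ₗ r2, ?_, ?_⟩
    · intro c
      show (pG (s1 c) : A × (Fin b → R)).2 = _
      rw [hs1']
      rfl
    · intro x
      have h4 : r2 (dm x) = y ^ k • eqE x := by
        apply Subtype.ext
        show y ^ k • dm x - r1 (pG (dm x)) = _
        rw [hdmker]
        show y ^ k • dm x - r1 0 = _
        rw [map_zero, sub_zero]
        rfl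
      show eqE.symm (r2 (dm x)) = _
      rw [h4, map_smul, LinearEquiv.symm_apply_apply]

section main

variable [IsLocalRing R] [IsNoetherianRing R] {N : Type v} [AddCommGroup N] [Module R N]
  {P0 P1 P2 P3 P4 : Type v} [AddCommGroup P0] [Module R P0] [AddCommGroup P1] [Module R P1]
  [AddCommGroup P2] [Module R P2] [AddCommGroup P3] [Module R P3] [AddCommGroup P4] [Module R P4]
  (aug : P0 →ₗ[R] N) (d1 : P1 →ₗ[R] P0) (d2 : P2 →ₗ[R] P1) (d3 : P3 →ₗ[R] P2)
  (d4 : P4 →ₗ[R] P3)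

omit [IsLocalRing R] [IsNoetherianRing R] in
/-- local homotopies from a local section -/
theorem exists_h0 [Module.Free R P0] (haug : Function.Surjective aug)
    (h0 : Function.Exact d1 aug) (h1 : Function.Exact d2 d1) {y : R} {n s : ℕ}
    (a : N →ₗ[R] (Fin s → R)) (b : (Fin s → R) →ₗ[R] N) (hab : ∀ x, b (a x) = y ^ n • x) :
    ∃ h : P0 →ₗ[R] P1, ∀ φ : P1 →ₗ[R] R, φ ∘ₗ d2 = 0 → (φ ∘ₗ h) ∘ₗ d1 = y ^ n • φ := by
  -- lift `b`
  obtain ⟨b', hb'⟩ := Module.projective_lifting_property aug b haug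
  have hb'' : ∀ x, aug (b' x) = b x := fun x => LinearMap.congr_fun hb' x
  let u : P0 →ₗ[R] P0 := y ^ n • LinearMap.id - b' ∘ₗ a ∘ₗ aug
  have hu : ∀ x, u x = y ^ n • x - b' (a (aug x)) := fun x => rfl
  have hmem : ∀ x, u x ∈ LinearMap.range d1 := by
    intro x
    refine (h0 _).1 ?_
    rw [hu, map_sub, map_smul, hb'', hab, sub_self]
  obtain ⟨h, hh⟩ := Module.projective_lifting_property d1.rangeRestrict
    (u.codRestrict (LinearMap.range d1) hmem) d1.surjective_rangeRestrict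
  have hh' : ∀ x, d1 (h x) = y ^ n • x - b' (a (aug x)) := by
    intro x
    have := congrArg Subtype.val (LinearMap.congr_fun hh x)
    exact this
  refine ⟨h, fun φ hφ => ?_⟩
  ext x
  have h3 : d1 (y ^ n • x - h (d1 x)) = 0 := by
    rw [map_sub, map_smul, hh', h0.apply_apply_eq_zero, map_zero, map_zero, sub_zero, sub_self]
  obtain ⟨z, hz⟩ := (h1 _).1 h3
  have h4 : φ (d2 z) = 0 := LinearMap.congr_fun hφ z
  rw [hz, map_sub, map_smul, sub_eq_zero] at h4
  show φ (h (d1 x)) = y ^ n • φ x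
  rw [← h4]

/-- `P0* → {φ : P1 → R | φ ∘ d2 = 0}` -/
def cob (h1 : d1 ∘ₗ d2 = 0) : (P0 →ₗ[R] R) →ₗ[R] LinearMap.ker (pb (R := R) d2) :=
  (pb d1).codRestrict _ (fun φ => by
    rw [LinearMap.mem_ker, pb_apply, pb_apply, LinearMap.comp_assoc, h1, LinearMap.comp_zero])

/-- The minimal three term complex of `N`. -/
theorem exists_mono_of_res [Module.Free R P0] [Module.Free R P1] [Module.Free R P2]
    [Module.Free R P3] [Module.Free R P4] [Module.Finite R P0] [Module.Finite R P1]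
    [Module.Finite R P2] [Module.Finite R P3] [Module.Finite R P4] (y1 y2 y3 y4 y5 y6 : R)
    (hgen : Ideal.ofList [y1, y2, y3, y4, y5, y6] = maximalIdeal R)
    (hR : IsWeaklyRegular R [y1, y2, y3, y4, y5, y6])
    (haug : Function.Surjective aug) (h0 : Function.Exact d1 aug) (h1 : Function.Exact d2 d1)
    (h2 : Function.Exact d3 d2) (h3 : Function.Exact d4 d3)
    (ex2 : ∀ φ : P2 →ₗ[R] R, φ ∘ₗ d3 = 0 → ∃ ψ : P1 →ₗ[R] R, φ = ψ ∘ₗ d2)
    (ex3 : ∀ φ : P3 →ₗ[R] R, φ ∘ₗ d4 = 0 → ∃ ψ : P2 →ₗ[R] R, φ = ψ ∘ₗ d3)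
    (hN : UP R N) :
    Nonempty (Mono (R := R) (A := (P0 →ₗ[R] R)) (Z := ↥(LinearMap.ker (pb (R := R) d2)))
      (cob (R := R) d1 d2 (LinearMap.ext fun x => h1.apply_apply_eq_zero x))) := by
  have h32 : d2 ∘ₗ d3 = 0 := LinearMap.ext fun x => h2.apply_apply_eq_zero x
  have h43 : d3 ∘ₗ d4 = 0 := LinearMap.ext fun x => h3.apply_apply_eq_zero x
  have hR4 : IsWeaklyRegular R [y1, y2, y3, y4] := wr_take (rs' := [y5, y6]) hR
  have hZ1 := wr_cocycles d2 d3 d4 y1 y2 y3 y4 hR4 ex2 ex3 h32 h43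
  refine exists_mono _ y1 y2 y3 y4 y5 y6 hgen hR hZ1 ?_
  intro y hy
  obtain ⟨k, s, a, b', hab⟩ := hN y hy
  obtain ⟨h, hh⟩ := exists_h0 aug d1 d2 haug h0 h1 a b' hab
  refine ⟨k, pb h ∘ₗ (LinearMap.ker (pb (R := R) d2)).subtype, fun z => ?_⟩
  apply Subtype.ext
  exact hh z z.2

end main

end Pool.Agent.Licci.XE
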