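import Pool.Agent.Work.MP_a98e4e_ag.E.Defs

/-!
# LICCI, codimension 6 (XE): the lattice `Φ = F¹` of a cone point, definitions
-/

set_option autoImplicit false

namespace Pool.Agent.Licci.XE

open scoped BigOperators

universe u

section

variable {R : Type u} [CommRing R]

theorem kfa (x x' y : E8 R) : kf (x + x') y = kf x y + kf x' y := by
  simp only [kf, Pi.add_apply, add_mul, mul_add, Finset.sum_add_distrib]

theorem kfs (c : R) (x y : E8 R) : kf (c • x) y = c * kf x y := by
  simp only [kf, Pi.smul_apply, smul_eq_mul, Finset.mul_sum]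
  refine Finset.sum_congr rfl fun i _ => Finset.sum_congr rfl fun j _ => ?_
  ring

theorem kfz (y : E8 R) : kf 0 y = 0 := by simp [kf]

/-- `Φ (p)`: all `y` with `[p, y] = 0` and `[p, [y, w]] = - (p, w) y - (y, w) p` -/
def Phi (p : E8 R) : Submodule R (E8 R) where
  carrier := {y | br p y = 0 ∧ ∀ w, br p (br y w) = -(kf p w • y) - kf y w • p}
  zero_mem' := by
    refine ⟨br_zero_right p, fun w => ?_⟩
    rw [br_zero_left, br_zero_right, kfz]
    simp
  add_mem' := by
    rintro a b ⟨ha, ha'⟩ ⟨hb, hb'⟩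
    refine ⟨by rw [br_add_right, ha, hb, add_zero], fun w => ?_⟩
    rw [br_add_left, br_add_right, ha', hb', kfa, smul_add, add_smul]
    abel
  smul_mem' := by
    rintro c a ⟨ha, ha'⟩
    refine ⟨by rw [br_smul_right, ha, smul_zero], fun w => ?_⟩
    rw [br_smul_left, br_smul_right, ha', kfs, smul_sub, smul_neg, smul_smul, smul_smul,
      smul_smul, mul_comm]

/-- `V = Φ / R p` -/
abbrev VR (p : E8 R) : Type u := Phi p ⧸ (Submodule.span R {p}).comap (Phi p).subtype

/-- coefficients of the component of `z`-degree `1`, an alternating array -/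
def t3 (Y : E8 R) (i j k : Fin 8) : R := ((-(sg3 i j k * ep3 i j k) : ℤ) : R) * Y (i1 i j k)

/-- sign of the arrangement of eight indices -/
def sg8 (a b i j k l c d : Fin 8) : ℤ :=
  ep2 a b * ep2 a i * ep2 a j * ep2 a k * ep2 a l * ep2 a c * ep2 a d *
  (ep2 b i * ep2 b j * ep2 b k * ep2 b l * ep2 b c * ep2 b d) *
  (ep2 i j * ep2 i k * ep2 i l * ep2 i c * ep2 i d) *
  (ep2 j k * ep2 j l * ep2 j c * ep2 j d) * (ep2 k l * ep2 k c * ep2 k d) *
  (ep2 l c * ep2 l d) * ep2 c d

/-- the coefficients of the `6`-form `ν` belonging to `ζ ∈ Λ²` -/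
def nuA (ζ : Fin 8 → Fin 8 → R) (a b i j k l : Fin 8) : R :=
  -∑ c, ∑ d, if c < d then (sg8 a b i j k l c d : R) * ζ c d else 0

/-- the pairs `(β, z)` : `β` a skew array with `f ⌟ β = 0`, `z` an alternating array with
`f ∧ z = ∑ β_ab ν (a, b, ...)`. -/
structure IsV2 (f : Vec R) (ζ : Fin 8 → Fin 8 → R) (β : Fin 8 → Fin 8 → R)
    (z : Fin 8 → Fin 8 → Fin 8 → R) : Prop where
  b0 : ∀ i, β i i = 0
  b1 : ∀ i j, β i j = - β j i
  z0 : ∀ i k, z i i k = 0
  z1 : ∀ i j k, z i j k = - z j i k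
  z2 : ∀ i j k, z i j k = - z i k j
  fb : ∀ j, ∑ i, f i * β i j = 0
  fz : ∀ i j k l, f i * z j k l - f j * z i k l + f k * z i j l - f l * z i j k =
    ∑ a, ∑ b, if a < b then β a b * nuA ζ a b i j k l else 0

/-- the part of `Φ` of `z`-degree `≤ 2` -/
def Phi2 (p : E8 R) : Submodule R (Phi p) where
  carrier := {y | ∀ i, p3 (y : E8 R) i = 0}
  zero_mem' := fun i => rfl
  add_mem' := fun {a b} ha hb i => by
    change p3 (a : E8 R) i + p3 (b : E8 R) i = 0
    rw [ha i, hb i, add_zero]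
  smul_mem' := fun c {a} ha i => by
    change c * p3 (a : E8 R) i = 0
    rw [ha i, mul_zero]

/-- the part of `Φ` of `z`-degree `≤ 0` -/
def Phi0 (p : E8 R) : Submodule R (Phi2 p) where
  carrier := {y | ∀ m : Fin 248, 0 < zdg m → (y : E8 R) m = 0}
  zero_mem' := fun m _ => rfl
  add_mem' := fun {a b} ha hb m hm => by
    change (a : E8 R) m + (b : E8 R) m = 0
    rw [ha m hm, hb m hm, add_zero]
  smul_mem' := fun c {a} ha m hm => by
    change c * (a : E8 R) m = 0
    rw [ha m hm, mul_zero]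

end

end Pool.Agent.Licci.XE
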