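import Pool.Agent.Work.MP_a98e4e_ag.XE.UPhi
import Pool.Agent.Work.MP_a98e4e_ag.E.Dim

/-!
# LICCI, codimension 6 (XE): `Φ = F¹`, duals
-/

set_option autoImplicit false

namespace Pool.Agent.Licci.XE

open IsLocalRing

universe u v

variable {R : Type u} [CommRing R]

/-- the lattice `Φ (p)` is `F1 p` -/
theorem mem_Phi_iff_F1 [IsDomain R] [CharZero R] {p : E8 R} (hp : Cone p) (hp0 : p ≠ 0)
    (x : E8 R) : x ∈ Phi p ↔ x ∈ F1 p := by
  constructor
  · intro hx
    obtain ⟨j, hj⟩ := DimE.exists_coord_ne hp0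
    have h1 : kf p (db j) = p j := by rw [kf_symm, kf_db_apply]
    have h2 := Phi_recover hx (db j)
    have h3 : kf p (db j) • x ∈ F1 p := by
      intro w hw
      rw [h2, kf_sub_left, kf_smul_left, DimE.br_mem_F1 hp0 (kf_br_Phi hx (db j)) w hw,
        DimE.p_mem_F1 hp hp0 w hw, mul_zero, sub_zero]
    intro w hw
    have h4 := h3 w hw
    rw [kf_smul_left, h1] at h4
    exact (mul_eq_zero.1 h4).resolve_left hj
  · intro hx
    refine ⟨DimE.br_F1 hp hx, fun w => ?_⟩
    have h2 := DimE.F1_recover hp hx w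
    rw [h2, br_skew x w, br_neg_right, kf_symm x w]
    abel

/-- the dual is projective where the module is -/
theorem UP.dual [IsLocalRing R] {N : Type v} [AddCommGroup N] [Module R N] (h : UP R N) :
    UP R (Module.Dual R N) := by
  intro y hy
  obtain ⟨n, s, a, b, hab⟩ := h y hy
  refine ⟨n, s, (Pi.basisFun R (Fin s)).toDualEquiv.symm.toLinearMap ∘ₗ b.dualMap,
    a.dualMap ∘ₗ (Pi.basisFun R (Fin s)).toDualEquiv.toLinearMap, fun φ => ?_⟩
  ext x
  simp only [LinearMap.comp_apply, LinearEquiv.coe_coe, LinearEquiv.apply_symm_apply,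
    LinearMap.dualMap_apply, hab x, LinearMap.smul_apply, map_smul]

end Pool.Agent.Licci.XE
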