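import Pool.Agent.Work.MP_a98e4e_ag.XE.Ve4
import Pool.Agent.Work.MP_a98e4e_ag.Regular

/-!
# LICCI, codimension 6 (XE): regular sequences of maximal length
-/

set_option autoImplicit false

namespace Pool.Agent.Licci.XE

open IsLocalRing RingTheory.Sequence

universe u

variable {R : Type u} [CommRing R]

/-- an ideal generated by a regular sequence of length `dim R` contains a power of the maximal
ideal -/
theorem exists_pow_le_of_regular [IsLocalRing R] [IsNoetherianRing R] (rs : List R)
    (hreg : IsWeaklyRegular R rs) (hmem : ∀ r ∈ rs, r ∈ maximalIdeal R)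
    (hdim : ringKrullDim R = rs.length) : ∃ k, maximalIdeal R ^ k ≤ Ideal.ofList rs := by
  have hle : Ideal.ofList rs ≤ maximalIdeal R := by
    rw [Ideal.ofList, Ideal.span_le]
    exact fun r hr => hmem r hr
  have hne : Ideal.ofList rs ≠ ⊤ := fun h => Ideal.IsPrime.ne_top inferInstance
    (top_le_iff.1 (h ▸ hle))
  have hR : IsRegular R rs := ⟨hreg, by
    intro h
    apply hne
    rw [smul_eq_mul, Ideal.mul_top] at h
    exact h.symm⟩
  have h1 := ringKrullDim_add_length_eq_ringKrullDim_of_isRegular rs hR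
  rw [hdim] at h1
  have h2 : ringKrullDim (R ⧸ Ideal.ofList rs) = 0 := by
    have h3 : ringKrullDim (R ⧸ Ideal.ofList rs) + (rs.length : WithBot ℕ∞) =
      0 + (rs.length : WithBot ℕ∞) := by rw [h1, zero_add]
    exact ENat.WithBot.add_natCast_cancel.1 h3
  have hK : Ring.KrullDimLE 0 (R ⧸ Ideal.ofList rs) := by
    rw [Ring.krullDimLE_iff, h2]
    simp
  have h3 : maximalIdeal R ≤ (Ideal.ofList rs).radical := by
    intro x hx
    rw [Ideal.radical_eq_sInf, Ideal.mem_sInf]
    rintro P ⟨hP, hPp⟩
    have hP' : (P.map (Ideal.Quotient.mk (Ideal.ofList rs))).IsPrime := by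
      refine Ideal.map_isPrime_of_surjective Ideal.Quotient.mk_surjective ?_
      rwa [Ideal.mk_ker]
    have hm := hP'.isMaximal'
    have h4 : P.IsMaximal := by
      have h5 := Ideal.comap_isMaximal_of_surjective
        (Ideal.Quotient.mk (Ideal.ofList rs)) Ideal.Quotient.mk_surjective (H := hm)
      rwa [Ideal.comap_map_of_surjective _ Ideal.Quotient.mk_surjective, ← RingHom.ker_eq_comap_bot,
        Ideal.mk_ker, sup_eq_left.2 hP] at h5
    rw [IsLocalRing.eq_maximalIdeal h4]
    exact hx
  exact Ideal.exists_pow_le_of_le_radical_of_fg h3 (IsNoetherian.noetherian _)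

/-- depth at least six -/
theorem depth6_of_dim [IsRegularLocalRing R] (hdim : (maximalIdeal R).spanFinrank = 6) :
    Depth6 R := by
  obtain ⟨rs, h1, h2, h3⟩ := LicciCodimFour.exists_regular_generators R
  rw [← IsRegularLocalRing.spanFinrank_maximalIdeal (R := R), hdim] at h1
  refine ⟨rs, by exact_mod_cast h1, fun r hr => ?_, h3⟩
  rw [← h2]
  exact Ideal.subset_span hr

end Pool.Agent.Licci.XE
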