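import Pool.Agent.Work.MP_a98e4e_ag.XE.VeMain
import Pool.Agent.Work.MP_a98e4e_ag.XE.Prim
import Pool.Agent.Work.MP_a98e4e_ag.XE.Mem
import Pool.Agent.Work.MP_a98e4e_ag.D.GDat
import Pool.Agent.Work.MP_a98e4e_ag.D.Hodge

/-!
# LICCI, codimension 6 (XE): from linkage data to `Ext ^ 2 (V*, R) = Ext ^ 3 (V*, R) = 0`
-/

set_option autoImplicit false

namespace Pool.Agent.Licci.XE

open IsLocalRing RingTheory.Sequence

universe u

section

variable {R M : Type*} [CommRing R] [AddCommGroup M] [Module R M]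

/-- the sum form of `f ∧ ν = 0` -/
theorem wedge_of_cyc {n : ℕ} (f : M →ₗ[R] R) (ν : M [⋀^Fin (n + 1)]→ₗ[R] R)
    (h : ∀ (a : Fin (n + 1) → M) (v : M), ∑ j, f (a j) * ν (Function.update a j v) = f v * ν a) :
    wedge f (n + 1) ν = 0 := by
  refine AlternatingMap.ext fun x => ?_
  obtain ⟨v, a, rfl⟩ : ∃ (v : M) (a : Fin (n + 1) → M), x = Fin.cons v a :=
    ⟨x 0, Fin.tail x, (Fin.cons_self_tail x).symm⟩
  have h1 := h a v
  rw [wedge_apply, Fin.sum_univ_succ]
  have h2 : (Fin.removeNth 0 (Fin.cons v a : Fin (n + 2) → M)) = a := by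
    rw [Fin.removeNth_zero, Fin.tail_cons]
  have h3 : ∀ j : Fin (n + 1), ν (Function.update a j v) =
      (-1 : ℤ) ^ (j : ℕ) • ν (Fin.cons v (j.removeNth a)) := by
    intro j
    rw [← Fin.insertNth_removeNth, AlternatingMap.map_insertNth]
    rfl
  have h4 : ∀ j : Fin (n + 1), (Fin.removeNth j.succ (Fin.cons v a : Fin (n + 2) → M)) =
      (Fin.cons v (j.removeNth a) : Fin (n + 1) → M) := by
    intro j
    funext r
    refine Fin.cases ?_ (fun r => ?_) r
    · rw [Fin.removeNth_apply, Fin.succ_succAbove_zero, Fin.cons_zero, Fin.cons_zero]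
    · rw [Fin.removeNth_apply, Fin.succ_succAbove_succ, Fin.cons_succ, Fin.cons_succ,
        Fin.removeNth_apply]
  rw [h2]
  simp only [h4, Fin.cons_zero, Fin.cons_succ, Fin.val_zero, pow_zero, one_smul, smul_eq_mul,
    Fin.val_succ]
  rw [← h1, AlternatingMap.zero_apply, ← Finset.sum_add_distrib]
  refine Finset.sum_eq_zero fun j _ => ?_
  rw [h3, pow_succ]
  simp only [mul_neg, mul_one, neg_smul]
  rw [mul_smul_comm, add_neg_cancel]

end

section

variable {R : Type u} [CommRing R]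

/-- the sum of a symmetric array with zero diagonal -/
theorem sum_symm (F : Fin 8 → Fin 8 → R) (h0 : ∀ i, F i i = 0) (h1 : ∀ i j, F i j = F j i) :
    ∑ i, ∑ j, F i j = 2 * ∑ i, ∑ j, if i < j then F i j else 0 := by
  have e1 : ∀ i j, F i j = (if i < j then F i j else 0) + if j < i then F j i else 0 := by
    intro i j
    rcases lt_trichotomy i j with h | h | h
    · rw [if_pos h, if_neg (not_lt.2 h.le), add_zero]
    · subst h
      rw [if_neg (lt_irrefl i), h0, add_zero]
    · rw [if_neg (not_lt.2 h.le), if_pos h, zero_add, h1]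
  have e2 : ∑ i, ∑ j, F i j = ∑ i, ∑ j, ((if i < j then F i j else 0) +
      if j < i then F j i else 0) :=
    Finset.sum_congr rfl fun i _ => Finset.sum_congr rfl fun j _ => e1 i j
  rw [e2]
  simp only [Finset.sum_add_distrib]
  have e3 : (∑ i : Fin 8, ∑ j : Fin 8, if j < i then F j i else 0) =
      ∑ i, ∑ j, if i < j then F i j else 0 := Finset.sum_comm
  rw [e3, two_mul]

theorem dt8_eq_dF : dt8 R = dF R := by
  rw [dF_eq]
  rfl

/-- the two normalisations of the `6`-form -/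
theorem nuG_eq_nu6 [Algebra ℚ R] (ω : Al R 8) (p : E8 R) (x : Fin 6 → Fin 8 → R) :
    nuG ω (w2 p) x = - nu6 ω p x := by
  rw [nuG_apply, nu6_apply]
  congr 1
  have h2 := sum_symm (fun i j => w2 p i j * vol2 ω i j x)
    (fun i => by
      show w2 p i i * vol2 ω i i x = 0
      have h4 : w2 p i i = 0 := by
        rw [w2]
        simp [ep2]
      rw [h4, zero_mul])
    (fun i j => by
      show w2 p i j * vol2 ω i j x = w2 p j i * vol2 ω j i x
      rw [w2_swap p i j, vol2_swap ω i j]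
      ring)
  rw [h2, ← mul_assoc, half_two, one_mul]
  refine Finset.sum_congr rfl fun c _ => Finset.sum_congr rfl fun d _ => ?_
  split_ifs
  · rw [vol2_apply]
  · rfl

theorem nuF_eq [Algebra ℚ R] (p : E8 R) : ∃ ω : Al R 8, ω = dF R ∧
    ∀ x, nuF (w2 p) x = - nu6 ω p x := by
  refine ⟨dt8 R, dt8_eq_dF, fun x => ?_⟩
  rw [nuF]
  exact nuG_eq_nu6 _ p x

end

theorem lf_eq_fv {R : Type u} [CommRing R] (p : E8 R) : lf (p3 p) = fv p := by
  apply LinearMap.ext
  intro v
  rw [constr_apply, fv_apply]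
  exact Finset.sum_congr rfl fun i _ => mul_comm _ _

section main

variable {R : Type u} [CommRing R] [IsRegularLocalRing R] [IsDomain R] [Algebra ℚ R]

/-- in dimension six, linkage data are primary to the maximal ideal -/
theorem exists_pow_of_datum {p : E8 R} {a : Fin 6 → Fin 8 → R} {w : R}
    (hG : D.GDat R (fv p) a w) (hdim : ringKrullDim R = (6 : ℕ)) :
    ∃ k, maximalIdeal R ^ k ≤ Ideal.span (Set.range (p3 p)) := by
  obtain ⟨k, hk⟩ := exists_pow_le_of_regular (List.ofFn fun i => fv p (a i)) hG.reg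
    (by
      intro r hr
      obtain ⟨i, rfl⟩ := (List.mem_ofFn' _ _).1 hr
      exact hG.mem _)
    (by rw [hdim, List.length_ofFn])
  refine ⟨k, hk.trans ?_⟩
  rw [Ideal.ofList, Ideal.span_le]
  intro r hr
  obtain ⟨i, rfl⟩ := (List.mem_ofFn' _ _).1 hr
  rw [SetLike.mem_coe, ← range_constr]
  refine ⟨a i, ?_⟩
  exact LinearMap.congr_fun (lf_eq_fv p) (a i)

omit [IsRegularLocalRing R] [IsDomain R] in
theorem cyc_aux {p : E8 R} {ω : Al R 8} (hcr : Cram ω) (hom : ∀ i, ∑ s, w2 p s i * p3 p s = 0)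
    (ν : Al R 6) (hν : ∀ x, ν x = - nu6 ω p x) (b : Fin 6 → Fin 8 → R) (v : Fin 8 → R) :
    ∑ j, fv p (b j) * ν (Function.update b j v) = fv p v * ν b := by
  have h1 := nu6_cyc hcr p hom b v
  have h2 : ∀ j, fv p (b j) * ν (Function.update b j v) =
      - (fv p (b j) * nu6 ω p (Function.update b j v)) := fun j => by
    rw [hν, mul_neg]
  rw [Finset.sum_congr rfl fun j _ => h2 j, Finset.sum_neg_distrib, h1, hν, mul_neg]

omit [IsRegularLocalRing R] [IsDomain R] in
theorem wedge_aux {p : E8 R} {ω : Al R 8} (hcr : Cram ω) (hom : ∀ i, ∑ s, w2 p s i * p3 p s = 0)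
    (ν : Al R 6) (hν : ∀ x, ν x = - nu6 ω p x) : wedge (fv p) 6 ν = 0 :=
  wedge_of_cyc (n := 5) (fv p) ν fun b v => cyc_aux hcr hom ν hν b v

/-- **XE**: the module `V = Φ / R p` of a point of the cone which represents linkage data over a
regular local ring of dimension six -/
theorem H23_dual_VR_datum {p : E8 R} (hc : Cone p) {a : Fin 6 → Fin 8 → R} {w : R}
    (hG : D.GDat R (fv p) a w)
    (hw : nu6 (dF R) p a - w ∈ Ideal.span (Set.range fun i => fv p (a i)))
    (hdim : ringKrullDim R = (6 : ℕ)) : H23 R (Module.Dual R (VR p)) := by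
  have hI := exists_pow_of_datum hG hdim
  have hd : Depth6 R := by
    apply depth6_of_dim
    rw [← IsRegularLocalRing.spanFinrank_maximalIdeal (R := R)] at hdim
    exact_mod_cast hdim
  have hgor : Gor (lf (p3 p)) a (-w) := by
    rw [lf_eq_fv]
    refine ⟨hG.reg, fun y hy => ?_, fun y => ?_⟩
    · rw [Ideal.span_singleton_neg]
      exact hG.col y hy
    · rw [mul_neg, neg_mem_iff]
      exact hG.ann y
  have hext : Ext p := fun y => ⟨_, hc y⟩
  have hcr : Cram (dF R) := cram_dF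
  obtain ⟨ω, hω, hν⟩ := nuF_eq p
  rw [← hω] at hw hcr
  refine H23_dual_VR' hd hc hI hgor (ν := nuF (w2 p)) rfl ?_ ?_
  · rw [lf_eq_fv]
    exact wedge_aux hcr (fun i => hext.om i) _ hν
  · rw [lf_eq_fv, hν, sub_neg_eq_add, neg_add_eq_sub, ← neg_sub]
    exact neg_mem hw

end main

end Pool.Agent.Licci.XE
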