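import Mathlib

/-!
# LICCI, codimension 6 (XE): vanishing of `Ext ^ i (N, R)` for `i = 2, 3`

Closure properties of the class of finite modules `N` with `Ext ^ 2 (N, R) = Ext ^ 3 (N, R) = 0`:
invariance under maps which are isomorphisms up to modules killed by a power of the maximal ideal,
and extensions. Everything comes from the long exact sequence and the theorem of Rees in Mathlib.
-/

namespace Pool.Agent.Licci.XE

open CategoryTheory Abelian RingTheory.Sequence IsLocalRing

universe u

variable {R : Type u} [CommRing R]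

/-- `Ext ^ i (N, R) = 0` -/
def SE (N : Type u) [AddCommGroup N] [Module R N] (i : ℕ) : Prop :=
  Subsingleton (Ext (ModuleCat.of R N) (ModuleCat.of R R) i)

variable {A B C : Type u} [AddCommGroup A] [Module R A] [AddCommGroup B] [Module R B]
  [AddCommGroup C] [Module R C]

/-- the short exact sequence of linear maps -/
theorem shortExact_of {f : A →ₗ[R] B} {g : B →ₗ[R] C} (hf : Function.Injective f)
    (hfg : Function.Exact f g) (hg : Function.Surjective g) :
    (ShortComplex.mk (ModuleCat.ofHom f) (ModuleCat.ofHom g) (by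
      ext x; exact hfg.apply_apply_eq_zero x)).ShortExact where
  exact := (ShortComplex.ShortExact.moduleCat_exact_iff_function_exact _).2 hfg
  mono_f := (ModuleCat.mono_iff_injective _).2 hf
  epi_g := (ModuleCat.epi_iff_surjective _).2 hg

section les

variable {f : A →ₗ[R] B} {g : B →ₗ[R] C} (hf : Function.Injective f)
    (hfg : Function.Exact f g) (hg : Function.Surjective g)

include hf hfg hg

theorem SE.mid {i : ℕ} (hA : SE (R := R) A i) (hC : SE (R := R) C i) : SE (R := R) B i := by
  have hS := shortExact_of hf hfg hg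
  refine ⟨fun x y => ?_⟩
  unfold SE at hA hC
  have h : ∀ z : Ext (ModuleCat.of R B) (ModuleCat.of R R) i, z = 0 := by
    intro z
    obtain ⟨w, hw⟩ := Ext.contravariant_sequence_exact₂ hS (ModuleCat.of R R) z
      (hA.elim _ _)
    rw [← hw, hC.elim w 0, Ext.comp_zero]
  rw [h x, h y]

theorem SE.left {i : ℕ} (hB : SE (R := R) B i) (hC : SE (R := R) C (1 + i)) :
    SE (R := R) A i := by
  have hS := shortExact_of hf hfg hg
  unfold SE at hB hC
  refine ⟨fun x y => ?_⟩
  have h : ∀ z : Ext (ModuleCat.of R A) (ModuleCat.of R R) i, z = 0 := by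
    intro z
    obtain ⟨w, hw⟩ := Ext.contravariant_sequence_exact₁ hS (ModuleCat.of R R) z rfl
      (hC.elim _ _)
    rw [← hw, hB.elim w 0, Ext.comp_zero]
  rw [h x, h y]

theorem SE.right {i : ℕ} (hA : SE (R := R) A i) (hB : SE (R := R) B (1 + i)) :
    SE (R := R) C (1 + i) := by
  have hS := shortExact_of hf hfg hg
  unfold SE at hA hB
  refine ⟨fun x y => ?_⟩
  have h : ∀ z : Ext (ModuleCat.of R C) (ModuleCat.of R R) (1 + i), z = 0 := by
    intro z
    obtain ⟨w, hw⟩ := Ext.contravariant_sequence_exact₃ hS (ModuleCat.of R R) z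
      (hB.elim _ _) rfl
    rw [← hw, hA.elim w 0, Ext.comp_zero]
  rw [h x, h y]

end les

/-- free modules -/
theorem SE.free [Module.Free R A] (i : ℕ) : SE (R := R) A (1 + i) := by
  rw [add_comm]
  have : Projective (ModuleCat.of R A) := by
    have : Module.Projective R A := inferInstance
    exact (IsProjective.iff_projective A).1 this
  exact ⟨fun x y => (Ext.eq_zero_of_projective x).trans (Ext.eq_zero_of_projective y).symm⟩

theorem SE.zero_of {i : ℕ} [Subsingleton A] : SE (R := R) A i := by
  cases i with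
  | zero =>
    have : Subsingleton (A →ₗ[R] R) := ⟨fun f g => LinearMap.ext fun x => by
      rw [Subsingleton.elim x 0, map_zero, map_zero]⟩
    exact (Ext.addEquiv₀.trans ModuleCat.homAddEquiv).subsingleton
  | succ n =>
    have h := SE.free (R := R) (A := A) n
    rwa [add_comm] at h

theorem SE.congr (e : A ≃ₗ[R] B) {i : ℕ} (h : SE (R := R) A i) : SE (R := R) B i := by
  refine SE.mid (A := A) (C := PUnit) (f := e.toLinearMap) (g := 0) e.injective ?_ ?_ h
    SE.zero_of
  · intro x
    exact ⟨fun _ => e.surjective x, fun _ => Subsingleton.elim _ _⟩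
  · intro x
    exact ⟨0, Subsingleton.elim _ _⟩

/-- killed by a power of the maximal ideal -/
def Tors (R : Type u) [CommRing R] [IsLocalRing R] (M : Type u) [AddCommGroup M] [Module R M] :
    Prop :=
  ∃ k : ℕ, ∀ r ∈ maximalIdeal R ^ k, ∀ x : M, r • x = 0

variable (R) in
/-- there is a regular sequence of length six -/
def Depth6 [IsLocalRing R] : Prop :=
  ∃ rs : List R, rs.length = 6 ∧ (∀ r ∈ rs, r ∈ maximalIdeal R) ∧ IsRegular R rs

/-- Rees -/
theorem SE.tors [IsLocalRing R] [IsNoetherianRing R] (hd : Depth6 R) [Module.Finite R A]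
    (hA : Tors R A) {i : ℕ} (hi : i < 6) : SE (R := R) A i := by
  obtain ⟨rs, hlen, hmem, hreg⟩ := hd
  obtain ⟨k, hk⟩ := hA
  have h := ModuleCat.subsingleton_ext_of_exists_isRegular (maximalIdeal R) (ModuleCat.of R A) ?_
    (ModuleCat.of R R) ?_ rs hmem hreg i (by omega)
  · exact h
  · rw [Module.support_eq_zeroLocus, PrimeSpectrum.zeroLocus_subset_zeroLocus_iff]
    intro r hr
    refine ⟨k, ?_⟩
    rw [Module.mem_annihilator]
    exact fun x => hk _ (Ideal.pow_mem_pow hr k) x
  · refine lt_top_iff_ne_top.2 ?_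
    intro h
    have h1 : maximalIdeal R • (⊤ : Submodule R R) = ⊤ := h
    rw [smul_eq_mul, Ideal.mul_top] at h1
    exact Ideal.IsPrime.ne_top inferInstance h1

variable (R) in
/-- `Ext ^ 2 (N, R) = Ext ^ 3 (N, R) = 0` -/
def H23 (N : Type u) [AddCommGroup N] [Module R N] : Prop :=
  SE (R := R) N 2 ∧ SE (R := R) N 3

section

variable [IsLocalRing R] [IsNoetherianRing R] (hd : Depth6 R)

include hd

/-- quotient by torsion -/
theorem H23.quot [Module.Finite R A] {f : A →ₗ[R] B} {g : B →ₗ[R] C}
    (hf : Function.Injective f) (hfg : Function.Exact f g) (hg : Function.Surjective g)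
    (hA : Tors R A) : H23 R B ↔ H23 R C := by
  constructor
  · rintro ⟨h2, h3⟩
    exact ⟨SE.right hf hfg hg (i := 1) (SE.tors hd hA (by norm_num)) h2,
      SE.right hf hfg hg (i := 2) (SE.tors hd hA (by norm_num)) h3⟩
  · rintro ⟨h2, h3⟩
    exact ⟨SE.mid hf hfg hg (SE.tors hd hA (by norm_num)) h2,
      SE.mid hf hfg hg (SE.tors hd hA (by norm_num)) h3⟩

/-- submodule with torsion quotient -/
theorem H23.sub [Module.Finite R C] {f : A →ₗ[R] B} {g : B →ₗ[R] C}
    (hf : Function.Injective f) (hfg : Function.Exact f g) (hg : Function.Surjective g)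
    (hC : Tors R C) : H23 R A ↔ H23 R B := by
  constructor
  · rintro ⟨h2, h3⟩
    exact ⟨SE.mid hf hfg hg h2 (SE.tors hd hC (by norm_num)),
      SE.mid hf hfg hg h3 (SE.tors hd hC (by norm_num))⟩
  · rintro ⟨h2, h3⟩
    exact ⟨SE.left hf hfg hg h2 (SE.tors hd hC (by norm_num)),
      SE.left hf hfg hg h3 (SE.tors hd hC (by norm_num))⟩

end

/-- extensions -/
theorem H23.ext {f : A →ₗ[R] B} {g : B →ₗ[R] C}
    (hf : Function.Injective f) (hfg : Function.Exact f g) (hg : Function.Surjective g)
    (hA : H23 R A) (hC : H23 R C) : H23 R B :=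
  ⟨SE.mid hf hfg hg hA.1 hC.1, SE.mid hf hfg hg hA.2 hC.2⟩

theorem H23.free [Module.Free R A] : H23 R A := ⟨SE.free 1, SE.free 2⟩

theorem H23.congr (e : A ≃ₗ[R] B) (h : H23 R A) : H23 R B := ⟨h.1.congr e, h.2.congr e⟩

end Pool.Agent.Licci.XE
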