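import Pool.Agent.Work.MP_a98e4e_ag.KoszulTop

/-!
# LICCI, codimension 6 (XE): exactness of the dual of the Koszul complex
-/

namespace Pool.Agent.Licci

open RingTheory.Sequence Pointwise

universe u v w

variable {R : Type u} [CommRing R]

/-- Elementary acyclicity lemma for complexes `⋯ → C 1 → C 0` with `C i = 0` for `i > n`. -/
theorem exact_of_homotopy_desc (n : ℕ) (rs : List R) : ∀ (C : ℕ → Type v)
    [∀ i, AddCommGroup (C i)] [∀ i, Module R (C i)] (d : ∀ i, C (i + 1) →ₗ[R] C i)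
    (_dd : ∀ i x, d i (d (i + 1) x) = 0) (_reg : ∀ i, IsWeaklyRegular (C i) rs)
    (_hom : ∀ r ∈ rs, ∃ s : ∀ i, C i →ₗ[R] C (i + 1),
      ∀ i x, d (i + 1) (s (i + 1) x) + s i (d i x) = r • x)
    (_hn : ∀ i, n < i → ∀ x : C i, x = 0),
    ∀ i, n < i + 1 + rs.length → ∀ x : C (i + 1), d i x = 0 → ∃ y, d (i + 1) y = x := by
  induction rs with
  | nil =>
    intro C _ _ d _ _ _ hn i hi x _
    refine ⟨0, ?_⟩
    rw [map_zero]
    exact (hn (i + 1) (by simpa using hi) x).symm
  | cons a rs ih =>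
    intro C _ _ d dd reg hom hn i hi x hx
    have areg : ∀ i, IsSMulRegular (C i) a := fun i =>
      ((isWeaklyRegular_cons_iff (C i) a rs).1 (reg i)).1
    have qreg : ∀ i, IsWeaklyRegular (QuotSMulTop a (C i)) rs := fun i =>
      ((isWeaklyRegular_cons_iff (C i) a rs).1 (reg i)).2
    obtain ⟨s, s1⟩ := hom a (by simp)
    have key := ih (fun i => QuotSMulTop a (C i)) (fun i => QuotSMulTop.map a (d i))
      (by
        intro i x
        obtain ⟨x, rfl⟩ := Submodule.Quotient.mk_surjective _ x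
        rw [QuotSMulTop.map_apply_mk, QuotSMulTop.map_apply_mk, dd]; rfl)
      qreg
      (by
        intro r hr
        obtain ⟨t, t1⟩ := hom r (List.mem_cons_of_mem _ hr)
        refine ⟨fun i => QuotSMulTop.map a (t i), ?_⟩
        intro i x
        obtain ⟨x, rfl⟩ := Submodule.Quotient.mk_surjective _ x
        rw [QuotSMulTop.map_apply_mk, QuotSMulTop.map_apply_mk, QuotSMulTop.map_apply_mk,
          QuotSMulTop.map_apply_mk, ← Submodule.Quotient.mk_add, t1]; rfl)
      (by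
        intro i hi x
        obtain ⟨x, rfl⟩ := Submodule.Quotient.mk_surjective _ x
        rw [hn i hi x]; rfl)
    have lift0 : ∀ i (z : C i), (Submodule.Quotient.mk z : QuotSMulTop a (C i)) = 0 →
        ∃ y, z = a • y := by
      intro i z hz
      rw [Submodule.Quotient.mk_eq_zero] at hz
      obtain ⟨y, -, hy⟩ := (Submodule.mem_smul_pointwise_iff_exists _ _ _).1 hz
      exact ⟨y, hy.symm⟩
    have h1 : a • x = d (i + 1) (s (i + 1) x) := by rw [← s1 i x, hx, map_zero, add_zero]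
    have h2 : QuotSMulTop.map a (d (i + 1)) (Submodule.Quotient.mk (s (i + 1) x)) = 0 := by
      rw [QuotSMulTop.map_apply_mk, ← h1, Submodule.Quotient.mk_eq_zero]
      exact (Submodule.mem_smul_pointwise_iff_exists _ _ _).2 ⟨x, trivial, rfl⟩
    obtain ⟨w, hw⟩ := key (i + 1) (by simp only [List.length_cons] at hi; omega)
      (Submodule.Quotient.mk (s (i + 1) x)) h2
    obtain ⟨w, rfl⟩ := Submodule.Quotient.mk_surjective _ w
    rw [QuotSMulTop.map_apply_mk] at hw
    have h4 : (Submodule.Quotient.mk (s (i + 1) x - d (i + 2) w) :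
        QuotSMulTop a (C (i + 2))) = 0 := by
      rw [Submodule.Quotient.mk_sub]
      exact sub_eq_zero.2 hw.symm
    obtain ⟨y, hy⟩ := lift0 _ _ h4
    refine ⟨y, ?_⟩
    apply areg (i + 1)
    show a • d (i + 1) y = a • x
    rw [h1, ← map_smul, ← hy, map_sub, dd, sub_zero]

/-- alternating maps of degree `> n` on `R ^ n` are zero -/
theorem alt_eq_zero {n k : ℕ} (hk : n < k) (ω : (Fin n → R) [⋀^Fin k]→ₗ[R] R) : ω = 0 := by
  refine (Pi.basisFun R (Fin n)).ext_alternating fun v hv => ?_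
  exfalso
  have := Fintype.card_le_of_injective v hv
  simp only [Fintype.card_fin] at this
  omega

/-- The dual of the Koszul complex `Λ ^ k M^*` of `g` is exact in degrees `> n - length rs`. -/
theorem koszul_dual_exact {n : ℕ} (g : (Fin n → R) →ₗ[R] R) (rs : List R)
    (hreg : IsWeaklyRegular R rs) (hmem : ∀ r ∈ rs, ∃ x, g x = r) (k : ℕ)
    (hk : n < k + 1 + rs.length) (φ : ((Fin n → R) [⋀^Fin (k + 1)]→ₗ[R] R) →ₗ[R] R)
    (hφ : φ ∘ₗ wedge g k = 0) :
    ∃ ψ : ((Fin n → R) [⋀^Fin (k + 2)]→ₗ[R] R) →ₗ[R] R, φ = ψ ∘ₗ wedge g (k + 1) := by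
  have h := exact_of_homotopy_desc n rs (fun k => ((Fin n → R) [⋀^Fin k]→ₗ[R] R) →ₗ[R] R)
    (fun k => LinearMap.lcomp R R (wedge g k)) ?_ ?_ ?_ ?_ k hk φ ?_
  · obtain ⟨ψ, hψ⟩ := h
    exact ⟨ψ, hψ.symm⟩
  · intro i x
    ext ω
    simp only [LinearMap.lcomp_apply, LinearMap.zero_apply]
    rw [wedge_wedge_self, map_zero]
  · intro i
    obtain ⟨m, ⟨e⟩⟩ := exists_altEquiv (R := R) (Fin n → R) i R
    have e2 : (((Fin n → R) [⋀^Fin i]→ₗ[R] R) →ₗ[R] R) ≃ₗ[R] (Fin m → R) :=
      (LinearEquiv.congrLeft R R e).trans (Module.piEquiv (Fin m) R R).symm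
    exact (LinearEquiv.isWeaklyRegular_congr e2 rs).2 (isWeaklyRegular_pi rs R hreg)
  · intro r hr
    obtain ⟨x, rfl⟩ := hmem r hr
    refine ⟨fun i => LinearMap.lcomp R R (contr x i), fun i φ => ?_⟩
    ext ω
    simp only [LinearMap.lcomp_apply, LinearMap.add_apply, LinearMap.smul_apply, smul_eq_mul]
    rw [contr_wedge, map_sub, map_smul, smul_eq_mul, sub_add_cancel]
  · intro i hi φ
    ext ω
    rw [alt_eq_zero hi ω, map_zero, map_zero]
  · exact hφ

end Pool.Agent.Licci
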