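import Pool.Agent.Work.MP_a98e4e_ag.XE.KerDual
import Pool.Agent.Work.MP_a98e4e_ag.XE.KosDual

/-!
# LICCI, codimension 6 (XE): the complex `K_2` of the middle part of the filtration

Everything in the wedge model: `M = R ^ 8`, `g : M → R` the linear form with values in the ideal `I`,
`ν ∈ Λ ^ 6 M^*` the closed form with `ν a - w ∈ (g a)`.
-/

set_option autoImplicit false

namespace Pool.Agent.Licci.XE

open RingTheory.Sequence IsLocalRing

universe u

variable {R : Type u} [CommRing R]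

/-- alternating forms on `R ^ 8` -/
abbrev Al (R : Type u) [CommRing R] (k : ℕ) : Type u := (Fin 8 → R) [⋀^Fin k]→ₗ[R] R

instance free_al (k : ℕ) : Module.Free R (Al R k) := by
  obtain ⟨m, ⟨e⟩⟩ := exists_altEquiv (R := R) (Fin 8 → R) k R
  exact Module.Free.of_equiv e.symm

instance finite_al (k : ℕ) : Module.Finite R (Al R k) := by
  obtain ⟨m, ⟨e⟩⟩ := exists_altEquiv (R := R) (Fin 8 → R) k R
  exact Module.Finite.equiv e.symm

/-- The Gorenstein-type hypotheses on the linear form `g`. -/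
structure Gor (g : (Fin 8 → R) →ₗ[R] R) (a : Fin 6 → (Fin 8 → R)) (w : R) : Prop where
  reg : IsWeaklyRegular R (List.ofFn fun i => g (a i))
  top : ∀ y : R, (∀ v, y * g v ∈ Ideal.span (Set.range fun i => g (a i))) →
    y ∈ Ideal.span (Set.range fun i => g (a i)) ⊔ Ideal.span {w}
  bot : ∀ y : R, y * w ∈ Ideal.span (Set.range fun i => g (a i)) ↔ ∃ v, g v = y

section

variable {g : (Fin 8 → R) →ₗ[R] R} {a : Fin 6 → (Fin 8 → R)} {w : R} {ν : Al R 6}

/-- closed forms of degree `6` -/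
theorem closed_six (hG : Gor g a w) (hν0 : wedge g 6 ν = 0)
    (hνa : ν a - w ∈ Ideal.span (Set.range fun i => g (a i))) {ω : Al R 6}
    (hω : wedge g 6 ω = 0) : ∃ (r : R) (η : Al R 5), ω = r • ν + wedge g 5 η := by
  set I := Ideal.span (Set.range fun i => g (a i)) with hI
  have h1 : ∀ v, ω a * g v ∈ I := by
    intro v
    have h2 := contr_wedge g v 5 ω
    rw [hω, map_zero] at h2
    have h3 := congrArg (fun f => f a) h2
    have h4 : g v * ω a = (wedge g 5 (contr v 5 ω)) a := by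
      simp only [AlternatingMap.sub_apply, AlternatingMap.smul_apply, smul_eq_mul,
        AlternatingMap.zero_apply] at h3
      linear_combination -h3
    have h5 := wedge_apply_mem g 5 (contr v 5 ω) a
    rw [← h4, smul_eq_mul, Ideal.mul_top] at h5
    rw [mul_comm]
    exact h5
  obtain ⟨α, hα, z, hz, hsum⟩ := Submodule.mem_sup.1 (hG.top _ h1)
  obtain ⟨r, rfl⟩ := Ideal.mem_span_singleton'.1 hz
  refine ⟨r, ?_⟩
  have h6 : wedge g 6 (ω - r • ν) = 0 := by
    rw [map_sub, map_smul, hω, hν0, smul_zero, sub_zero]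
  have h7 := isCob_of_apply_mem g 6 a hG.reg (ω - r • ν) h6 (by
    rw [AlternatingMap.sub_apply, AlternatingMap.smul_apply, smul_eq_mul, ← hsum]
    have h8 : α + r * w - r * ν a = α - r * (ν a - w) := by ring
    rw [h8]
    exact I.sub_mem hα (I.mul_mem_left _ hνa))
  obtain ⟨η, hη⟩ := h7
  exact ⟨η, by rw [hη]; abel⟩

/-- the annihilator of the class of `ν` -/
theorem exact_six (hG : Gor g a w)
    (hνa : ν a - w ∈ Ideal.span (Set.range fun i => g (a i))) {r : R} {η : Al R 5}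
    (h : r • ν = wedge g 5 η) : ∃ v, g v = r := by
  rw [← hG.bot r]
  have h1 := congrArg (fun f => f a) h
  have h2 : r * ν a = wedge g 5 η a := h1
  have h3 := wedge_apply_mem g 5 η a
  rw [← h2, smul_eq_mul, Ideal.mul_top] at h3
  have h4 : r * w = r * ν a - r * (ν a - w) := by ring
  rw [h4]
  exact Ideal.sub_mem _ h3 (Ideal.mul_mem_left _ _ hνa)

/-! ### Sums over pairs -/

theorem sum_pairs {N : Type*} [AddCommGroup N] {n : ℕ} (F : Fin n → Fin n → N)
    (h0 : ∀ i, F i i = 0) :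
    ∑ i, ∑ j, F i j = ∑ i, ∑ j, if i < j then F i j + F j i else 0 := by
  have h1 : ∀ i j, F i j = (if i < j then F i j else 0) + (if j < i then F i j else 0) := by
    intro i j
    rcases lt_trichotomy i j with h | h | h
    · rw [if_pos h, if_neg (not_lt.2 h.le), add_zero]
    · subst h
      rw [if_neg (lt_irrefl i), h0, add_zero]
    · rw [if_neg (not_lt.2 h.le), if_pos h, zero_add]
  have h2 : ∑ i, ∑ j, F i j = ∑ i, ∑ j, (if i < j then F i j else 0) +
      ∑ i, ∑ j, (if j < i then F i j else 0) := by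
    rw [← Finset.sum_add_distrib]
    refine Finset.sum_congr rfl fun i _ => ?_
    rw [← Finset.sum_add_distrib]
    exact Finset.sum_congr rfl fun j _ => h1 i j
  rw [h2]
  have h3 : ∑ i, ∑ j, (if j < i then F i j else 0) = ∑ i, ∑ j, (if i < j then F j i else 0) :=
    Finset.sum_comm
  rw [h3, ← Finset.sum_add_distrib]
  refine Finset.sum_congr rfl fun i _ => ?_
  rw [← Finset.sum_add_distrib]
  refine Finset.sum_congr rfl fun j _ => ?_
  split_ifs
  · rfl
  · rw [add_zero]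

/-- contraction of `ν` with `e_i`, then with `e_j` -/
def c2 (ν : Al R 6) (i j : Fin 8) : Al R 4 :=
  contr (Pi.single j 1) 4 (contr (Pi.single i 1) 5 ν)

/-- contraction with a bivector -/
def bc (ν : Al R 6) : (Fin 8 → Fin 8 → R) →ₗ[R] Al R 4 where
  toFun β := ∑ i, ∑ j, if i < j then β i j • c2 ν i j else 0
  map_add' β γ := by
    rw [← Finset.sum_add_distrib]
    refine Finset.sum_congr rfl fun i _ => ?_
    rw [← Finset.sum_add_distrib]
    refine Finset.sum_congr rfl fun j _ => ?_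
    split_ifs
    · rw [Pi.add_apply, Pi.add_apply, add_smul]
    · rw [add_zero]
  map_smul' r β := by
    rw [RingHom.id_apply, Finset.smul_sum]
    refine Finset.sum_congr rfl fun i _ => ?_
    rw [Finset.smul_sum]
    refine Finset.sum_congr rfl fun j _ => ?_
    split_ifs
    · rw [Pi.smul_apply, Pi.smul_apply, smul_eq_mul, mul_smul]
    · rw [smul_zero]

theorem bc_apply (ν : Al R 6) (β : Fin 8 → Fin 8 → R) :
    bc ν β = ∑ i, ∑ j, if i < j then β i j • c2 ν i j else 0 := rfl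

/-- `∑ i, g(e_i) β i .` -/
def ug (g : (Fin 8 → R) →ₗ[R] R) : (Fin 8 → Fin 8 → R) →ₗ[R] (Fin 8 → R) where
  toFun β j := ∑ i, g (Pi.single i 1) * β i j
  map_add' β γ := by
    funext j
    rw [Pi.add_apply, ← Finset.sum_add_distrib]
    refine Finset.sum_congr rfl fun i _ => ?_
    rw [Pi.add_apply, Pi.add_apply, mul_add]
  map_smul' r β := by
    funext j
    rw [RingHom.id_apply, Pi.smul_apply, smul_eq_mul, Finset.mul_sum]
    refine Finset.sum_congr rfl fun i _ => ?_
    rw [Pi.smul_apply, Pi.smul_apply, smul_eq_mul, mul_left_comm]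

theorem ug_apply (g : (Fin 8 → R) →ₗ[R] R) (β : Fin 8 → Fin 8 → R) (j : Fin 8) :
    ug g β j = ∑ i, g (Pi.single i 1) * β i j := rfl

/-- skew arrays -/
def Sk (R : Type u) [CommRing R] : Submodule R (Fin 8 → Fin 8 → R) where
  carrier := {β | (∀ i, β i i = 0) ∧ ∀ i j, β i j = - β j i}
  add_mem' := by
    rintro β γ ⟨h1, h2⟩ ⟨h3, h4⟩
    refine ⟨fun i => ?_, fun i j => ?_⟩
    · show β i i + γ i i = 0
      rw [h1, h3, add_zero]
    · show β i j + γ i j = -(β j i + γ j i)
      rw [h2, h4]; ring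
  zero_mem' := ⟨fun _ => rfl, fun _ _ => neg_zero.symm⟩
  smul_mem' := by
    rintro r β ⟨h1, h2⟩
    refine ⟨fun i => ?_, fun i j => ?_⟩
    · show r * β i i = 0
      rw [h1, mul_zero]
    · show r * β i j = -(r * β j i)
      rw [h2]; ring

/-- skew arrays are free -/
def skEquiv (R : Type u) [CommRing R] :
    Sk R ≃ₗ[R] ({p : Fin 8 × Fin 8 // p.1 < p.2} → R) where
  toFun β p := β.1 p.1.1 p.1.2
  map_add' _ _ := rfl
  map_smul' _ _ := rfl
  invFun x := ⟨fun i j => if h : i < j then x ⟨(i, j), h⟩ else if h : j < i then - x ⟨(j, i), h⟩ else 0,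
    fun i => by simp, fun i j => by
      rcases lt_trichotomy i j with h | h | h
      · simp [h, not_lt.2 h.le]
      · subst h; simp
      · simp [h, not_lt.2 h.le]⟩
  left_inv := by
    rintro ⟨β, h1, h2⟩
    apply Subtype.ext
    funext i j
    show (if h : i < j then β i j else if h : j < i then - β j i else 0) = β i j
    rcases lt_trichotomy i j with h | h | h
    · rw [dif_pos h]
    · subst h; rw [dif_neg (lt_irrefl i), dif_neg (lt_irrefl i), h1]
    · rw [dif_neg (not_lt.2 h.le), dif_pos h, ← h2]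
  right_inv := by
    intro x
    funext ⟨⟨i, j⟩, h⟩
    exact dif_pos h

instance free_sk : Module.Free R (Sk R) := Module.Free.of_equiv (skEquiv R).symm

instance finite_sk : Module.Finite R (Sk R) := Module.Finite.equiv (skEquiv R).symm

/-! ### Contractions -/

/-- contraction of `ν` as a function of the vector -/
def ct (ν : Al R 6) : (Fin 8 → R) →ₗ[R] Al R 5 := ν.curryLeft

theorem ct_apply (ν : Al R 6) (u : Fin 8 → R) : ct ν u = contr u 5 ν := rfl

theorem contr_sum {n : ℕ} (u : Fin 8 → R) (ω : Al R (n + 1)) :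
    contr u n ω = ∑ i, u i • contr (Pi.single i 1) n ω := by
  have h1 : u = ∑ i, u i • (Pi.single i 1 : Fin 8 → R) := by
    funext j
    rw [Finset.sum_apply, Finset.sum_eq_single j]
    · simp
    · intro i _ hi
      simp [hi.symm]
    · intro h; exact absurd (Finset.mem_univ _) h
  show ω.curryLeft u = ∑ i, u i • ω.curryLeft (Pi.single i 1)
  conv_lhs => rw [h1]
  rw [map_sum]
  exact Finset.sum_congr rfl fun i _ => map_smul _ _ _

theorem contr_contr_self {n : ℕ} (u : Fin 8 → R) (ω : Al R (n + 2)) :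
    contr u n (contr u (n + 1) ω) = 0 := by
  ext v
  rw [contr_apply, contr_apply, AlternatingMap.zero_apply]
  refine ω.map_eq_zero_of_eq _ (i := 0) (j := 1) ?_ (by simp)
  rfl

theorem contr_contr_anti {n : ℕ} (u v : Fin 8 → R) (ω : Al R (n + 2)) :
    contr v n (contr u (n + 1) ω) = - contr u n (contr v (n + 1) ω) := by
  have h := contr_contr_self (u + v) ω
  have hadd : ∀ (m : ℕ) (x y : Fin 8 → R) (τ : Al R (m + 1)),
      contr (x + y) m τ = contr x m τ + contr y m τ := by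
    intro m x y τ
    show τ.curryLeft (x + y) = τ.curryLeft x + τ.curryLeft y
    rw [map_add]
  rw [hadd, hadd, map_add, map_add, contr_contr_self, contr_contr_self, zero_add, add_zero,
    add_comm] at h
  exact eq_neg_of_add_eq_zero_left h

theorem c2_self (ν : Al R 6) (i : Fin 8) : c2 ν i i = 0 := contr_contr_self _ _

theorem c2_anti (ν : Al R 6) (i j : Fin 8) : c2 ν j i = - c2 ν i j := contr_contr_anti _ _ _

/-- `u ∧ m` -/
def wed (u : Fin 8 → R) : (Fin 8 → R) →ₗ[R] Sk R where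
  toFun m := ⟨fun i j => u i * m j - u j * m i, fun i => by ring, fun i j => by ring⟩
  map_add' m m' := by
    apply Subtype.ext
    funext i j
    show u i * (m j + m' j) - u j * (m i + m' i) = u i * m j - u j * m i + (u i * m' j - u j * m' i)
    ring
  map_smul' r m := by
    apply Subtype.ext
    funext i j
    show u i * (r * m j) - u j * (r * m i) = r * (u i * m j - u j * m i)
    ring

theorem wed_apply (u m : Fin 8 → R) (i j : Fin 8) :
    (wed u m).1 i j = u i * m j - u j * m i := rfl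

theorem bc_wed (ν : Al R 6) (u m : Fin 8 → R) :
    bc ν (wed u m).1 = contr m 4 (contr u 5 ν) := by
  have h1 : contr m 4 (contr u 5 ν) = ∑ i, ∑ j, (u i * m j) • c2 ν i j := by
    rw [contr_sum u ν, map_sum]
    refine Finset.sum_congr rfl fun i _ => ?_
    rw [map_smul, contr_sum m, Finset.smul_sum]
    refine Finset.sum_congr rfl fun j _ => ?_
    rw [mul_smul]
    rfl
  rw [h1, sum_pairs _ (fun i => by rw [c2_self, smul_zero]), bc_apply]
  refine Finset.sum_congr rfl fun i _ => Finset.sum_congr rfl fun j _ => ?_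
  split_ifs
  · rw [wed_apply, c2_anti ν i j]
    module
  · rfl

theorem ct_ug (g : (Fin 8 → R) →ₗ[R] R) (ν : Al R 6) (β : Sk R) :
    ct ν (ug g β.1) = ∑ i, ∑ j, if i < j then β.1 i j •
      (g (Pi.single i 1) • contr (Pi.single j 1) 5 ν - g (Pi.single j 1) • contr (Pi.single i 1) 5 ν)
        else 0 := by
  rw [ct_apply, contr_sum]
  have h1 : ∑ j, ug g β.1 j • contr (Pi.single j 1) 5 ν =
      ∑ i, ∑ j, (g (Pi.single i 1) * β.1 i j) • contr (Pi.single j 1) 5 ν := by
    rw [Finset.sum_comm]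
    refine Finset.sum_congr rfl fun j _ => ?_
    rw [ug_apply, Finset.sum_smul]
  rw [h1, sum_pairs _ (fun i => by rw [β.2.1 i, mul_zero, zero_smul])]
  refine Finset.sum_congr rfl fun i _ => Finset.sum_congr rfl fun j _ => ?_
  split_ifs
  · rw [β.2.2 j i]
    module
  · rfl

theorem wedge_bc (g : (Fin 8 → R) →ₗ[R] R) {ν : Al R 6} (hν0 : wedge g 6 ν = 0) (β : Sk R) :
    wedge g 4 (bc ν β.1) = - ct ν (ug g β.1) := by
  have h1 : ∀ u, wedge g 5 (contr u 5 ν) = g u • ν := by
    intro u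
    have := contr_wedge g u 5 ν
    rw [hν0, map_zero] at this
    exact (sub_eq_zero.1 this.symm).symm
  have h2 : ∀ i j, wedge g 4 (c2 ν i j) = g (Pi.single j 1) • contr (Pi.single i 1) 5 ν -
      g (Pi.single i 1) • contr (Pi.single j 1) 5 ν := by
    intro i j
    have h3 := contr_wedge g (Pi.single j 1) 4 (contr (Pi.single i 1) 5 ν)
    rw [h1, map_smul] at h3
    unfold c2
    rw [h3, sub_sub_cancel]
  rw [ct_ug, bc_apply, map_sum, ← Finset.sum_neg_distrib]
  refine Finset.sum_congr rfl fun i _ => ?_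
  rw [map_sum, ← Finset.sum_neg_distrib]
  refine Finset.sum_congr rfl fun j _ => ?_
  split_ifs
  · rw [map_smul, h2]
    module
  · rw [map_zero, neg_zero]

theorem g_ug (g : (Fin 8 → R) →ₗ[R] R) (β : Sk R) : g (ug g β.1) = 0 := by
  have h0 : ∀ u : Fin 8 → R, g u = ∑ j, u j * g (Pi.single j 1) := by
    intro u
    have h1 : u = ∑ i, u i • (Pi.single i 1 : Fin 8 → R) := by
      funext j
      rw [Finset.sum_apply, Finset.sum_eq_single j]
      · simp
      · intro i _ hi
        simp [hi.symm]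
      · intro h; exact absurd (Finset.mem_univ _) h
    conv_lhs => rw [h1]
    rw [map_sum]
    exact Finset.sum_congr rfl fun i _ => by rw [map_smul, smul_eq_mul]
  rw [h0]
  have h1 : ∑ j, ug g β.1 j * g (Pi.single j 1) =
      ∑ i, ∑ j, (g (Pi.single i 1) * β.1 i j) * g (Pi.single j 1) := by
    rw [Finset.sum_comm]
    refine Finset.sum_congr rfl fun j _ => ?_
    rw [ug_apply, Finset.sum_mul]
  rw [h1, sum_pairs _ (fun i => by rw [β.2.1 i, mul_zero, zero_mul])]
  refine Finset.sum_eq_zero fun i _ => Finset.sum_eq_zero fun j _ => ?_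
  split_ifs
  · rw [β.2.2 j i]; ring
  · rfl

/-! ### The complex -/

/-- `D0` -/
def D0 (g : (Fin 8 → R) →ₗ[R] R) (ν : Al R 6) :
    (Sk R × Al R 3) →ₗ[R] ((Fin 8 → R) × Al R 4) :=
  LinearMap.prod (ug g ∘ₗ (Sk R).subtype ∘ₗ LinearMap.fst R _ _)
    (wedge g 3 ∘ₗ LinearMap.snd R _ _ - bc ν ∘ₗ (Sk R).subtype ∘ₗ LinearMap.fst R _ _)

theorem D0_apply (g : (Fin 8 → R) →ₗ[R] R) (ν : Al R 6) (c : Sk R × Al R 3) :
    D0 g ν c = (ug g c.1.1, wedge g 3 c.2 - bc ν c.1.1) := rfl

/-- `D1` -/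
def D1 (g : (Fin 8 → R) →ₗ[R] R) (ν : Al R 6) :
    ((Fin 8 → R) × Al R 4) →ₗ[R] (R × Al R 5) :=
  LinearMap.prod (g ∘ₗ LinearMap.fst R _ _)
    (wedge g 4 ∘ₗ LinearMap.snd R _ _ - ct ν ∘ₗ LinearMap.fst R _ _)

theorem D1_apply (g : (Fin 8 → R) →ₗ[R] R) (ν : Al R 6) (c : (Fin 8 → R) × Al R 4) :
    D1 g ν c = (g c.1, wedge g 4 c.2 - ct ν c.1) := rfl

/-- `D2` -/
def D2 (g : (Fin 8 → R) →ₗ[R] R) (ν : Al R 6) : (R × Al R 5) →ₗ[R] Al R 6 :=
  wedge g 5 ∘ₗ LinearMap.snd R _ _ + (LinearMap.toSpanSingleton R _ ν) ∘ₗ LinearMap.fst R _ _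

theorem D2_apply (g : (Fin 8 → R) →ₗ[R] R) (ν : Al R 6) (c : R × Al R 5) :
    D2 g ν c = wedge g 5 c.2 + c.1 • ν := rfl

theorem wedge_ct (g : (Fin 8 → R) →ₗ[R] R) {ν : Al R 6} (hν0 : wedge g 6 ν = 0)
    (u : Fin 8 → R) : wedge g 5 (ct ν u) = g u • ν := by
  have := contr_wedge g u 5 ν
  rw [hν0, map_zero] at this
  exact (sub_eq_zero.1 this.symm).symm

theorem D1_D0 (g : (Fin 8 → R) →ₗ[R] R) {ν : Al R 6} (hν0 : wedge g 6 ν = 0)
    (c : Sk R × Al R 3) : D1 g ν (D0 g ν c) = 0 := by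
  rw [D0_apply, D1_apply]
  refine Prod.ext ?_ ?_
  · exact g_ug g c.1
  · show wedge g 4 (wedge g 3 c.2 - bc ν c.1.1) - ct ν (ug g c.1.1) = 0
    rw [map_sub, wedge_wedge_self, wedge_bc g hν0, zero_sub, neg_neg, sub_self]

theorem D2_D1 (g : (Fin 8 → R) →ₗ[R] R) {ν : Al R 6} (hν0 : wedge g 6 ν = 0)
    (c : (Fin 8 → R) × Al R 4) : D2 g ν (D1 g ν c) = 0 := by
  rw [D1_apply, D2_apply, map_sub, wedge_wedge_self, wedge_ct g hν0, zero_sub, neg_add_cancel]

theorem D3_D2 (g : (Fin 8 → R) →ₗ[R] R) {ν : Al R 6} (hν0 : wedge g 6 ν = 0)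
    (c : R × Al R 5) : wedge g 6 (D2 g ν c) = 0 := by
  rw [D2_apply, map_add, wedge_wedge_self, map_smul, hν0, smul_zero, add_zero]

/-- the homotopies -/
theorem homotopy (g : (Fin 8 → R) →ₗ[R] R) {ν : Al R 6} (u : Fin 8 → R) :
    ∃ (s1 : ((Fin 8 → R) × Al R 4) →ₗ[R] (Sk R × Al R 3))
      (s2 : (R × Al R 5) →ₗ[R] ((Fin 8 → R) × Al R 4)),
      ∀ c, D0 g ν (s1 c) + s2 (D1 g ν c) = g u • c := by
  refine ⟨LinearMap.prodMap (wed u) (contr u 3),
    LinearMap.prodMap (LinearMap.toSpanSingleton R _ u) (contr u 4), ?_⟩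
  rintro ⟨m, z⟩
  have h0 : ug g (wed u m).1 = g u • m - g m • u := by
    have hg : ∀ u : Fin 8 → R, ∑ i, g (Pi.single i 1) * u i = g u := by
      intro u
      have h1 : u = ∑ i, u i • (Pi.single i 1 : Fin 8 → R) := by
        funext j
        rw [Finset.sum_apply, Finset.sum_eq_single j]
        · simp
        · intro i _ hi
          simp [hi.symm]
        · intro h; exact absurd (Finset.mem_univ _) h
      conv_rhs => rw [h1]
      rw [map_sum]
      exact Finset.sum_congr rfl fun i _ => by rw [map_smul, smul_eq_mul, mul_comm]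
    funext j
    rw [ug_apply]
    show ∑ i, g (Pi.single i 1) * (u i * m j - u j * m i) = g u * m j - g m * u j
    rw [← hg u, ← hg m, Finset.sum_mul, Finset.sum_mul, ← Finset.sum_sub_distrib]
    exact Finset.sum_congr rfl fun i _ => by ring
  refine Prod.ext ?_ ?_
  · show ug g (wed u m).1 + g m • u = g u • m
    rw [h0, sub_add_cancel]
  · show wedge g 3 (contr u 3 z) - bc ν (wed u m).1 + contr u 4 (wedge g 4 z - ct ν m) = g u • z
    rw [bc_wed, map_sub, contr_wedge, ct_apply, contr_contr_anti m u ν]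
    abel

/-! ### Exactness -/

theorem exact_C2 (hG : Gor g a w) (hν0 : wedge g 6 ν = 0)
    (hνa : ν a - w ∈ Ideal.span (Set.range fun i => g (a i))) (c : R × Al R 5)
    (hc : D2 g ν c = 0) : ∃ c', D1 g ν c' = c := by
  obtain ⟨r, z⟩ := c
  rw [D2_apply] at hc
  have h1 : r • ν = wedge g 5 (-z) := by
    rw [map_neg]
    exact eq_neg_of_add_eq_zero_right hc
  obtain ⟨u, rfl⟩ := exact_six hG hνa h1
  have h2 : wedge g 5 (z + ct ν u) = 0 := by
    rw [map_add, wedge_ct g hν0]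
    exact hc
  obtain ⟨z', hz'⟩ := isCob_of_lt g 6 a hG.reg 5 (by norm_num) _ h2
  refine ⟨(u, z'), ?_⟩
  rw [D1_apply]
  refine Prod.ext rfl ?_
  show wedge g 4 z' - ct ν u = z
  rw [hz', add_sub_cancel_right]

theorem exact_C3 (hG : Gor g a w) (hν0 : wedge g 6 ν = 0)
    (hνa : ν a - w ∈ Ideal.span (Set.range fun i => g (a i))) (c : Al R 6)
    (hc : wedge g 6 c = 0) : ∃ c', D2 g ν c' = c := by
  obtain ⟨r, η, rfl⟩ := closed_six hG hν0 hνa hc
  exact ⟨(r, η), by rw [D2_apply, add_comm]⟩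

theorem mem_ofFn (hG : Gor g a w) :
    ∀ r ∈ List.ofFn (fun i => g (a i)), ∃ x, g x = r := by
  intro r hr
  obtain ⟨i, rfl⟩ := (List.mem_ofFn' _ _).1 hr
  exact ⟨_, rfl⟩

theorem reg_zero (hG : Gor g a w) : IsSMulRegular R (g (a 0)) := by
  have h := hG.reg
  rw [List.ofFn_succ, isWeaklyRegular_cons_iff] at h
  exact h.1

theorem dual_x3 (hG : Gor g a w) (φ : Al R 6 →ₗ[R] R) (hφ : φ ∘ₗ D2 g ν = 0) :
    ∃ ψ : Al R 7 →ₗ[R] R, φ = ψ ∘ₗ wedge g 6 := by
  refine koszul_dual_exact g _ hG.reg (mem_ofFn hG) 5 (by simp) φ ?_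
  ext z
  have h := LinearMap.congr_fun hφ (0, z)
  rw [LinearMap.comp_apply, D2_apply, zero_smul, add_zero] at h
  exact h

theorem dual_x2 (hG : Gor g a w) (hν0 : wedge g 6 ν = 0) (φ : (R × Al R 5) →ₗ[R] R)
    (hφ : φ ∘ₗ D1 g ν = 0) : ∃ ψ : Al R 6 →ₗ[R] R, φ = ψ ∘ₗ D2 g ν := by
  obtain ⟨ψ, hψ⟩ := koszul_dual_exact g _ hG.reg (mem_ofFn hG) 4 (by simp)
    (φ ∘ₗ LinearMap.inr R R (Al R 5)) (by
      ext z
      have h := LinearMap.congr_fun hφ (0, z)
      rw [LinearMap.comp_apply, D1_apply, map_zero, map_zero, sub_zero] at h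
      exact h)
  have hψ' : ∀ z, φ (0, z) = ψ (wedge g 5 z) := fun z => LinearMap.congr_fun hψ z
  have h1 : φ (1, 0) = ψ ν := by
    have h2 := LinearMap.congr_fun hφ (a 0, 0)
    rw [LinearMap.comp_apply, D1_apply, map_zero, zero_sub] at h2
    have h3 : ((g (a 0), - ct ν (a 0)) : R × Al R 5) =
        g (a 0) • ((1, 0) : R × Al R 5) - (0, ct ν (a 0)) := by
      refine Prod.ext ?_ ?_
      · show g (a 0) = g (a 0) * 1 - 0
        ring
      · show - ct ν (a 0) = g (a 0) • (0 : Al R 5) - ct ν (a 0)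
        rw [smul_zero, zero_sub]
    have h4 : φ (g (a 0), - ct ν (a 0)) = 0 := h2
    rw [h3, map_sub, map_smul, hψ', wedge_ct g hν0, map_smul, ← smul_sub] at h4
    have h5 := reg_zero hG (show g (a 0) • (φ (1, 0) - ψ ν) = g (a 0) • (0 : R) by
      rw [h4, smul_zero])
    exact sub_eq_zero.1 h5
  refine ⟨ψ, ?_⟩
  apply LinearMap.ext
  rintro ⟨r, z⟩
  have h2 : ((r, z) : R × Al R 5) = r • ((1, 0) : R × Al R 5) + (0, z) := by
    refine Prod.ext ?_ ?_
    · show r = r * 1 + 0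
      ring
    · show z = r • (0 : Al R 5) + z
      rw [smul_zero, zero_add]
  rw [LinearMap.comp_apply, D2_apply, h2, map_add, map_smul, h1, hψ', map_add, map_smul, ← h2,
    add_comm]

theorem dual_x1 (hG : Gor g a w) (hν0 : wedge g 6 ν = 0) (φ : ((Fin 8 → R) × Al R 4) →ₗ[R] R)
    (hφ : φ ∘ₗ D0 g ν = 0) : ∃ ψ : (R × Al R 5) →ₗ[R] R, φ = ψ ∘ₗ D1 g ν := by
  obtain ⟨ψ, hψ⟩ := koszul_dual_exact g _ hG.reg (mem_ofFn hG) 3 (by simp)
    (φ ∘ₗ LinearMap.inr R (Fin 8 → R) (Al R 4)) (by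
      ext z
      have h := LinearMap.congr_fun hφ (0, z)
      rw [LinearMap.comp_apply, D0_apply] at h
      have h2 : ((ug g ((0 : Sk R) : Fin 8 → Fin 8 → R), wedge g 3 z -
          bc ν ((0 : Sk R) : Fin 8 → Fin 8 → R)) : (Fin 8 → R) × Al R 4) = (0, wedge g 3 z) := by
        rw [Submodule.coe_zero, map_zero, map_zero, sub_zero]
      have h3 : φ (0, wedge g 3 z) = 0 := by
        rw [← h2]; exact h
      exact h3)
  have hψ' : ∀ z, φ (0, z) = ψ (wedge g 4 z) := fun z => LinearMap.congr_fun hψ z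
  let μ : (Fin 8 → R) →ₗ[R] R := φ ∘ₗ LinearMap.inl R (Fin 8 → R) (Al R 4) + ψ ∘ₗ ct ν
  have hμ : ∀ u, μ u = φ (u, 0) + ψ (ct ν u) := fun u => rfl
  have hsplit : ∀ (u : Fin 8 → R) (z : Al R 4), φ (u, z) = φ (u, 0) + φ (0, z) := by
    intro u z
    rw [← map_add]
    congr 1
    refine Prod.ext ?_ ?_
    · show u = u + 0
      rw [add_zero]
    · show z = 0 + z
      rw [zero_add]
  have h1 : ∀ β : Sk R, μ (ug g β.1) = 0 := by
    intro β
    have h2 := LinearMap.congr_fun hφ (β, 0)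
    rw [LinearMap.comp_apply, D0_apply] at h2
    have h3 : φ (ug g β.1, wedge g 3 0 - bc ν β.1) = 0 := h2
    rw [map_zero, zero_sub, hsplit, hψ', map_neg, wedge_bc g hν0, neg_neg] at h3
    exact h3
  have h2 : ∀ u m, μ m * g u = μ u * g m := by
    intro u m
    have h3 := h1 (wed u m)
    have h4 : ug g (wed u m).1 = g u • m - g m • u := by
      have hg : ∀ u : Fin 8 → R, ∑ i, g (Pi.single i 1) * u i = g u := by
        intro u
        have h1 : u = ∑ i, u i • (Pi.single i 1 : Fin 8 → R) := by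
          funext j
          rw [Finset.sum_apply, Finset.sum_eq_single j]
          · simp
          · intro i _ hi
            simp [hi.symm]
          · intro h; exact absurd (Finset.mem_univ _) h
        conv_rhs => rw [h1]
        rw [map_sum]
        exact Finset.sum_congr rfl fun i _ => by rw [map_smul, smul_eq_mul, mul_comm]
      funext j
      rw [ug_apply]
      show ∑ i, g (Pi.single i 1) * (u i * m j - u j * m i) = g u * m j - g m * u j
      rw [← hg u, ← hg m, Finset.sum_mul, Finset.sum_mul, ← Finset.sum_sub_distrib]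
      exact Finset.sum_congr rfl fun i _ => by ring
    rw [h4, map_sub, map_smul, map_smul, smul_eq_mul, smul_eq_mul] at h3
    linear_combination h3
  obtain ⟨c, hc⟩ : ∃ c : R, ∀ u, μ u = c * g u := by
    let μ' : Al R 1 := AlternatingMap.ofSubsingleton R (Fin 8 → R) R (0 : Fin 1) μ
    have h3 : wedge g 1 μ' = 0 := by
      ext v
      rw [wedge_apply, Fin.sum_univ_two]
      have h4 : μ' ((0 : Fin 2).removeNth v) = μ (v 1) := rfl
      have h5 : μ' ((1 : Fin 2).removeNth v) = μ (v 0) := rfl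
      rw [h4, h5]
      simp only [Fin.val_zero, pow_zero, one_smul, Fin.val_one, pow_one, smul_eq_mul, neg_smul,
        AlternatingMap.zero_apply]
      have := h2 (v 0) (v 1)
      linear_combination this
    obtain ⟨η, hη⟩ := isCob_of_lt g 6 a hG.reg 1 (by norm_num) μ' h3
    refine ⟨η (fun i => i.elim0), fun u => ?_⟩
    have h4 := congrArg (fun f => f (fun _ => u)) hη
    have h5 : wedge g 0 η (fun _ => u) = μ u := h4
    rw [← h5, wedge_apply]
    simp only [Fin.sum_univ_succ, Finset.univ_eq_empty, Finset.sum_empty, Fin.val_zero, pow_zero,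
      one_smul, smul_eq_mul, add_zero]
    rw [mul_comm]
    congr 2
    funext i
    exact i.elim0
  refine ⟨LinearMap.coprod (LinearMap.toSpanSingleton R R c) ψ, ?_⟩
  apply LinearMap.ext
  rintro ⟨u, z⟩
  rw [LinearMap.comp_apply, D1_apply, LinearMap.coprod_apply, hsplit, hψ']
  show φ (u, 0) + ψ (wedge g 4 z) = g u * c + ψ (wedge g 4 z - ct ν u)
  have h3 := hc u
  rw [hμ] at h3
  rw [map_sub]
  linear_combination h3

/-- `H23` for the dual of the kernel of `D0` -/
theorem H23_dual_D0 [IsLocalRing R] [IsNoetherianRing R] (hd : Depth6 R)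
    (hI : ∃ k, ∀ y ∈ maximalIdeal R ^ k, ∃ v, g v = y) (hG : Gor g a w)
    (hν0 : wedge g 6 ν = 0) (hνa : ν a - w ∈ Ideal.span (Set.range fun i => g (a i))) :
    H23 R (Module.Dual R (LinearMap.ker (D0 g ν))) := by
  obtain ⟨k, hk⟩ := hI
  refine H23_dual_ker3 hd (D0 g ν) (D1 g ν) (D2 g ν) (wedge g 6) (D1_D0 g hν0) (D2_D1 g hν0)
    (D3_D2 g hν0) (exact_C2 hG hν0 hνa) (exact_C3 hG hν0 hνa) (dual_x1 hG hν0) (dual_x2 hG hν0)
    (dual_x3 hG) k ?_
  intro y hy
  obtain ⟨u, rfl⟩ := hk y hy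
  exact homotopy g u

end

end Pool.Agent.Licci.XE
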