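import Pool.Agent.Work.MP_a98e4e_ag.XE.Dual
import Pool.Agent.Work.MP_a98e4e_ag.Acyclic
import Pool.Agent.Work.MP_a98e4e_ag.RegPi

/-!
# LICCI, codimension 6 (XE): the dual of the kernel at the beginning of a finite free complex

A complex `C0 -> .. -> C5` of finite free modules, contractible in degrees `>= 1` up to the elements of
an ideal `J` containing a power of the maximal ideal, and exact at `C2` and `C3`. Then
`Ext ^ 2 (Dual V, R) = Ext ^ 3 (Dual V, R) = 0`, where `V` is the kernel of `C0 -> C1`.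
-/

namespace Pool.Agent.Licci.XE

open RingTheory.Sequence

universe u

variable {R : Type u} [CommRing R]

section six

/-- The modules of a six term complex, extended by zero. -/
def fam6 (R : Type u) [CommRing R] (M1 M2 M3 M4 M5 M6 : ModuleCat.{u} R) : ℕ → ModuleCat.{u} R
  | 1 => M1
  | 2 => M2
  | 3 => M3
  | 4 => M4
  | 5 => M5
  | 6 => M6
  | _ => ModuleCat.of R PUnit

/-- The differentials of a six term complex, extended by zero. -/
def famd6 (R : Type u) [CommRing R] (M1 M2 M3 M4 M5 M6 : ModuleCat.{u} R)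
    (f1 : M1 →ₗ[R] M2) (f2 : M2 →ₗ[R] M3) (f3 : M3 →ₗ[R] M4) (f4 : M4 →ₗ[R] M5)
    (f5 : M5 →ₗ[R] M6) :
    ∀ i, (fam6 R M1 M2 M3 M4 M5 M6 i) →ₗ[R] (fam6 R M1 M2 M3 M4 M5 M6 (i + 1))
  | 0 => 0
  | 1 => f1
  | 2 => f2
  | 3 => f3
  | 4 => f4
  | 5 => f5
  | _ + 6 => 0

/-- Acyclicity lemma for six explicit modules, and a list of length five which is weakly regular on all of
them and whose elements kill the cohomology at the first five. -/
theorem acyclic6 {M1 M2 M3 M4 M5 M6 : Type u} [AddCommGroup M1] [Module R M1] [AddCommGroup M2]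
    [Module R M2] [AddCommGroup M3] [Module R M3] [AddCommGroup M4] [Module R M4]
    [AddCommGroup M5] [Module R M5] [AddCommGroup M6] [Module R M6]
    (f1 : M1 →ₗ[R] M2) (f2 : M2 →ₗ[R] M3) (f3 : M3 →ₗ[R] M4)
    (f4 : M4 →ₗ[R] M5) (f5 : M5 →ₗ[R] M6) (h12 : ∀ x, f2 (f1 x) = 0) (h23 : ∀ x, f3 (f2 x) = 0)
    (h34 : ∀ x, f4 (f3 x) = 0) (h45 : ∀ x, f5 (f4 x) = 0) (rs : List R) (hlen : rs.length = 5)
    (r1 : IsWeaklyRegular M1 rs) (r2 : IsWeaklyRegular M2 rs) (r3 : IsWeaklyRegular M3 rs)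
    (r4 : IsWeaklyRegular M4 rs) (r5 : IsWeaklyRegular M5 rs) (r6 : IsWeaklyRegular M6 rs)
    (k1 : ∀ r ∈ rs, ∀ z, f1 z = 0 → r • z = 0)
    (k2 : ∀ r ∈ rs, ∀ z, f2 z = 0 → ∃ y, f1 y = r • z)
    (k3 : ∀ r ∈ rs, ∀ z, f3 z = 0 → ∃ y, f2 y = r • z)
    (k4 : ∀ r ∈ rs, ∀ z, f4 z = 0 → ∃ y, f3 y = r • z)
    (k5 : ∀ r ∈ rs, ∀ z, f5 z = 0 → ∃ y, f4 y = r • z) :
    Function.Injective f1 ∧ Function.Exact f1 f2 ∧ Function.Exact f2 f3 ∧
      Function.Exact f3 f4 ∧ Function.Exact f4 f5 := by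
  let A1 := ModuleCat.of R M1
  let A2 := ModuleCat.of R M2
  let A3 := ModuleCat.of R M3
  let A4 := ModuleCat.of R M4
  let A5 := ModuleCat.of R M5
  let A6 := ModuleCat.of R M6
  let g1 : A1 →ₗ[R] A2 := f1
  let g2 : A2 →ₗ[R] A3 := f2
  let g3 : A3 →ₗ[R] A4 := f3
  let g4 : A4 →ₗ[R] A5 := f4
  let g5 : A5 →ₗ[R] A6 := f5
  have hpu : IsWeaklyRegular (PUnit.{u + 1}) rs := by
    constructor
    intro i hi
    intro x y _
    exact Subsingleton.elim _ _
  have key := LicciCodimFour.acyclic rs (fun i => fam6 R A1 A2 A3 A4 A5 A6 i)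
    (famd6 R A1 A2 A3 A4 A5 A6 g1 g2 g3 g4 g5)
    (fun i => match i with
      | 0 => fun x => map_zero g1
      | 1 => fun x => h12 x
      | 2 => fun x => h23 x
      | 3 => fun x => h34 x
      | 4 => fun x => h45 x
      | 5 => fun _ => rfl
      | _ + 6 => fun _ => rfl)
    (by show Subsingleton PUnit; infer_instance)
    (fun i => match i with
      | 0 => hpu
      | 1 => r1
      | 2 => r2
      | 3 => r3
      | 4 => r4
      | 5 => r5
      | 6 => r6
      | _ + 7 => hpu)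
    (fun r hr i hi => match i, hi with
      | 0, _ => fun z hz => ⟨1, 0, by
          have h := k1 r hr z hz
          rw [pow_one]
          exact (map_zero _).trans h.symm⟩
      | 1, _ => fun z hz => by
          obtain ⟨y, hy⟩ := k2 r hr z hz
          exact ⟨1, y, by rw [pow_one]; exact hy⟩
      | 2, _ => fun z hz => by
          obtain ⟨y, hy⟩ := k3 r hr z hz
          exact ⟨1, y, by rw [pow_one]; exact hy⟩
      | 3, _ => fun z hz => by
          obtain ⟨y, hy⟩ := k4 r hr z hz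
          exact ⟨1, y, by rw [pow_one]; exact hy⟩
      | 4, _ => fun z hz => by
          obtain ⟨y, hy⟩ := k5 r hr z hz
          exact ⟨1, y, by rw [pow_one]; exact hy⟩
      | _ + 5, h => absurd h (by omega))
  have e0 := key 0 (by omega)
  have e1 := key 1 (by omega)
  have e2 := key 2 (by omega)
  have e3 := key 3 (by omega)
  have e4 := key 4 (by omega)
  refine ⟨?_, ?_, ?_, ?_, ?_⟩
  · rw [injective_iff_map_eq_zero]
    intro z hz
    obtain ⟨y, hy⟩ := e0 z hz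
    rw [← hy]
    rfl
  · intro z
    exact ⟨fun hz => e1 z hz, by rintro ⟨y, rfl⟩; exact h12 y⟩
  · intro z
    exact ⟨fun hz => e2 z hz, by rintro ⟨y, rfl⟩; exact h23 y⟩
  · intro z
    exact ⟨fun hz => e3 z hz, by rintro ⟨y, rfl⟩; exact h34 y⟩
  · intro z
    exact ⟨fun hz => e4 z hz, by rintro ⟨y, rfl⟩; exact h45 y⟩

end six

/-- the dual of a finite module over a noetherian ring is finite -/
theorem finite_dual [IsNoetherianRing R] (V : Type u) [AddCommGroup V] [Module R V]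
    [Module.Finite R V] : Module.Finite R (Module.Dual R V) := by
  obtain ⟨n, g, hg⟩ := Module.Finite.exists_fin' R V
  refine Module.Finite.of_injective g.dualMap ?_
  exact LinearMap.dualMap_injective_of_surjective hg

section main

variable {C0 C1 C2 C3 C4 C5 : Type u} [AddCommGroup C0] [Module R C0] [AddCommGroup C1] [Module R C1]
  [AddCommGroup C2] [Module R C2] [AddCommGroup C3] [Module R C3] [AddCommGroup C4] [Module R C4]
  [AddCommGroup C5] [Module R C5]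
  [Module.Free R C0] [Module.Finite R C0] [Module.Free R C1] [Module.Finite R C1]
  [Module.Free R C2] [Module.Finite R C2] [Module.Free R C3] [Module.Finite R C3]
  [Module.Free R C4] [Module.Finite R C4] [Module.Free R C5] [Module.Finite R C5]
  (D0 : C0 →ₗ[R] C1) (D1 : C1 →ₗ[R] C2) (D2 : C2 →ₗ[R] C3) (D3 : C3 →ₗ[R] C4) (D4 : C4 →ₗ[R] C5)

/-- exactness of the dual complex -/
theorem dual_exact (d10 : ∀ x, D1 (D0 x) = 0) (d21 : ∀ x, D2 (D1 x) = 0)
    (d32 : ∀ x, D3 (D2 x) = 0) (d43 : ∀ x, D4 (D3 x) = 0) (J : Ideal R)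
    (rs : List R) (hlen : rs.length = 5) (hrs : ∀ r ∈ rs, r ∈ J) (hreg : IsWeaklyRegular R rs)
    (hs : ∀ a ∈ J, ∃ (s0 : C1 →ₗ[R] C0) (s1 : C2 →ₗ[R] C1) (s2 : C3 →ₗ[R] C2) (s3 : C4 →ₗ[R] C3)
      (s4 : C5 →ₗ[R] C4), (∀ x, D0 (s0 x) + s1 (D1 x) = a • x) ∧
        (∀ x, D1 (s1 x) + s2 (D2 x) = a • x) ∧ (∀ x, D2 (s2 x) + s3 (D3 x) = a • x) ∧
        (∀ x, D3 (s3 x) + s4 (D4 x) = a • x) ∧ (∀ x, D4 (s4 x) = a • x)) :
    Function.Exact D3.dualMap D2.dualMap ∧ Function.Exact D2.dualMap D1.dualMap ∧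
      Function.Exact D1.dualMap D0.dualMap := by
  have key := acyclic6 D4.dualMap D3.dualMap D2.dualMap D1.dualMap D0.dualMap
    (fun φ => by ext x; simp [LinearMap.dualMap_apply, d43])
    (fun φ => by ext x; simp [LinearMap.dualMap_apply, d32])
    (fun φ => by ext x; simp [LinearMap.dualMap_apply, d21])
    (fun φ => by ext x; simp [LinearMap.dualMap_apply, d10]) rs hlen
    (isWeaklyRegular_free hreg) (isWeaklyRegular_free hreg) (isWeaklyRegular_free hreg)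
    (isWeaklyRegular_free hreg) (isWeaklyRegular_free hreg) (isWeaklyRegular_free hreg)
    ?_ ?_ ?_ ?_ ?_
  · exact ⟨key.2.2.1, key.2.2.2.1, key.2.2.2.2⟩
  · intro a ha φ hφ
    obtain ⟨s0, s1, s2, s3, s4, h1, h2, h3, h4, h5⟩ := hs a (hrs a ha)
    ext x
    have e : φ (D4 (s4 x)) = 0 := LinearMap.congr_fun hφ (s4 x)
    rw [h5, map_smul] at e
    exact e
  · intro a ha φ hφ
    obtain ⟨s0, s1, s2, s3, s4, h1, h2, h3, h4, h5⟩ := hs a (hrs a ha)
    refine ⟨φ ∘ₗ s4, ?_⟩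
    ext x
    have e : φ (D3 (s3 x)) = 0 := LinearMap.congr_fun hφ (s3 x)
    have e2 := congrArg φ (h4 x)
    rw [map_add, e, zero_add, map_smul] at e2
    exact e2
  · intro a ha φ hφ
    obtain ⟨s0, s1, s2, s3, s4, h1, h2, h3, h4, h5⟩ := hs a (hrs a ha)
    refine ⟨φ ∘ₗ s3, ?_⟩
    ext x
    have e : φ (D2 (s2 x)) = 0 := LinearMap.congr_fun hφ (s2 x)
    have e2 := congrArg φ (h3 x)
    rw [map_add, e, zero_add, map_smul] at e2
    exact e2
  · intro a ha φ hφ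
    obtain ⟨s0, s1, s2, s3, s4, h1, h2, h3, h4, h5⟩ := hs a (hrs a ha)
    refine ⟨φ ∘ₗ s2, ?_⟩
    ext x
    have e : φ (D1 (s1 x)) = 0 := LinearMap.congr_fun hφ (s1 x)
    have e2 := congrArg φ (h2 x)
    rw [map_add, e, zero_add, map_smul] at e2
    exact e2
  · intro a ha φ hφ
    obtain ⟨s0, s1, s2, s3, s4, h1, h2, h3, h4, h5⟩ := hs a (hrs a ha)
    refine ⟨φ ∘ₗ s1, ?_⟩
    ext x
    have e : φ (D0 (s0 x)) = 0 := LinearMap.congr_fun hφ (s0 x)
    have e2 := congrArg φ (h1 x)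
    rw [map_add, e, zero_add, map_smul] at e2
    exact e2

/-- an element annihilated by all linear forms is zero -/
theorem eq_zero_of_dual {C : Type u} [AddCommGroup C] [Module R C] [Module.Free R C] {x : C}
    (h : ∀ φ : Module.Dual R C, φ x = 0) : x = 0 :=
  (Module.forall_dual_apply_eq_zero_iff R x).1 h

/-- the module `N'` -/
theorem H23_coker (d10 : ∀ x, D1 (D0 x) = 0) (d21 : ∀ x, D2 (D1 x) = 0)
    (d32 : ∀ x, D3 (D2 x) = 0) (d43 : ∀ x, D4 (D3 x) = 0) (J : Ideal R)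
    (rs : List R) (hlen : rs.length = 5) (hrs : ∀ r ∈ rs, r ∈ J) (hreg : IsWeaklyRegular R rs)
    (hs : ∀ a ∈ J, ∃ (s0 : C1 →ₗ[R] C0) (s1 : C2 →ₗ[R] C1) (s2 : C3 →ₗ[R] C2) (s3 : C4 →ₗ[R] C3)
      (s4 : C5 →ₗ[R] C4), (∀ x, D0 (s0 x) + s1 (D1 x) = a • x) ∧
        (∀ x, D1 (s1 x) + s2 (D2 x) = a • x) ∧ (∀ x, D2 (s2 x) + s3 (D3 x) = a • x) ∧
        (∀ x, D3 (s3 x) + s4 (D4 x) = a • x) ∧ (∀ x, D4 (s4 x) = a • x))
    (ex2 : ∀ x, D2 x = 0 → ∃ y, D1 y = x) (ex3 : ∀ x, D3 x = 0 → ∃ y, D2 y = x) :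
    H23 R (Module.Dual R C0 ⧸ LinearMap.range D0.dualMap) := by
  obtain ⟨e3, e2, e1⟩ := dual_exact D0 D1 D2 D3 D4 d10 d21 d32 d43 J rs hlen hrs hreg hs
  have e0 : Function.Exact D0.dualMap (LinearMap.range D0.dualMap).mkQ := by
    rw [LinearMap.exact_iff, Submodule.ker_mkQ]
  rw [H23.dual e3 e2 e1 e0 (Submodule.mkQ_surjective _)]
  constructor
  · intro φ hφ
    obtain ⟨y, rfl⟩ := (Module.evalEquiv R C2).surjective φ
    have hy : D2 y = 0 := by
      refine eq_zero_of_dual (R := R) fun χ => ?_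
      have := LinearMap.congr_fun hφ χ
      exact this
    obtain ⟨y', rfl⟩ := ex2 y hy
    refine ⟨Module.Dual.eval R C1 y', ?_⟩
    ext χ
    rfl
  · intro φ hφ
    obtain ⟨y, rfl⟩ := (Module.evalEquiv R C3).surjective φ
    have hy : D3 y = 0 := by
      refine eq_zero_of_dual (R := R) fun χ => ?_
      have := LinearMap.congr_fun hφ χ
      exact this
    obtain ⟨y', rfl⟩ := ex3 y hy
    refine ⟨Module.Dual.eval R C2 y', ?_⟩
    ext χ
    rfl

/-- the end: the dual of the kernel of `D0` -/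
theorem H23_dual_ker [IsLocalRing R] [IsNoetherianRing R] (hd : Depth6 R)
    (d10 : ∀ x, D1 (D0 x) = 0) (d21 : ∀ x, D2 (D1 x) = 0)
    (d32 : ∀ x, D3 (D2 x) = 0) (d43 : ∀ x, D4 (D3 x) = 0) (J : Ideal R)
    (hJ : ∃ k, IsLocalRing.maximalIdeal R ^ k ≤ J)
    (rs : List R) (hlen : rs.length = 5) (hrs : ∀ r ∈ rs, r ∈ J) (hreg : IsWeaklyRegular R rs)
    (hs : ∀ a ∈ J, ∃ (s0 : C1 →ₗ[R] C0) (s1 : C2 →ₗ[R] C1) (s2 : C3 →ₗ[R] C2) (s3 : C4 →ₗ[R] C3)
      (s4 : C5 →ₗ[R] C4), (∀ x, D0 (s0 x) + s1 (D1 x) = a • x) ∧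
        (∀ x, D1 (s1 x) + s2 (D2 x) = a • x) ∧ (∀ x, D2 (s2 x) + s3 (D3 x) = a • x) ∧
        (∀ x, D3 (s3 x) + s4 (D4 x) = a • x) ∧ (∀ x, D4 (s4 x) = a • x))
    (ex2 : ∀ x, D2 x = 0 → ∃ y, D1 y = x) (ex3 : ∀ x, D3 x = 0 → ∃ y, D2 y = x) :
    H23 R (Module.Dual R (LinearMap.ker D0)) := by
  have hN := H23_coker D0 D1 D2 D3 D4 d10 d21 d32 d43 J rs hlen hrs hreg hs ex2 ex3
  have hfin := finite_dual (R := R) (LinearMap.ker D0)
  obtain ⟨k, hk⟩ := hJ
  -- restriction to the kernel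
  let res : Module.Dual R C0 →ₗ[R] Module.Dual R (LinearMap.ker D0) := (LinearMap.ker D0).subtype.dualMap
  have hres : LinearMap.range D0.dualMap ≤ LinearMap.ker res := by
    rintro _ ⟨χ, rfl⟩
    rw [LinearMap.mem_ker]
    ext x
    have : D0 (x : C0) = 0 := x.2
    show χ (D0 (x : C0)) = 0
    rw [this, map_zero]
  let r : (Module.Dual R C0 ⧸ LinearMap.range D0.dualMap) →ₗ[R] Module.Dual R (LinearMap.ker D0) :=
    (LinearMap.range D0.dualMap).liftQ res hres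
  -- the kernel of `r` is torsion
  have hker : Tors R (LinearMap.ker r) := by
    refine ⟨k, fun a ha x => ?_⟩
    obtain ⟨s0, s1, s2, s3, s4, h1, h2, h3, h4, h5⟩ := hs a (hk ha)
    obtain ⟨x, hx⟩ := x
    obtain ⟨φ, rfl⟩ := Submodule.Quotient.mk_surjective _ x
    refine Subtype.ext ?_
    show a • (Submodule.Quotient.mk φ : Module.Dual R C0 ⧸ LinearMap.range D0.dualMap) = 0
    rw [← Submodule.Quotient.mk_smul, Submodule.Quotient.mk_eq_zero]
    refine ⟨φ ∘ₗ s0, ?_⟩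
    ext y
    show φ (s0 (D0 y)) = a • φ y
    have hy : D0 (a • y - s0 (D0 y)) = 0 := by
      have e := h1 (D0 y)
      rw [d10, map_zero, add_zero] at e
      rw [map_sub, map_smul, e, sub_self]
    have e2 : res φ ⟨a • y - s0 (D0 y), hy⟩ = 0 := by
      have e3 : res φ = 0 := hx
      rw [e3, LinearMap.zero_apply]
    have e4 : φ (a • y - s0 (D0 y)) = 0 := e2
    rw [map_sub, map_smul, sub_eq_zero] at e4
    exact e4.symm
  -- the cokernel of `r` is torsion
  have hcok : Tors R (Module.Dual R (LinearMap.ker D0) ⧸ LinearMap.range r) := by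
    refine ⟨k, fun a ha x => ?_⟩
    obtain ⟨s0, s1, s2, s3, s4, h1, h2, h3, h4, h5⟩ := hs a (hk ha)
    obtain ⟨lam, rfl⟩ := Submodule.Quotient.mk_surjective _ x
    rw [← Submodule.Quotient.mk_smul, Submodule.Quotient.mk_eq_zero]
    have hrho : ∀ y, D0 ((a • (LinearMap.id : C0 →ₗ[R] C0) - s0 ∘ₗ D0) y) = 0 := by
      intro y
      have e := h1 (D0 y)
      rw [d10, map_zero, add_zero] at e
      show D0 (a • y - s0 (D0 y)) = 0
      rw [map_sub, map_smul, e, sub_self]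
    let rho : C0 →ₗ[R] LinearMap.ker D0 := (a • (LinearMap.id : C0 →ₗ[R] C0) - s0 ∘ₗ D0).codRestrict _ hrho
    refine ⟨Submodule.Quotient.mk (lam ∘ₗ rho), ?_⟩
    ext y
    show lam (rho y) = a • lam y
    have e : rho y = a • y := by
      refine Subtype.ext ?_
      show a • (y : C0) - s0 (D0 y) = a • (y : C0)
      have : D0 (y : C0) = 0 := y.2
      rw [this, map_zero, sub_zero]
    rw [e, map_smul]
  -- assembly
  have hA : H23 R ((Module.Dual R C0 ⧸ LinearMap.range D0.dualMap) ⧸ LinearMap.ker r) := by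
    refine (H23.quot hd (f := (LinearMap.ker r).subtype) (g := (LinearMap.ker r).mkQ)
      (Submodule.injective_subtype _) ?_ (Submodule.mkQ_surjective _) hker).1 hN
    rw [LinearMap.exact_iff, Submodule.ker_mkQ, Submodule.range_subtype]
  have hB : H23 R (LinearMap.range r) := H23.congr r.quotKerEquivRange hA
  refine (H23.sub hd (f := (LinearMap.range r).subtype) (g := (LinearMap.range r).mkQ)
    (Submodule.injective_subtype _) ?_ (Submodule.mkQ_surjective _) hcok).1 hB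
  rw [LinearMap.exact_iff, Submodule.ker_mkQ, Submodule.range_subtype]

end main

end Pool.Agent.Licci.XE
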