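import Pool.Agent.Work.MP_a98e4e_ag.XE.Dual

/-!
# LICCI, codimension 6 (XE): `H23` for the dual of the kernel of a complex
-/

namespace Pool.Agent.Licci.XE

open RingTheory.Sequence IsLocalRing

universe u

variable {R : Type u} [CommRing R]

/-- the dual of a finite module over a noetherian ring is finite -/
theorem finite_dualN [IsNoetherianRing R] (N : Type u) [AddCommGroup N] [Module R N]
    [Module.Finite R N] : Module.Finite R (Module.Dual R N) := by
  obtain ⟨n, g, hg⟩ := Module.Finite.exists_fin' R N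
  have hinj : Function.Injective g.dualMap := LinearMap.dualMap_injective_of_surjective hg
  exact Module.Finite.of_injective g.dualMap hinj

/-- the conclusion for the kernel of the first map of a complex of finite free modules -/
theorem H23_dual_ker3 [IsLocalRing R] [IsNoetherianRing R] (hd : Depth6 R)
    {C0 C1 C2 C3 C4 : Type u} [AddCommGroup C0] [Module R C0] [AddCommGroup C1] [Module R C1]
    [AddCommGroup C2] [Module R C2] [AddCommGroup C3] [Module R C3] [AddCommGroup C4] [Module R C4]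
    [Module.Free R C0] [Module.Finite R C0] [Module.Free R C1] [Module.Finite R C1]
    [Module.Free R C2] [Module.Finite R C2] [Module.Free R C3] [Module.Finite R C3]
    [Module.Free R C4] [Module.Finite R C4]
    (D0 : C0 →ₗ[R] C1) (D1 : C1 →ₗ[R] C2) (D2 : C2 →ₗ[R] C3) (D3 : C3 →ₗ[R] C4)
    (h10 : ∀ c, D1 (D0 c) = 0) (h21 : ∀ c, D2 (D1 c) = 0) (h32 : ∀ c, D3 (D2 c) = 0)
    (e2 : ∀ c, D2 c = 0 → ∃ c', D1 c' = c) (e3 : ∀ c, D3 c = 0 → ∃ c', D2 c' = c)
    (x1 : ∀ φ : C1 →ₗ[R] R, φ ∘ₗ D0 = 0 → ∃ ψ : C2 →ₗ[R] R, φ = ψ ∘ₗ D1)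
    (x2 : ∀ φ : C2 →ₗ[R] R, φ ∘ₗ D1 = 0 → ∃ ψ : C3 →ₗ[R] R, φ = ψ ∘ₗ D2)
    (x3 : ∀ φ : C3 →ₗ[R] R, φ ∘ₗ D2 = 0 → ∃ ψ : C4 →ₗ[R] R, φ = ψ ∘ₗ D3)
    (k : ℕ) (hs : ∀ y ∈ maximalIdeal R ^ k, ∃ (s1 : C1 →ₗ[R] C0) (s2 : C2 →ₗ[R] C1),
      ∀ c, D0 (s1 c) + s2 (D1 c) = y • c) :
    H23 R (Module.Dual R (LinearMap.ker D0)) := by
  -- the cokernel of the dual complex
  let N : Type u := Module.Dual R C0 ⧸ LinearMap.range D0.dualMap
  let e : Module.Dual R C0 →ₗ[R] N := (LinearMap.range D0.dualMap).mkQ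
  have he : Function.Surjective e := Submodule.mkQ_surjective _
  have h0 : Function.Exact D0.dualMap e := by
    rw [LinearMap.exact_iff]
    exact Submodule.ker_mkQ _
  have h1 : Function.Exact D1.dualMap D0.dualMap := by
    intro φ
    constructor
    · intro h
      obtain ⟨ψ, hψ⟩ := x1 φ h
      exact ⟨ψ, hψ.symm⟩
    · rintro ⟨ψ, rfl⟩
      ext c
      simp [h10]
  have h2 : Function.Exact D2.dualMap D1.dualMap := by
    intro φ
    constructor
    · intro h
      obtain ⟨ψ, hψ⟩ := x2 φ h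
      exact ⟨ψ, hψ.symm⟩
    · rintro ⟨ψ, rfl⟩
      ext c
      simp [h21]
  have h3 : Function.Exact D3.dualMap D2.dualMap := by
    intro φ
    constructor
    · intro h
      obtain ⟨ψ, hψ⟩ := x3 φ h
      exact ⟨ψ, hψ.symm⟩
    · rintro ⟨ψ, rfl⟩
      ext c
      simp [h32]
  have hN : H23 R N := by
    rw [H23.dual h3 h2 h1 h0 he]
    constructor
    · intro φ hφ
      obtain ⟨c, rfl⟩ := (Module.evalEquiv R C2).surjective φ
      have hc : D2 c = 0 := by
        have h4 : ∀ ψ : Module.Dual R C3, ψ (D2 c) = 0 := fun ψ => LinearMap.congr_fun hφ ψ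
        exact (Module.forall_dual_apply_eq_zero_iff R _).1 h4
      obtain ⟨c', rfl⟩ := e2 c hc
      exact ⟨Module.evalEquiv R C1 c', by ext ψ; rfl⟩
    · intro φ hφ
      obtain ⟨c, rfl⟩ := (Module.evalEquiv R C3).surjective φ
      have hc : D3 c = 0 := by
        have h4 : ∀ ψ : Module.Dual R C4, ψ (D3 c) = 0 := fun ψ => LinearMap.congr_fun hφ ψ
        exact (Module.forall_dual_apply_eq_zero_iff R _).1 h4
      obtain ⟨c', rfl⟩ := e3 c hc
      exact ⟨Module.evalEquiv R C2 c', by ext ψ; rfl⟩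
  -- restriction to the kernel
  let V := LinearMap.ker D0
  have hrr : LinearMap.range D0.dualMap ≤ LinearMap.ker V.subtype.dualMap := by
    rintro _ ⟨φ, rfl⟩
    rw [LinearMap.mem_ker]
    ext v
    show φ (D0 v.1) = 0
    rw [LinearMap.mem_ker.1 v.2, map_zero]
  let r : N →ₗ[R] Module.Dual R V := (LinearMap.range D0.dualMap).liftQ V.subtype.dualMap hrr
  have hr : ∀ φ : Module.Dual R C0, r (e φ) = V.subtype.dualMap φ := fun φ => rfl
  have hfV : Module.Finite R (Module.Dual R V) := finite_dualN V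
  -- the projections
  have hρ : ∀ y ∈ maximalIdeal R ^ k, ∃ (s1 : C1 →ₗ[R] C0) (ρ : C0 →ₗ[R] V),
      (∀ c, (ρ c : C0) + s1 (D0 c) = y • c) ∧ ∀ v : V, ρ v = y • v := by
    intro y hy
    obtain ⟨s1, s2, hss⟩ := hs y hy
    have hmem : ∀ c, (y • LinearMap.id - s1 ∘ₗ D0 : C0 →ₗ[R] C0) c ∈ V := by
      intro c
      rw [LinearMap.mem_ker]
      show D0 (y • c - s1 (D0 c)) = 0
      have h4 := hss (D0 c)
      rw [h10, map_zero, add_zero] at h4
      rw [map_sub, map_smul, h4, sub_self]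
    refine ⟨s1, (y • LinearMap.id - s1 ∘ₗ D0 : C0 →ₗ[R] C0).codRestrict V hmem, ?_, ?_⟩
    · intro c
      show y • c - s1 (D0 c) + s1 (D0 c) = y • c
      rw [sub_add_cancel]
    · intro v
      apply Subtype.ext
      show y • v.1 - s1 (D0 v.1) = y • v.1
      rw [LinearMap.mem_ker.1 v.2, map_zero, sub_zero]
  have hK : Tors R (LinearMap.ker r) := by
    refine ⟨k, fun y hy x => ?_⟩
    obtain ⟨s1, ρ, hρ1, -⟩ := hρ y hy
    obtain ⟨x, hx⟩ := x
    obtain ⟨φ, rfl⟩ := he x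
    apply Subtype.ext
    show y • e φ = 0
    rw [LinearMap.mem_ker, hr] at hx
    have h4 : y • φ = D0.dualMap (φ ∘ₗ s1) := by
      ext c
      have h5 : φ (ρ c : C0) = 0 := LinearMap.congr_fun hx (ρ c)
      show y • φ c = φ (s1 (D0 c))
      rw [← map_smul, ← hρ1 c, map_add, h5, zero_add]
    rw [← map_smul, h4]
    exact (Submodule.Quotient.mk_eq_zero _).2 ⟨_, rfl⟩
  have hC : Tors R (Module.Dual R V ⧸ LinearMap.range r) := by
    refine ⟨k, fun y hy x => ?_⟩
    obtain ⟨s1, ρ, -, hρ2⟩ := hρ y hy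
    obtain ⟨φ, rfl⟩ := Submodule.mkQ_surjective _ x
    rw [← map_smul, Submodule.mkQ_apply, Submodule.Quotient.mk_eq_zero]
    refine ⟨e (φ ∘ₗ ρ), ?_⟩
    rw [hr]
    ext v
    show φ (ρ v) = y • φ v
    rw [hρ2, map_smul]
  have hI : H23 R (LinearMap.range r) := by
    refine (H23.quot hd (f := (LinearMap.ker r).subtype) (g := r.rangeRestrict)
      (Submodule.injective_subtype _) ?_ r.surjective_rangeRestrict hK).1 hN
    intro x
    rw [← Subtype.coe_inj]
    show r x = 0 ↔ _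
    rw [← LinearMap.mem_ker]
    constructor
    · intro h; exact ⟨⟨x, h⟩, rfl⟩
    · rintro ⟨⟨x, h⟩, rfl⟩; exact h
  refine (H23.sub hd (f := (LinearMap.range r).subtype) (g := (LinearMap.range r).mkQ)
      (Submodule.injective_subtype _) ?_ (Submodule.mkQ_surjective _) hC).1 hI
  rw [LinearMap.exact_iff, Submodule.ker_mkQ, Submodule.range_subtype]

end Pool.Agent.Licci.XE
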