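import Pool.Agent.Work.MP_a98e4e_ag.RegPi
import Pool.Agent.Work.MP_a98e4e_ag.XE.Mono

/-!
MP_a98e4e_ag (licci, codimension 6), module XE4 (helper62).

Depth of kernels, maximal Cohen-Macaulay modules over a regular local ring are free, and the
three term complex `E → B → C` attached to a complex `A0 → A1 → A2 → A3 → A4` of free modules
which is exact at `A2` and `A3`.
-/

set_option autoImplicit false

namespace Pool.Agent.Licci.XE

open IsLocalRing RingTheory.Sequence Function

universe u v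

section depth

variable {R : Type u} [CommRing R]

/-- the kernel of a surjection has depth one more than the image, for a fixed sequence -/
theorem ker_regular (rs : List R) (y : R) : ∀ {K A L : Type v} [AddCommGroup K] [Module R K]
    [AddCommGroup A] [Module R A] [AddCommGroup L] [Module R L] (f : K →ₗ[R] A) (g : A →ₗ[R] L),
    Injective f → Exact f g → Surjective g → IsWeaklyRegular L rs →
    IsWeaklyRegular A (rs ++ [y]) → IsWeaklyRegular K (rs ++ [y]) := by
  induction rs with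
  | nil =>
    intro K A L _ _ _ _ _ _ f g hf _ _ _ hA
    rw [List.nil_append, isWeaklyRegular_singleton_iff] at hA ⊢
    exact hA.of_injective f hf
  | cons r rs ih =>
    intro K A L _ _ _ _ _ _ f g hf hfg hg hL hA
    rw [List.cons_append, isWeaklyRegular_cons_iff] at hA ⊢
    rw [isWeaklyRegular_cons_iff] at hL
    refine ⟨hA.1.of_injective f hf, ?_⟩
    have h0 : Exact (0 : PUnit.{v + 1} →ₗ[R] K) f := by
      intro x
      constructor
      · intro hx
        exact ⟨0, by rw [map_zero]; exact (hf (by rw [hx, map_zero])).symm⟩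
      · rintro ⟨z, rfl⟩
        simp
    have h1 := QuotSMulTop.map_first_exact_on_four_term_exact_of_isSMulRegular_last
      (r := r) h0 hfg hL.1
    have hinj : Injective (QuotSMulTop.map r f) := by
      rw [injective_iff_map_eq_zero]
      intro x hx
      obtain ⟨z, rfl⟩ := (h1 x).1 hx
      obtain ⟨z, rfl⟩ := Submodule.Quotient.mk_surjective _ z
      rw [QuotSMulTop.map_apply_mk]
      simp
    exact ih (QuotSMulTop.map r f) (QuotSMulTop.map r g) hinj (QuotSMulTop.map_exact r hfg hg)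
      (QuotSMulTop.map_surjective r hg) hL.2 hA.2

/-- submodule form: `K = ker g`, `g : A → A'`, and `L = range g` -/
theorem ker_regular' (rs : List R) (y : R) {A A' : Type v} [AddCommGroup A] [Module R A]
    [AddCommGroup A'] [Module R A'] (g : A →ₗ[R] A')
    (hL : IsWeaklyRegular (LinearMap.range g) rs) (hA : IsWeaklyRegular A (rs ++ [y])) :
    IsWeaklyRegular (LinearMap.ker g) (rs ++ [y]) := by
  refine ker_regular rs y (LinearMap.ker g).subtype g.rangeRestrict
    (Submodule.injective_subtype _) ?_ g.surjective_rangeRestrict hL hA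
  intro x
  constructor
  · intro hx
    refine ⟨⟨x, ?_⟩, rfl⟩
    rw [LinearMap.mem_ker]
    exact congrArg Subtype.val hx
  · rintro ⟨z, rfl⟩
    exact Subtype.ext z.2

theorem regular_of_linearEquiv {A A' : Type*} [AddCommGroup A] [Module R A]
    [AddCommGroup A'] [Module R A'] (e : A ≃ₗ[R] A') {rs : List R} (h : IsWeaklyRegular A rs) :
    IsWeaklyRegular A' rs := (e.isWeaklyRegular_congr rs).1 h

end depth

section free

/-- a finite module over a local ring on which a sequence generating the maximal ideal is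
regular is free -/
theorem free_of_regular (n : ℕ) : ∀ (R : Type u) [CommRing R] [IsLocalRing R] [IsNoetherianRing R]
    (M : Type v) [AddCommGroup M] [Module R M] [Module.Finite R M] (rs : List R),
    rs.length = n → Ideal.ofList rs = maximalIdeal R → IsWeaklyRegular M rs →
    Module.Free R M := by
  induction n with
  | zero =>
    intro R _ _ _ M _ _ _ rs hlen hrs _
    rw [List.length_eq_zero_iff] at hlen
    subst hlen
    rw [Ideal.ofList_nil] at hrs
    have hf : IsField R := IsLocalRing.isField_iff_maximalIdeal_eq.2 hrs.symm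
    let _ : Field R := hf.toField
    infer_instance
  | succ n ih =>
    intro R _ _ _ M _ _ _ rs hlen hrs hreg
    obtain ⟨r, rs, rfl⟩ := List.exists_cons_of_length_eq_add_one hlen
    rw [isWeaklyRegular_cons_iff] at hreg
    have hr : r ∈ maximalIdeal R := by
      rw [← hrs, Ideal.ofList_cons]
      exact Ideal.mem_sup_left (Ideal.mem_span_singleton_self r)
    have hne : Ideal.span {r} ≠ ⊤ := by
      intro h
      exact (Ideal.ne_top_iff_one _).1 (maximalIdeal.isMaximal R).ne_top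
        ((Ideal.span_singleton_le_iff_mem _).2 hr (h ▸ Submodule.mem_top))
    have : Nontrivial (R ⧸ Ideal.span {r}) := Ideal.Quotient.nontrivial_iff.2 hne
    have : IsLocalRing (R ⧸ Ideal.span {r}) :=
      IsLocalRing.of_surjective' (Ideal.Quotient.mk (Ideal.span {r})) Ideal.Quotient.mk_surjective
    have : Module.Finite (R ⧸ Ideal.span {r}) (QuotSMulTop r M) :=
      Module.Finite.of_restrictScalars_finite R _ _
    have key : Module.Free (R ⧸ Ideal.span {r}) (QuotSMulTop r M) := by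
      refine ih (R ⧸ Ideal.span {r}) (QuotSMulTop r M)
        (rs.map (algebraMap R (R ⧸ Ideal.span {r}))) (by simpa using hlen) ?_ ?_
      · have h1 : maximalIdeal (R ⧸ Ideal.span {r}) =
            (maximalIdeal R).map (Ideal.Quotient.mk (Ideal.span {r})) := by
          refine ((IsLocalRing.eq_maximalIdeal ?_)).symm
          refine (Ideal.map_eq_top_or_isMaximal_of_surjective _ Ideal.Quotient.mk_surjective
            (maximalIdeal.isMaximal R)).resolve_left fun h => ?_
          have h2 := congrArg (Ideal.comap (Ideal.Quotient.mk (Ideal.span {r}))) h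
          rw [Ideal.comap_map_of_surjective _ Ideal.Quotient.mk_surjective, Ideal.comap_top,
            ← RingHom.ker_eq_comap_bot, Ideal.mk_ker, sup_eq_left.2
              ((Ideal.span_singleton_le_iff_mem _).2 hr)] at h2
          exact (maximalIdeal.isMaximal R).ne_top h2
        rw [h1, ← hrs, Ideal.ofList_cons, Ideal.map_sup, Ideal.map_ofList,
          Ideal.map_quotient_self, bot_sup_eq]
        rfl
      · rw [isWeaklyRegular_map_algebraMap_iff]
        exact hreg.2
    have := Module.finitePresentation_of_finite R M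
    exact (Module.free_quotSMulTop_iff_free R M
      (IsLocalRing.maximalIdeal_le_jacobson ⊥ hr) hreg.1).1 key

end free

section monad

variable {R : Type u} [CommRing R] [IsLocalRing R] [IsNoetherianRing R]

omit [IsNoetherianRing R] in
/-- minimal free covers -/
theorem exists_minimal_cover (M : Type v) [AddCommGroup M] [Module R M] [Module.Finite R M] :
    ∃ (n : ℕ) (p : (Fin n → R) →ₗ[R] M), Surjective p ∧
      ∀ x, p x = 0 → ∀ j, x j ∈ maximalIdeal R := by
  classical
  have hex : ∃ n : ℕ, ∃ v : Fin n → M, Submodule.span R (Set.range v) = ⊤ := by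
    obtain ⟨n, v, hv⟩ := Module.Finite.exists_fin (R := R) (M := M)
    exact ⟨n, v, hv⟩
  obtain ⟨n, ⟨v, hv⟩, hmin⟩ : ∃ n : ℕ, (∃ v : Fin n → M, Submodule.span R (Set.range v) = ⊤) ∧
      ∀ m, m < n → ¬ ∃ v : Fin m → M, Submodule.span R (Set.range v) = ⊤ :=
    ⟨Nat.find hex, Nat.find_spec hex, fun m hm => Nat.find_min hex hm⟩
  refine ⟨n, Fintype.linearCombination R v, ?_, ?_⟩
  · rw [← LinearMap.range_eq_top, Fintype.range_linearCombination]
    exact hv
  · intro x hx j
    by_contra hj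
    rw [IsLocalRing.notMem_maximalIdeal] at hj
    obtain ⟨m, rfl⟩ : ∃ m, n = m + 1 := Nat.exists_eq_succ_of_ne_zero (by
      rintro rfl
      exact j.elim0)
    apply hmin m (Nat.lt_succ_self m)
    refine ⟨v ∘ j.succAbove, ?_⟩
    rw [eq_top_iff, ← hv, Submodule.span_le]
    rintro _ ⟨l, rfl⟩
    have hmem : ∀ l, v (j.succAbove l) ∈
        Submodule.span R (Set.range (v ∘ j.succAbove)) := fun l =>
      Submodule.subset_span ⟨l, rfl⟩
    by_cases hl : l = j
    · subst hl
      rw [Fintype.linearCombination_apply, Fin.sum_univ_succAbove _ l] at hx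
      obtain ⟨u, hu⟩ := hj
      have h1 : v l = - ((↑u⁻¹ : R) • ∑ i, x (l.succAbove i) • v (l.succAbove i)) := by
        have h2 : ∑ i, x (l.succAbove i) • v (l.succAbove i) = - (x l • v l) :=
          eq_neg_of_add_eq_zero_right hx
        rw [h2, smul_neg, neg_neg, smul_smul, ← hu, Units.inv_mul, one_smul]
      rw [SetLike.mem_coe, h1]
      exact Submodule.neg_mem _ (Submodule.smul_mem _ _
        (Submodule.sum_mem _ fun i _ => Submodule.smul_mem _ _ (hmem i)))
    · obtain ⟨i, rfl⟩ := Fin.exists_succAbove_eq hl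
      exact hmem i

/-- The three term complex attached to a complex `A0 → A1 → A2 → A3 → A4` of free modules, exact
at `A2` and `A3`. -/
theorem exists_monad {A0 A1 A2 A3 A4 : Type u} [AddCommGroup A0] [Module R A0] [AddCommGroup A1]
    [Module R A1] [AddCommGroup A2] [Module R A2] [AddCommGroup A3] [Module R A3]
    [AddCommGroup A4] [Module R A4] [Module.Finite R A0] [Module.Free R A0] [Module.Finite R A1]
    [Module.Free R A1] [Module.Finite R A2]
    [Module.Free R A2] [Module.Finite R A3] [Module.Free R A3] [Module.Finite R A4]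
    [Module.Free R A4] (δ0 : A0 →ₗ[R] A1) (δ1 : A1 →ₗ[R] A2)
    (δ2 : A2 →ₗ[R] A3) (δ3 : A3 →ₗ[R] A4) (h01 : ∀ x, δ1 (δ0 x) = 0) (h12 : Exact δ1 δ2)
    (h23 : Exact δ2 δ3) (y : Fin 6 → R) (hy : Ideal.ofList (List.ofFn y) = maximalIdeal R)
    (hreg : IsWeaklyRegular R (List.ofFn y)) :
    ∃ (e b c : ℕ) (i : (Fin e → R) →ₗ[R] (Fin b → R)) (d : (Fin b → R) →ₗ[R] (Fin c → R))
      (γ : (Fin b → R) →ₗ[R] A0) (κ : (Fin c → R) →ₗ[R] A1),
      (∀ x j, i x j ∈ maximalIdeal R) ∧ (∀ x j, d x j ∈ maximalIdeal R) ∧ Injective i ∧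
      (∀ x, d x = 0 ∧ γ x = 0 ↔ x ∈ LinearMap.range i) ∧
      (∀ u v, δ0 u = κ v ↔ ∃ x, γ x = u ∧ d x = v) ∧
      (∀ z, δ1 z = 0 ↔ ∃ u v, z = δ0 u + κ v) := by
  classical
  have hl : List.ofFn y = [y 0, y 1, y 2, y 3, y 4] ++ [y 5] := by
    simp [List.ofFn_succ, Fin.succ]
  rw [hl] at hreg hy
  have hreg5 : IsWeaklyRegular R ([y 0, y 1, y 2, y 3] ++ [y 4]) :=
    ((isWeaklyRegular_append_iff R [y 0, y 1, y 2, y 3, y 4] [y 5]).1 hreg).1
  have hreg4 : IsWeaklyRegular R ([y 0, y 1, y 2] ++ [y 3]) :=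
    ((isWeaklyRegular_append_iff R [y 0, y 1, y 2, y 3] [y 4]).1 hreg5).1
  have hreg3 : IsWeaklyRegular R ([y 0, y 1] ++ [y 2]) :=
    ((isWeaklyRegular_append_iff R [y 0, y 1, y 2] [y 3]).1 hreg4).1
  have hreg2 : IsWeaklyRegular R ([y 0] ++ [y 1]) :=
    ((isWeaklyRegular_append_iff R [y 0, y 1] [y 2]).1 hreg3).1
  have hreg1 : IsWeaklyRegular R [y 0] :=
    ((isWeaklyRegular_append_iff R [y 0] [y 1]).1 hreg2).1
  -- the kernels
  have k4 : IsWeaklyRegular (LinearMap.range δ3) [y 0] := by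
    rw [isWeaklyRegular_singleton_iff]
    have := (isWeaklyRegular_singleton_iff A4 (y 0)).1 (isWeaklyRegular_free (M := A4) hreg1)
    exact this.submodule _ _
  have k3 : IsWeaklyRegular (LinearMap.range δ2) ([y 0] ++ [y 1]) := by
    have h := ker_regular' [y 0] (y 1) δ3 k4 (isWeaklyRegular_free hreg2)
    rwa [h23.linearMap_ker_eq] at h
  have k2 : IsWeaklyRegular (LinearMap.range δ1) ([y 0, y 1] ++ [y 2]) := by
    have h := ker_regular' [y 0, y 1] (y 2) δ2 k3 (isWeaklyRegular_free hreg3)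
    rwa [h12.linearMap_ker_eq] at h
  have k1 : IsWeaklyRegular (LinearMap.ker δ1) ([y 0, y 1, y 2] ++ [y 3]) :=
    ker_regular' [y 0, y 1, y 2] (y 3) δ1 k2 (isWeaklyRegular_free hreg4)
  -- the cohomology at `A1`
  let δ0' : A0 →ₗ[R] LinearMap.ker δ1 := δ0.codRestrict _ fun x => h01 x
  obtain ⟨c, q, hq, hqm⟩ := exists_minimal_cover (R := R) ((LinearMap.ker δ1) ⧸ LinearMap.range δ0')
  obtain ⟨κ', hκ'⟩ := Module.projective_lifting_property (LinearMap.range δ0').mkQ q
    (Submodule.mkQ_surjective _)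
  have hκq : ∀ v, (LinearMap.range δ0').mkQ (κ' v) = q v := fun v => by
    rw [← hκ']
    rfl
  let κ : (Fin c → R) →ₗ[R] A1 := (LinearMap.ker δ1).subtype ∘ₗ κ'
  let Φ : (A0 × (Fin c → R)) →ₗ[R] A1 := δ0 ∘ₗ LinearMap.fst R _ _ - κ ∘ₗ LinearMap.snd R _ _
  have hΦ : ∀ p, Φ p = δ0 p.1 - κ p.2 := fun p => rfl
  have hexB : ∀ z, δ1 z = 0 ↔ ∃ u v, z = δ0 u + κ v := by
    intro z
    constructor
    · intro hz
      obtain ⟨v, hv⟩ := hq ((LinearMap.range δ0').mkQ ⟨z, hz⟩)
      have h1 : (⟨z, hz⟩ : LinearMap.ker δ1) - κ' v ∈ LinearMap.range δ0' := by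
        rw [← Submodule.ker_mkQ (LinearMap.range δ0'), LinearMap.mem_ker, map_sub, hκq, hv,
          sub_self]
      obtain ⟨u, hu⟩ := h1
      refine ⟨u, v, ?_⟩
      have h2 := congrArg Subtype.val hu
      have h3 : δ0 u = z - κ v := h2
      rw [h3]
      abel
    · rintro ⟨u, v, rfl⟩
      rw [map_add, h01, zero_add]
      exact (κ' v).2
  have hrange : LinearMap.range Φ = LinearMap.ker δ1 := by
    ext z
    rw [LinearMap.mem_ker, hexB]
    constructor
    · rintro ⟨p, rfl⟩
      exact ⟨p.1, -p.2, by rw [hΦ, map_neg, sub_eq_add_neg]⟩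
    · rintro ⟨u, v, rfl⟩
      exact ⟨(u, -v), by rw [hΦ, map_neg, sub_neg_eq_add]⟩
  have kQ : IsWeaklyRegular (LinearMap.ker Φ) ([y 0, y 1, y 2, y 3] ++ [y 4]) := by
    refine ker_regular' [y 0, y 1, y 2, y 3] (y 4) Φ ?_ (isWeaklyRegular_free hreg5)
    rw [hrange]
    exact k1
  obtain ⟨b, p, hp, hpm⟩ := exists_minimal_cover (R := R) (LinearMap.ker Φ)
  have kE : IsWeaklyRegular (LinearMap.ker p) ([y 0, y 1, y 2, y 3, y 4] ++ [y 5]) := by
    refine ker_regular [y 0, y 1, y 2, y 3, y 4] (y 5) (LinearMap.ker p).subtype p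
      (Submodule.injective_subtype _) ?_ hp kQ (isWeaklyRegular_free hreg)
    rw [LinearMap.exact_iff, Submodule.range_subtype]
  have hfree : Module.Free R (LinearMap.ker p) :=
    free_of_regular 6 R (LinearMap.ker p) _ (by simp) hy kE
  let bE := Module.finBasis R (LinearMap.ker p)
  let E : LinearMap.ker p ≃ₗ[R] (Fin (Module.finrank R (LinearMap.ker p)) → R) := bE.equivFun
  let i : (Fin (Module.finrank R (LinearMap.ker p)) → R) →ₗ[R] (Fin b → R) :=
    (LinearMap.ker p).subtype ∘ₗ E.symm.toLinearMap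
  have hi : ∀ x, x ∈ LinearMap.range i ↔ p x = 0 := by
    intro x
    constructor
    · rintro ⟨z, rfl⟩
      exact (E.symm z).2
    · intro hx
      refine ⟨E ⟨x, hx⟩, ?_⟩
      simp [i]
  refine ⟨_, b, c, i, LinearMap.snd R _ _ ∘ₗ (LinearMap.ker Φ).subtype ∘ₗ p,
    LinearMap.fst R _ _ ∘ₗ (LinearMap.ker Φ).subtype ∘ₗ p, κ, ?_, ?_, ?_, ?_, ?_, hexB⟩
  · intro x j
    exact hpm _ (E.symm x).2 j
  · intro x j
    refine hqm _ ?_ j
    have h1 : Φ (p x) = 0 := (p x).2
    rw [hΦ, sub_eq_zero] at h1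
    change q ((p x : A0 × (Fin c → R)).2) = 0
    rw [← hκq, Submodule.mkQ_apply, Submodule.Quotient.mk_eq_zero]
    exact ⟨(p x : A0 × (Fin c → R)).1, Subtype.ext h1⟩
  · exact (Submodule.injective_subtype _).comp E.symm.injective
  · intro x
    rw [hi]
    constructor
    · rintro ⟨h1, h2⟩
      exact Subtype.ext (Prod.ext h2 h1)
    · intro h
      have h1 : (p x : A0 × (Fin c → R)) = 0 := congrArg Subtype.val h
      exact ⟨congrArg Prod.snd h1, congrArg Prod.fst h1⟩
  · intro u v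
    constructor
    · intro h
      obtain ⟨x, hx⟩ := hp ⟨(u, v), by rw [LinearMap.mem_ker, hΦ, h, sub_self]⟩
      have h1 : (p x : A0 × (Fin c → R)) = (u, v) := congrArg Subtype.val hx
      exact ⟨x, congrArg Prod.fst h1, congrArg Prod.snd h1⟩
    · rintro ⟨x, rfl, rfl⟩
      have h1 : Φ (p x) = 0 := (p x).2
      rw [hΦ, sub_eq_zero] at h1
      exact h1

end monad

section mono

variable (R : Type u) [CommRing R] [IsLocalRing R]

variable {R}
variable {N P0 P1 P2 : Type u} [AddCommGroup N] [Module R N] [AddCommGroup P0]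
  [Module R P0] [AddCommGroup P1] [Module R P1] [AddCommGroup P2] [Module R P2]

/-- The minimal three term complex `R ^ e → R ^ n → R ^ b` of a module `N` with presentation
`P2 → P1 → P0 → N → 0`: its cohomology is `0`, `N^*`, `Ext ^ 1 (N, R)`. -/
structure MonoData (d2 : P2 →ₗ[R] P1) (d1 : P1 →ₗ[R] P0) (π : P0 →ₗ[R] N) where
  /-- rank in degree `-1` -/
  e : ℕ
  /-- rank in degree `0` -/
  n : ℕ
  /-- rank in degree `1` -/
  b : ℕ
  /-- differential from degree `-1` -/
  dm : (Fin e → R) →ₗ[R] (Fin n → R)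
  /-- differential from degree `0` -/
  d0 : (Fin n → R) →ₗ[R] (Fin b → R)
  /-- map to the dual of `P0` -/
  gam : (Fin n → R) →ₗ[R] (P0 →ₗ[R] R)
  /-- cocycles of `P1^*` -/
  psi : (Fin b → R) →ₗ[R] (P1 →ₗ[R] R)
  dm_mem : ∀ x j, dm x j ∈ maximalIdeal R
  d0_mem : ∀ x j, d0 x j ∈ maximalIdeal R
  inj : Injective dm
  ker_iff : ∀ x, d0 x = 0 ∧ gam x = 0 ↔ x ∈ LinearMap.range dm
  eq_iff : ∀ u v, u ∘ₗ d1 = psi v ↔ ∃ x, gam x = u ∧ d0 x = v
  cocycle_iff : ∀ φ : P1 →ₗ[R] R, φ ∘ₗ d2 = 0 ↔ ∃ u v, φ = u ∘ₗ d1 + psi v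
  split : ∀ y ∈ maximalIdeal R, ∃ (k : ℕ) (s : (Fin b → R) →ₗ[R] (Fin n → R))
    (r : (Fin n → R) →ₗ[R] (Fin e → R)), (∀ v, d0 (s v) = y ^ k • v) ∧ ∀ x, r (dm x) = y ^ k • x

namespace MonoData

variable {d2 : P2 →ₗ[R] P1} {d1 : P1 →ₗ[R] P0} {π : P0 →ₗ[R] N} (M : MonoData d2 d1 π)

theorem gam_comp (x : Fin M.n → R) : (M.gam x) ∘ₗ d1 = M.psi (M.d0 x) :=
  (M.eq_iff _ _).2 ⟨x, rfl, rfl⟩

theorem psi_comp (v : Fin M.b → R) : (M.psi v) ∘ₗ d2 = 0 :=
  (M.cocycle_iff _).2 ⟨0, v, by rw [LinearMap.zero_comp, zero_add]⟩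

theorem d0_dm (x : Fin M.e → R) : M.d0 (M.dm x) = 0 := ((M.ker_iff _).2 ⟨x, rfl⟩).1

theorem gam_dm (x : Fin M.e → R) : M.gam (M.dm x) = 0 := ((M.ker_iff _).2 ⟨x, rfl⟩).2

/-- `psi v` is a coboundary iff `v` is in the image of `d0` -/
theorem psi_cob (v : Fin M.b → R) : (∃ u : P0 →ₗ[R] R, M.psi v = u ∘ₗ d1) ↔ ∃ x, M.d0 x = v := by
  constructor
  · rintro ⟨u, hu⟩
    obtain ⟨x, -, hx⟩ := (M.eq_iff u v).1 hu.symm
    exact ⟨x, hx⟩
  · rintro ⟨x, rfl⟩
    exact ⟨M.gam x, (M.gam_comp x).symm⟩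

/-- the identification of the cohomology in degree zero with `N^*` -/
theorem exists_lam (hπ : Surjective π) (h0 : Exact d1 π) :
    ∃ lam : LinearMap.ker M.d0 →ₗ[R] (N →ₗ[R] R),
      (∀ x p, lam x (π p) = M.gam x p) ∧ Surjective lam ∧
        ∀ x, lam x = 0 ↔ (x : Fin M.n → R) ∈ LinearMap.range M.dm := by
  have hker : LinearMap.range d1 = LinearMap.ker π := h0.linearMap_ker_eq.symm
  -- functionals on `P0` vanishing on the kernel
  let q : (P0 ⧸ LinearMap.ker π) ≃ₗ[R] N := LinearMap.quotKerEquivOfSurjective π hπ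
  let lift : (LinearMap.ker M.d0) →ₗ[R] (N →ₗ[R] R) :=
    { toFun := fun x => ((LinearMap.ker π).liftQ (M.gam x) (by
        rw [← hker]
        rintro _ ⟨z, rfl⟩
        have h1 := M.gam_comp (x : Fin M.n → R)
        have h2 : M.d0 (x : Fin M.n → R) = 0 := x.2
        rw [h2, map_zero] at h1
        exact LinearMap.congr_fun h1 z)) ∘ₗ q.symm.toLinearMap
      map_add' := by
        intro x x'
        apply LinearMap.ext
        intro z
        obtain ⟨p, rfl⟩ := q.surjective z
        obtain ⟨p, rfl⟩ := Submodule.Quotient.mk_surjective _ p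
        simp
      map_smul' := by
        intro r x
        apply LinearMap.ext
        intro z
        obtain ⟨p, rfl⟩ := q.surjective z
        obtain ⟨p, rfl⟩ := Submodule.Quotient.mk_surjective _ p
        simp }
  have hlift : ∀ x p, lift x (π p) = M.gam x p := by
    intro x p
    have h1 : π p = q (Submodule.Quotient.mk p) := rfl
    rw [h1]
    simp [lift]
  refine ⟨lift, hlift, ?_, ?_⟩
  · intro φ
    obtain ⟨x, hx1, hx2⟩ := (M.eq_iff (φ ∘ₗ π) 0).1 (by
      rw [map_zero]
      apply LinearMap.ext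
      intro z
      simp [h0.apply_apply_eq_zero z])
    refine ⟨⟨x, hx2⟩, ?_⟩
    apply LinearMap.ext
    intro z
    obtain ⟨p, rfl⟩ := hπ z
    rw [hlift]
    exact LinearMap.congr_fun hx1 p
  · intro x
    rw [← M.ker_iff]
    constructor
    · intro h
      refine ⟨x.2, ?_⟩
      apply LinearMap.ext
      intro p
      rw [← hlift, h]
      rfl
    · rintro ⟨-, h⟩
      apply LinearMap.ext
      intro z
      obtain ⟨p, rfl⟩ := hπ z
      rw [hlift, h]
      rfl

end MonoData

variable [IsNoetherianRing R] {P3 P4 : Type u} [AddCommGroup P3] [Module R P3] [AddCommGroup P4]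
  [Module R P4]

/-- **(XE4)** Existence of the minimal three term complex of a module with
`Ext ^ 2 (N, R) = Ext ^ 3 (N, R) = 0` over a regular local ring of dimension six. -/
theorem exists_monoData [Module.Finite R P0] [Module.Free R P0] [Module.Finite R P1]
    [Module.Free R P1] [Module.Finite R P2] [Module.Free R P2] [Module.Finite R P3]
    [Module.Free R P3] [Module.Finite R P4] [Module.Free R P4]
    (d4 : P4 →ₗ[R] P3) (d3 : P3 →ₗ[R] P2) (d2 : P2 →ₗ[R] P1) (d1 : P1 →ₗ[R] P0) (π : P0 →ₗ[R] N)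
    (hπ : Surjective π) (h0 : Exact d1 π) (h1 : Exact d2 d1) (h2 : Exact d3 d2) (h3 : Exact d4 d3)
    (e2 : ∀ φ : P2 →ₗ[R] R, φ ∘ₗ d3 = 0 → ∃ ψ : P1 →ₗ[R] R, φ = ψ ∘ₗ d2)
    (e3 : ∀ φ : P3 →ₗ[R] R, φ ∘ₗ d4 = 0 → ∃ ψ : P2 →ₗ[R] R, φ = ψ ∘ₗ d3) (hN : UP R N)
    (y : Fin 6 → R) (hy : Ideal.ofList (List.ofFn y) = maximalIdeal R)
    (hreg : IsWeaklyRegular R (List.ofFn y)) : Nonempty (MonoData d2 d1 π) := by
  classical
  have hdual : ∀ {A B : Type u} [AddCommGroup A] [Module R A] [AddCommGroup B] [Module R B]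
      (f : A →ₗ[R] B) (φ : B →ₗ[R] R), LinearMap.lcomp R R f φ = φ ∘ₗ f := fun f φ => rfl
  obtain ⟨e, n, b, dm, d0, gam, psi, hdm, hd0, hinj, hker, heq, hcoc⟩ := exists_monad
    (LinearMap.lcomp R R d1) (LinearMap.lcomp R R d2) (LinearMap.lcomp R R d3)
    (LinearMap.lcomp R R d4)
    (by
      intro φ
      apply LinearMap.ext
      intro z
      simp [h1.apply_apply_eq_zero z])
    (by
      intro φ
      constructor
      · intro h
        obtain ⟨ψ, hψ⟩ := e2 φ h
        exact ⟨ψ, hψ.symm⟩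
      · rintro ⟨ψ, rfl⟩
        apply LinearMap.ext
        intro z
        simp [h2.apply_apply_eq_zero z])
    (by
      intro φ
      constructor
      · intro h
        obtain ⟨ψ, hψ⟩ := e3 φ h
        exact ⟨ψ, hψ.symm⟩
      · rintro ⟨ψ, rfl⟩
        apply LinearMap.ext
        intro z
        simp [h3.apply_apply_eq_zero z])
    y hy hreg
  refine ⟨⟨e, n, b, dm, d0, gam, psi, hdm, hd0, hinj, hker, heq, hcoc, ?_⟩⟩
  intro t ht
  obtain ⟨k, s, al, be, hab⟩ := hN t ht
  -- lift `be` to `P0`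
  obtain ⟨be', hbe'⟩ := Module.projective_lifting_property π be hπ
  have hbe : ∀ v, π (be' v) = be v := fun v => by rw [← hbe']; rfl
  -- `t ^ k - be' al π` has values in the range of `d1`
  obtain ⟨h, hh⟩ : ∃ h : P0 →ₗ[R] P1, ∀ p, d1 (h p) = t ^ k • p - be' (al (π p)) := by
    let g : P0 →ₗ[R] LinearMap.ker π :=
      (t ^ k • (LinearMap.id : P0 →ₗ[R] P0) - be' ∘ₗ al ∘ₗ π).codRestrict _ (by
        intro p
        rw [LinearMap.mem_ker]
        simp only [LinearMap.sub_apply, LinearMap.smul_apply, LinearMap.id_apply,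
          LinearMap.comp_apply, map_sub, map_smul, hbe, hab, sub_self])
    let d1' : P1 →ₗ[R] LinearMap.ker π := d1.codRestrict _ fun z => h0.apply_apply_eq_zero z
    have hd1' : Surjective d1' := by
      rintro ⟨p, hp⟩
      obtain ⟨z, hz⟩ := (h0 p).1 hp
      exact ⟨z, Subtype.ext hz⟩
    obtain ⟨h, hh⟩ := Module.projective_lifting_property d1' g hd1'
    exact ⟨h, fun p => congrArg Subtype.val (LinearMap.congr_fun hh p)⟩
  -- cocycles of `P1^*` are killed by `t ^ k` modulo coboundaries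
  have hkill : ∀ v, (psi v ∘ₗ h) ∘ₗ d1 = psi (t ^ k • v) := by
    intro v
    have hpv : psi v ∘ₗ d2 = 0 := (hcoc _).2 ⟨0, v, by
      apply LinearMap.ext
      intro z
      simp⟩
    apply LinearMap.ext
    intro z
    have h4 : d1 (h (d1 z) - t ^ k • z) = 0 := by
      rw [map_sub, hh, map_smul, h0.apply_apply_eq_zero z, map_zero, map_zero, sub_zero, sub_self]
    obtain ⟨w, hw⟩ := (h1 _).1 h4
    have h5 : psi v (h (d1 z) - t ^ k • z) = 0 := by
      rw [← hw]
      exact LinearMap.congr_fun hpv w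
    rw [map_sub, map_smul, sub_eq_zero] at h5
    rw [map_smul]
    exact h5
  -- the section over degree one
  let Q : Submodule R ((P0 →ₗ[R] R) × (Fin b → R)) :=
    LinearMap.range (gam.prod d0)
  have hQ : ∀ u v, (u, v) ∈ Q ↔ u ∘ₗ d1 = psi v := by
    intro u v
    rw [← hdual, heq]
    constructor
    · rintro ⟨x, hx⟩
      exact ⟨x, congrArg Prod.fst hx, congrArg Prod.snd hx⟩
    · rintro ⟨x, h1, h2⟩
      exact ⟨x, Prod.ext h1 h2⟩
  have hlift : ∀ {A : Type u} [AddCommGroup A] [Module R A] [Module.Free R A]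
      (g : A →ₗ[R] ((P0 →ₗ[R] R) × (Fin b → R))), (∀ x, g x ∈ Q) →
      ∃ g' : A →ₗ[R] (Fin n → R), ∀ x, (gam.prod d0) (g' x) = g x := by
    intro A _ _ _ g hg
    obtain ⟨g', hg'⟩ := Module.projective_lifting_property (gam.prod d0).rangeRestrict
      (g.codRestrict Q hg) (LinearMap.surjective_rangeRestrict _)
    exact ⟨g', fun x => congrArg Subtype.val (LinearMap.congr_fun hg' x)⟩
  obtain ⟨s1, hs1⟩ := hlift (A := Fin b → R)
    (((LinearMap.lcomp R R h) ∘ₗ psi).prod (t ^ k • LinearMap.id)) (by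
      intro v
      rw [LinearMap.prod_apply]
      exact (hQ _ _).2 (hkill v))
  obtain ⟨tau, htau⟩ := hlift (A := (Fin s → R) →ₗ[R] R)
    ((LinearMap.lcomp R R (al ∘ₗ π)).prod 0) (by
      intro η
      rw [LinearMap.prod_apply]
      refine (hQ _ _).2 ?_
      rw [LinearMap.zero_apply, map_zero]
      apply LinearMap.ext
      intro z
      simp [h0.apply_apply_eq_zero z])
  -- `σ`
  let σ : ((P0 →ₗ[R] R) × (Fin b → R)) →ₗ[R] (Fin n → R) :=
    t ^ k • (s1 ∘ₗ LinearMap.snd R _ _) + tau ∘ₗ (LinearMap.lcomp R R be') ∘ₗ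
      (t ^ k • LinearMap.fst R _ _ - (LinearMap.lcomp R R h) ∘ₗ psi ∘ₗ LinearMap.snd R _ _)
  have hσ : ∀ q ∈ Q, (gam.prod d0) (σ q) = t ^ (k + k) • q := by
    rintro ⟨u, v⟩ hq
    have hq' := (hQ u v).1 hq
    have h6 : σ (u, v) = t ^ k • s1 v + tau ((t ^ k • u - psi v ∘ₗ h) ∘ₗ be') := rfl
    rw [h6, map_add, map_smul, hs1, htau]
    apply Prod.ext
    · apply LinearMap.ext
      intro p
      have h7 : ((t ^ k • u - psi v ∘ₗ h) ∘ₗ be') (al (π p)) =
          t ^ k * ((t ^ k • u - psi v ∘ₗ h) p) := by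
        have h8 : be' (al (π p)) = t ^ k • p - d1 (h p) := by
          rw [hh]
          abel
        have h9 : (t ^ k • u - psi v ∘ₗ h) (d1 (h p)) = 0 := by
          have h10 := LinearMap.congr_fun (hkill v) (h p)
          have h11 := LinearMap.congr_fun hq' (h p)
          simp only [LinearMap.comp_apply, map_smul, LinearMap.smul_apply] at h10 h11
          simp only [LinearMap.sub_apply, LinearMap.smul_apply, LinearMap.comp_apply]
          rw [h10, h11, sub_self]
        rw [LinearMap.comp_apply, h8, map_sub, h9, sub_zero, map_smul, smul_eq_mul]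
      simp only [LinearMap.prod_apply, Prod.fst_add, Prod.smul_fst, LinearMap.add_apply,
        LinearMap.smul_apply]
      change t ^ k • (psi v (h p)) + ((t ^ k • u - psi v ∘ₗ h) ∘ₗ be') (al (π p)) =
        t ^ (k + k) • u p
      rw [h7]
      simp only [LinearMap.sub_apply, LinearMap.smul_apply, LinearMap.comp_apply, smul_eq_mul]
      rw [pow_add]
      ring
    · simp only [LinearMap.prod_apply, Prod.snd_add, Prod.smul_snd]
      change t ^ k • (t ^ k • v) + (0 : Fin b → R) = t ^ (k + k) • v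
      rw [add_zero, smul_smul, pow_add]
  refine ⟨k + k, t ^ k • s1, ?_⟩
  -- the retraction
  obtain ⟨r, hr⟩ : ∃ r : (Fin n → R) →ₗ[R] (Fin e → R),
      ∀ x, dm (r x) = t ^ (k + k) • x - σ ((gam.prod d0) x) := by
    let E := LinearEquiv.ofInjective dm hinj
    let g : (Fin n → R) →ₗ[R] LinearMap.range dm :=
      (t ^ (k + k) • (LinearMap.id : (Fin n → R) →ₗ[R] (Fin n → R)) -
        σ ∘ₗ (gam.prod d0)).codRestrict _ (by
        intro x
        rw [← hker]
        have h6 : (gam.prod d0) (t ^ (k + k) • x - σ ((gam.prod d0) x)) = 0 := by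
          rw [map_sub, map_smul, hσ _ ⟨x, rfl⟩, sub_self]
        exact ⟨congrArg Prod.snd h6, congrArg Prod.fst h6⟩)
    refine ⟨E.symm.toLinearMap ∘ₗ g, fun x => ?_⟩
    have h6 : E (E.symm (g x)) = g x := E.apply_symm_apply _
    exact congrArg Subtype.val h6
  refine ⟨r, ?_, ?_⟩
  · intro v
    have h6 : d0 (s1 v) = t ^ k • v := congrArg Prod.snd (hs1 v)
    rw [LinearMap.smul_apply, map_smul, h6, smul_smul, pow_add]
  · intro x
    apply hinj
    rw [hr, map_smul]
    have h6 := (hker (dm x)).2 ⟨x, rfl⟩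
    have h7 : (gam.prod d0) (dm x) = 0 := Prod.ext h6.2 h6.1
    rw [h7, map_zero, sub_zero]

end mono

end Pool.Agent.Licci.XE
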