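import Pool.Agent.Work.MP_a98e4e_ag.E.KForm
import Pool.Agent.Work.MP_a98e4e_ag.XE.ConeAlg
import Pool.Agent.Work.MP_a98e4e_ag.XE.PhiDefs

/-!
# LICCI, codimension 6 (XE): `Φ (p)` and `Φ (p) / R p` are projective off the closed point
-/

set_option autoImplicit false

namespace Pool.Agent.Licci.XE

open scoped BigOperators
open IsLocalRing

universe u

variable {R : Type u} [CommRing R] {p : E8 R}

/-- the properties of `e_8` and of an extremal element -/
theorem coneDatQ [Algebra ℚ R] (hp : Cone p) : ConeDat (brL (A := R)) (kfL (A := R)) p where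
  skew := br_skew
  self := br_self
  jac := jacobi
  inv := kf_inv
  sym := kf_symm
  two := by
    intro x y h
    have h1 := congrArg (fun z => algebraMap ℚ R (1 / 2) • z) h
    simp only [smul_smul] at h1
    have h2 : algebraMap ℚ R (1 / 2) * 2 = 1 := by
      have h3 : (2 : R) = algebraMap ℚ R 2 := (map_ofNat _ 2).symm
      rw [h3, ← map_mul]
      norm_num
    rwa [h2, one_smul, one_smul] at h1
  cone := hp

theorem mem_Phi_iff {y : E8 R} : y ∈ Phi p ↔
    br p y = 0 ∧ ∀ w, br p (br y w) = -(kf p w • y) - kf y w • p := Iff.rfl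

theorem p_mem_Phi [Algebra ℚ R] (hp : Cone p) : p ∈ Phi p :=
  ⟨br_self p, fun w => (coneDatQ hp).self_lin w⟩

theorem br_mem_Phi [Algebra ℚ R] (hp : Cone p) {z : E8 R} (hz : kf p z = 0) : br p z ∈ Phi p := by
  refine ⟨?_, fun w => (coneDatQ hp).lin z hz w⟩
  rw [hp z, hz, mul_zero, neg_zero, zero_smul]

theorem Phi_recover {y : E8 R} (hy : y ∈ Phi p) (w : E8 R) :
    kf p w • y = br p (br w y) - kf y w • p := by
  rw [br_skew w y, br_neg_right, hy.2]
  abel

theorem Phi_sat [IsDomain R] {c : R} (hc : c ≠ 0) {y : E8 R} (h : c • y ∈ Phi p) : y ∈ Phi p := by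
  constructor
  · have h1 := h.1
    rw [br_smul_right] at h1
    exact (smul_eq_zero.1 h1).resolve_left hc
  · intro w
    have h1 := h.2 w
    rw [br_smul_left, br_smul_right, kf_smul_left] at h1
    have h2 : c • br p (br y w) = c • (-(kf p w • y) - kf y w • p) := by
      rw [h1, smul_sub, smul_neg, smul_smul, smul_smul, smul_smul, mul_comm]
    exact smul_right_injective _ hc h2

/-- `(p, [w, y]) = 0` on `Φ` -/
theorem kf_br_Phi {y : E8 R} (hy : y ∈ Phi p) (w : E8 R) : kf p (br w y) = 0 := by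
  rw [← kf_inv, kf_br_left, kf_symm, hy.1]
  simpa using kf_smul_left (0 : R) 0 w

/-- the linear map `z ↦ [p, f z - (p, z) w]`, where `f = (p, w)` -/
noncomputable def bz (p w : E8 R) : E8 R →ₗ[R] E8 R :=
  brL p ∘ₗ (kf p w • LinearMap.id - (LinearMap.toSpanSingleton R (E8 R) w) ∘ₗ kfL p)

theorem bz_apply (p w z : E8 R) : bz p w z = br p (kf p w • z - kf p z • w) := by
  simp only [bz, LinearMap.comp_apply, LinearMap.sub_apply, LinearMap.smul_apply,
    LinearMap.id_apply, LinearMap.toSpanSingleton_apply, brL_apply, kfL_apply]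

theorem bz_mem [Algebra ℚ R] (hp : Cone p) (w z : E8 R) : bz p w z ∈ Phi p := by
  rw [bz_apply]
  refine br_mem_Phi hp ?_
  rw [kf_sub_right, kf_smul_right, kf_smul_right]
  ring

/-- the value of `bz` at `[w, y]` -/
theorem bz_br {y : E8 R} (hy : y ∈ Phi p) (w : E8 R) :
    bz p w (br w y) = kf p w ^ 2 • y + (kf p w * kf y w) • p := by
  rw [bz_apply, kf_br_Phi hy, zero_smul, sub_zero, br_smul_right]
  have h1 : br p (br w y) = kf p w • y + kf y w • p := by
    rw [Phi_recover hy w, sub_add_cancel]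
  rw [h1, smul_add, smul_smul, smul_smul, sq]

variable [Algebra ℚ R] [IsLocalRing R]

theorem UP_Phi (hp : Cone p)
    (hf : ∀ y ∈ maximalIdeal R, ∃ n : ℕ, y ^ n ∈ Ideal.span (Set.range (p3 p))) :
    UP R (Phi p) := by
  refine UP_of_local (ι := Fin 8) (E8 R × R) (p3 p) 2
    (fun i => LinearMap.prod (brL (db (ix i)) ∘ₗ (Phi p).subtype)
      (kfL (db (ix i)) ∘ₗ (Phi p).subtype))
    (fun i => (bz p (db (ix i)) ∘ₗ LinearMap.fst R (E8 R) R -
      (kf p (db (ix i))) • ((LinearMap.toSpanSingleton R (E8 R) p) ∘ₗ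
        LinearMap.snd R (E8 R) R)).codRestrict (Phi p) (fun z => ?_)) (fun i y => ?_) hf
  · rw [LinearMap.sub_apply, LinearMap.comp_apply, LinearMap.smul_apply, LinearMap.comp_apply,
      LinearMap.toSpanSingleton_apply]
    exact (Phi p).sub_mem (bz_mem hp _ _) ((Phi p).smul_mem _ ((Phi p).smul_mem _ (p_mem_Phi hp)))
  · apply Subtype.ext
    have hpi : kf p (db (ix i)) = p3 p i := by rw [kf_symm, kf_db_apply]; rfl
    show bz p (db (ix i)) (br (db (ix i)) (y : E8 R)) -
      kf p (db (ix i)) • (kf (db (ix i)) (y : E8 R) • p) = ((p3 p i ^ 2 • y : Phi p) : E8 R)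
    rw [Submodule.coe_smul, bz_br y.2, smul_smul, kf_symm (db (ix i)) (y : E8 R), add_sub_cancel_right, hpi]

theorem UP_VR (hp : Cone p)
    (hf : ∀ y ∈ maximalIdeal R, ∃ n : ℕ, y ^ n ∈ Ideal.span (Set.range (p3 p))) :
    UP R (VR p) := by
  let S : Submodule R (Phi p) := (Submodule.span R {p}).comap (Phi p).subtype
  -- `y ↦ [w, f y - (y, w) p]`
  let a0 : Fin 8 → Phi p →ₗ[R] E8 R := fun i =>
    brL (db (ix i)) ∘ₗ (kf p (db (ix i)) • (Phi p).subtype -
      (LinearMap.toSpanSingleton R (E8 R) p) ∘ₗ kfL (db (ix i)) ∘ₗ (Phi p).subtype)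
  have ha0 : ∀ i (y : Phi p), a0 i y = br (db (ix i)) (kf p (db (ix i)) • (y : E8 R) -
      kf (y : E8 R) (db (ix i)) • p) := by
    intro i y
    simp only [a0, LinearMap.comp_apply, LinearMap.sub_apply, LinearMap.smul_apply,
      Submodule.subtype_apply, LinearMap.toSpanSingleton_apply, brL_apply, kfL_apply]
    rw [kf_symm (db (ix i)) (y : E8 R)]
  have hker : ∀ i, S ≤ LinearMap.ker (a0 i) := by
    intro i y hy
    rw [LinearMap.mem_ker, ha0]
    obtain ⟨c, hc⟩ := Submodule.mem_span_singleton.1 (show (y : E8 R) ∈ Submodule.span R {p} from hy)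
    rw [← hc, kf_smul_left, smul_smul, mul_comm, sub_self, br_zero_right]
  refine UP_of_local (ι := Fin 8) (E8 R) (p3 p) 3 (fun i => S.liftQ (a0 i) (hker i))
    (fun i => S.mkQ ∘ₗ (bz p (db (ix i))).codRestrict (Phi p) (bz_mem hp _)) (fun i x => ?_) hf
  obtain ⟨y, rfl⟩ := S.mkQ_surjective x
  have hpi : kf p (db (ix i)) = p3 p i := by rw [kf_symm, kf_db_apply]; rfl
  have hy' : kf p (db (ix i)) • (y : E8 R) - kf (y : E8 R) (db (ix i)) • p ∈ Phi p :=
    (Phi p).sub_mem ((Phi p).smul_mem _ y.2) ((Phi p).smul_mem _ (p_mem_Phi hp))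
  have h1 : kf (kf p (db (ix i)) • (y : E8 R) - kf (y : E8 R) (db (ix i)) • p) (db (ix i)) = 0 := by
    rw [kf_sub_left, kf_smul_left, kf_smul_left]
    ring
  rw [Submodule.mkQ_apply, Submodule.liftQ_apply, LinearMap.comp_apply, ← Submodule.mkQ_apply,
    ← map_smul, ← sub_eq_zero, ← map_sub, Submodule.mkQ_apply, Submodule.Quotient.mk_eq_zero]
  show ((bz p (db (ix i))).codRestrict (Phi p) (bz_mem hp _) (a0 i y) - p3 p i ^ 3 • y : Phi p).1 ∈
    Submodule.span R {p}
  rw [Submodule.coe_sub, LinearMap.codRestrict_apply, Submodule.coe_smul, ha0, bz_br hy', h1,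
    mul_zero, zero_smul, add_zero, smul_sub, smul_smul, smul_smul, hpi]
  refine Submodule.mem_span_singleton.2 ⟨-(p3 p i ^ 2 * kf (y : E8 R) (db (ix i))), ?_⟩
  module

end Pool.Agent.Licci.XE
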