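import Pool.Agent.Work.MP_a98e4e_ag.XE.K2

/-!
# LICCI, codimension 6 (XE): the module `V2` in arrays
-/

set_option autoImplicit false

namespace Pool.Agent.Licci.XE

open RingTheory.Sequence IsLocalRing

universe u

variable {R : Type u} [CommRing R]

/-- the vector `e_i` -/
abbrev ev (i : Fin 8) : Fin 8 → R := Pi.single i 1

/-- alternating arrays with three indices -/
def Al3 (R : Type u) [CommRing R] : Submodule R (Fin 8 → Fin 8 → Fin 8 → R) where
  carrier := {z | (∀ i k, z i i k = 0) ∧ (∀ i j, z i j j = 0) ∧ (∀ i j k, z j i k = - z i j k) ∧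
    ∀ i j k, z i k j = - z i j k}
  add_mem' := by
    rintro y z ⟨h1, h2, h3, h4⟩ ⟨h5, h6, h7, h8⟩
    refine ⟨fun i k => ?_, fun i j => ?_, fun i j k => ?_, fun i j k => ?_⟩
    · show y i i k + z i i k = 0
      rw [h1, h5, add_zero]
    · show y i j j + z i j j = 0
      rw [h2, h6, add_zero]
    · show y j i k + z j i k = -(y i j k + z i j k)
      rw [h3, h7]; ring
    · show y i k j + z i k j = -(y i j k + z i j k)
      rw [h4, h8]; ring
  zero_mem' := ⟨fun _ _ => rfl, fun _ _ => rfl, fun _ _ _ => neg_zero.symm,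
    fun _ _ _ => neg_zero.symm⟩
  smul_mem' := by
    rintro r y ⟨h1, h2, h3, h4⟩
    refine ⟨fun i k => ?_, fun i j => ?_, fun i j k => ?_, fun i j k => ?_⟩
    · show r * y i i k = 0
      rw [h1, mul_zero]
    · show r * y i j j = 0
      rw [h2, mul_zero]
    · show r * y j i k = -(r * y i j k)
      rw [h3]; ring
    · show r * y i k j = -(r * y i j k)
      rw [h4]; ring

/-- the alternating form of an alternating array -/
def ofArr (z : Al3 R) : Al R 3 where
  toFun v := ∑ i, ∑ j, ∑ k, z.1 i j k * (v 0 i * v 1 j * v 2 k)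
  map_update_add' := by
    intro inst v p x y
    obtain rfl := Subsingleton.elim inst (instDecidableEqFin 3)
    rw [← Finset.sum_add_distrib]
    refine Finset.sum_congr rfl fun i _ => ?_
    rw [← Finset.sum_add_distrib]
    refine Finset.sum_congr rfl fun j _ => ?_
    rw [← Finset.sum_add_distrib]
    refine Finset.sum_congr rfl fun k _ => ?_
    fin_cases p <;> simp [Function.update] <;> ring
  map_update_smul' := by
    intro inst v p r x
    obtain rfl := Subsingleton.elim inst (instDecidableEqFin 3)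
    rw [smul_eq_mul, Finset.mul_sum]
    refine Finset.sum_congr rfl fun i _ => ?_
    rw [Finset.mul_sum]
    refine Finset.sum_congr rfl fun j _ => ?_
    rw [Finset.mul_sum]
    refine Finset.sum_congr rfl fun k _ => ?_
    fin_cases p <;> simp [Function.update] <;> ring
  map_eq_zero_of_eq' := by
    obtain ⟨z, h1, h2, h3, h4⟩ := z
    have h5 : ∀ i j, z i j i = 0 := fun i j => by rw [h4 i i j, h1, neg_zero]
    have h6 : ∀ i j k, z k j i = - z i j k := fun i j k => by
      rw [h3 j k i, h4 j i k, h3 i j k]; ring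
    have key : ∀ v : Fin 3 → Fin 8 → R, (v 0 = v 1 ∨ v 1 = v 2 ∨ v 0 = v 2) →
        ∑ i, ∑ j, ∑ k, z i j k * (v 0 i * v 1 j * v 2 k) = 0 := by
      intro v hv
      rcases hv with hv | hv | hv
      · rw [hv, sum_pairs _ (fun i => Finset.sum_eq_zero fun k _ => by rw [h1, zero_mul])]
        refine Finset.sum_eq_zero fun i _ => Finset.sum_eq_zero fun j _ => ?_
        split_ifs
        · rw [← Finset.sum_add_distrib]
          refine Finset.sum_eq_zero fun k _ => ?_
          rw [h3 i j k]; ring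
        · rfl
      · refine Finset.sum_eq_zero fun i _ => ?_
        rw [hv, sum_pairs _ (fun j => by rw [h2, zero_mul])]
        refine Finset.sum_eq_zero fun j _ => Finset.sum_eq_zero fun k _ => ?_
        split_ifs
        · rw [h4 i j k]; ring
        · rfl
      · rw [Finset.sum_comm]
        refine Finset.sum_eq_zero fun j _ => ?_
        rw [hv, sum_pairs _ (fun j => by rw [h5, zero_mul])]
        refine Finset.sum_eq_zero fun i _ => Finset.sum_eq_zero fun k _ => ?_
        split_ifs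
        · rw [h6 i j k]; ring
        · rfl
    intro v p q hpq hne
    show ∑ i, ∑ j, ∑ k, z i j k * (v 0 i * v 1 j * v 2 k) = 0
    apply key
    fin_cases p <;> fin_cases q <;> first
      | exact absurd rfl hne
      | exact Or.inl hpq
      | exact Or.inl hpq.symm
      | exact Or.inr (Or.inl hpq)
      | exact Or.inr (Or.inl hpq.symm)
      | exact Or.inr (Or.inr hpq)
      | exact Or.inr (Or.inr hpq.symm)

theorem ofArr_apply (z : Al3 R) (v : Fin 3 → Fin 8 → R) :
    ofArr z v = ∑ i, ∑ j, ∑ k, z.1 i j k * (v 0 i * v 1 j * v 2 k) := rfl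

theorem ofArr_single (z : Al3 R) (i j k : Fin 8) : ofArr z ![ev i, ev j, ev k] = z.1 i j k := by
  rw [ofArr_apply, Finset.sum_eq_single i, Finset.sum_eq_single j, Finset.sum_eq_single k]
  · simp [ev]
  · intro k' _ hk
    simp [ev, hk]
  · intro h; exact absurd (Finset.mem_univ _) h
  · intro j' _ hj
    refine Finset.sum_eq_zero fun k' _ => ?_
    simp [ev, hj]
  · intro h; exact absurd (Finset.mem_univ _) h
  · intro i' _ hi
    refine Finset.sum_eq_zero fun j' _ => Finset.sum_eq_zero fun k' _ => ?_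
    simp [ev, hi]
  · intro h; exact absurd (Finset.mem_univ _) h

/-- two alternating forms which agree on basis vectors -/
theorem al_ext {n : ℕ} {ω η : Al R n} (h : ∀ v : Fin n → Fin 8, ω (fun i => ev (v i)) =
    η (fun i => ev (v i))) : ω = η := by
  refine (Pi.basisFun R (Fin 8)).ext_alternating fun v _ => ?_
  simp only [Pi.basisFun_apply]
  exact h v

/-- arrays and alternating forms of degree three -/
def arrEquiv (R : Type u) [CommRing R] : Al3 R ≃ₗ[R] Al R 3 where
  toFun := ofArr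
  map_add' y z := by
    refine al_ext fun v => ?_
    have h : (fun i => ev (v i) : Fin 3 → Fin 8 → R) = ![ev (v 0), ev (v 1), ev (v 2)] := by
      funext i; fin_cases i <;> rfl
    rw [h, AlternatingMap.add_apply, ofArr_single, ofArr_single, ofArr_single]
    rfl
  map_smul' r z := by
    refine al_ext fun v => ?_
    have h : (fun i => ev (v i) : Fin 3 → Fin 8 → R) = ![ev (v 0), ev (v 1), ev (v 2)] := by
      funext i; fin_cases i <;> rfl
    rw [h, RingHom.id_apply, AlternatingMap.smul_apply, ofArr_single, ofArr_single]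
    rfl
  invFun ω := ⟨fun i j k => ω ![ev i, ev j, ev k], by
    refine ⟨fun i k => ?_, fun i j => ?_, fun i j k => ?_, fun i j k => ?_⟩
    · exact ω.map_eq_zero_of_eq _ (i := 0) (j := 1) rfl (by decide)
    · exact ω.map_eq_zero_of_eq _ (i := 1) (j := 2) rfl (by decide)
    · have h := ω.map_swap ![ev i, ev j, ev k] (i := 0) (j := 1) (by decide)
      have h2 : (![ev i, ev j, ev k] : Fin 3 → Fin 8 → R) ∘ Equiv.swap (0 : Fin 3) 1 =
          ![ev j, ev i, ev k] := by
        funext p; fin_cases p <;> rfl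
      rw [h2] at h
      exact h
    · have h := ω.map_swap ![ev i, ev j, ev k] (i := 1) (j := 2) (by decide)
      have h2 : (![ev i, ev j, ev k] : Fin 3 → Fin 8 → R) ∘ Equiv.swap (1 : Fin 3) 2 =
          ![ev i, ev k, ev j] := by
        funext p; fin_cases p <;> rfl
      rw [h2] at h
      exact h⟩
  left_inv z := by
    apply Subtype.ext
    funext i j k
    exact ofArr_single z i j k
  right_inv ω := by
    refine al_ext fun v => ?_
    have h : (fun i => ev (v i) : Fin 3 → Fin 8 → R) = ![ev (v 0), ev (v 1), ev (v 2)] := by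
      funext i; fin_cases i <;> rfl
    rw [h, ofArr_single]

theorem arrEquiv_single (z : Al3 R) (i j k : Fin 8) :
    arrEquiv R z ![ev i, ev j, ev k] = z.1 i j k := ofArr_single z i j k

/-- The middle part of the filtration in arrays: `(β, z)` with `β` and `z` alternating,
`∑ i, g(e_i) β i j = 0` and `g ∧ z = β ⌟ ν`. -/
def V2 (g : (Fin 8 → R) →ₗ[R] R) (ν : Al R 6) :
    Submodule R ((Fin 8 → Fin 8 → R) × (Fin 8 → Fin 8 → Fin 8 → R)) where
  carrier := {x | x.1 ∈ Sk R ∧ x.2 ∈ Al3 R ∧ (∀ j, ∑ i, g (ev i) * x.1 i j = 0) ∧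
    ∀ i j k l, g (ev i) * x.2 j k l - g (ev j) * x.2 i k l + g (ev k) * x.2 i j l -
      g (ev l) * x.2 i j k =
      ∑ a, ∑ b, if a < b then x.1 a b * ν ![ev a, ev b, ev i, ev j, ev k, ev l] else 0}
  add_mem' := by
    rintro x y ⟨h1, h2, h3, h4⟩ ⟨h5, h6, h7, h8⟩
    refine ⟨(Sk R).add_mem h1 h5, (Al3 R).add_mem h2 h6, fun j => ?_, fun i j k l => ?_⟩
    · have : ∑ i, g (ev i) * (x.1 i j + y.1 i j) =
          ∑ i, g (ev i) * x.1 i j + ∑ i, g (ev i) * y.1 i j := by
        rw [← Finset.sum_add_distrib]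
        exact Finset.sum_congr rfl fun i _ => by ring
      show ∑ i, g (ev i) * (x.1 i j + y.1 i j) = 0
      rw [this, h3, h7, add_zero]
    · have e1 := h4 i j k l
      have e2 := h8 i j k l
      show g (ev i) * (x.2 j k l + y.2 j k l) - g (ev j) * (x.2 i k l + y.2 i k l) +
        g (ev k) * (x.2 i j l + y.2 i j l) - g (ev l) * (x.2 i j k + y.2 i j k) =
        ∑ a, ∑ b, if a < b then (x.1 a b + y.1 a b) * ν ![ev a, ev b, ev i, ev j, ev k, ev l] else 0
      have e3 : (∑ a, ∑ b, if a < b then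
          (x.1 a b + y.1 a b) * ν ![ev a, ev b, ev i, ev j, ev k, ev l] else 0) =
          (∑ a, ∑ b, if a < b then x.1 a b * ν ![ev a, ev b, ev i, ev j, ev k, ev l] else 0) +
          ∑ a, ∑ b, if a < b then y.1 a b * ν ![ev a, ev b, ev i, ev j, ev k, ev l] else 0 := by
        rw [← Finset.sum_add_distrib]
        refine Finset.sum_congr rfl fun a _ => ?_
        rw [← Finset.sum_add_distrib]
        refine Finset.sum_congr rfl fun b _ => ?_
        split_ifs
        · ring
        · ring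
      rw [e3, ← e1, ← e2]
      ring
  zero_mem' := by
    refine ⟨(Sk R).zero_mem, (Al3 R).zero_mem, fun j => ?_, fun i j k l => ?_⟩
    · exact Finset.sum_eq_zero fun i _ => mul_zero _
    · show g (ev i) * 0 - g (ev j) * 0 + g (ev k) * 0 - g (ev l) * 0 =
        ∑ a : Fin 8, ∑ b : Fin 8,
          if a < b then 0 * ν ![ev a, ev b, ev i, ev j, ev k, ev l] else 0
      simp
  smul_mem' := by
    rintro r x ⟨h1, h2, h3, h4⟩
    refine ⟨(Sk R).smul_mem r h1, (Al3 R).smul_mem r h2, fun j => ?_, fun i j k l => ?_⟩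
    · have : ∑ i, g (ev i) * (r * x.1 i j) = r * ∑ i, g (ev i) * x.1 i j := by
        rw [Finset.mul_sum]
        exact Finset.sum_congr rfl fun i _ => by ring
      show ∑ i, g (ev i) * (r * x.1 i j) = 0
      rw [this, h3, mul_zero]
    · have e1 := h4 i j k l
      show g (ev i) * (r * x.2 j k l) - g (ev j) * (r * x.2 i k l) +
        g (ev k) * (r * x.2 i j l) - g (ev l) * (r * x.2 i j k) =
        ∑ a, ∑ b, if a < b then (r * x.1 a b) * ν ![ev a, ev b, ev i, ev j, ev k, ev l] else 0
      have e3 : (∑ a, ∑ b, if a < b then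
          (r * x.1 a b) * ν ![ev a, ev b, ev i, ev j, ev k, ev l] else 0) =
          r * ∑ a, ∑ b, if a < b then x.1 a b * ν ![ev a, ev b, ev i, ev j, ev k, ev l] else 0 := by
        rw [Finset.mul_sum]
        refine Finset.sum_congr rfl fun a _ => ?_
        rw [Finset.mul_sum]
        refine Finset.sum_congr rfl fun b _ => ?_
        split_ifs
        · ring
        · ring
      rw [e3, ← e1]
      ring

theorem bc_single (ν : Al R 6) (β : Fin 8 → Fin 8 → R) (i j k l : Fin 8) :
    bc ν β ![ev i, ev j, ev k, ev l] =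
      ∑ a, ∑ b, if a < b then β a b * ν ![ev a, ev b, ev i, ev j, ev k, ev l] else 0 := by
  rw [bc_apply]
  have h1 : ∀ (F : Fin 8 → Al R 4) (v : Fin 4 → Fin 8 → R), (∑ a, F a) v = ∑ a, F a v := by
    intro F v
    let E : Al R 4 →+ R := { toFun := fun ω => ω v, map_zero' := rfl, map_add' := fun _ _ => rfl }
    exact map_sum E F Finset.univ
  rw [h1]
  refine Finset.sum_congr rfl fun a _ => ?_
  rw [h1]
  refine Finset.sum_congr rfl fun b _ => ?_
  split_ifs
  · rw [AlternatingMap.smul_apply, smul_eq_mul]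
    unfold c2
    rw [contr_apply, contr_apply]
    rfl
  · rfl

theorem wedge_single (g : (Fin 8 → R) →ₗ[R] R) (z : Al3 R) (i j k l : Fin 8) :
    wedge g 3 (arrEquiv R z) ![ev i, ev j, ev k, ev l] =
      g (ev i) * z.1 j k l - g (ev j) * z.1 i k l + g (ev k) * z.1 i j l -
        g (ev l) * z.1 i j k := by
  rw [wedge_apply, Fin.sum_univ_four]
  have e0 : (0 : Fin 4).removeNth (![ev i, ev j, ev k, ev l] : Fin 4 → Fin 8 → R) =
      ![ev j, ev k, ev l] := by funext p; fin_cases p <;> rfl
  have e1 : (1 : Fin 4).removeNth (![ev i, ev j, ev k, ev l] : Fin 4 → Fin 8 → R) =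
      ![ev i, ev k, ev l] := by funext p; fin_cases p <;> rfl
  have e2 : (2 : Fin 4).removeNth (![ev i, ev j, ev k, ev l] : Fin 4 → Fin 8 → R) =
      ![ev i, ev j, ev l] := by funext p; fin_cases p <;> rfl
  have e3 : (3 : Fin 4).removeNth (![ev i, ev j, ev k, ev l] : Fin 4 → Fin 8 → R) =
      ![ev i, ev j, ev k] := by funext p; fin_cases p <;> rfl
  rw [e0, e1, e2, e3, arrEquiv_single, arrEquiv_single, arrEquiv_single, arrEquiv_single]
  show (-1 : ℤ) ^ 0 • g (ev i) • z.1 j k l + (-1 : ℤ) ^ 1 • g (ev j) • z.1 i k l +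
    (-1 : ℤ) ^ 2 • g (ev k) • z.1 i j l + (-1 : ℤ) ^ 3 • g (ev l) • z.1 i j k = _
  simp only [pow_zero, one_smul, pow_one, neg_smul, smul_eq_mul]
  norm_num
  ring

/-- the array form is the kernel of `D0` -/
def V2Equiv (g : (Fin 8 → R) →ₗ[R] R) (ν : Al R 6) : V2 g ν ≃ₗ[R] LinearMap.ker (D0 g ν) where
  toFun x := ⟨(⟨x.1.1, x.2.1⟩, arrEquiv R ⟨x.1.2, x.2.2.1⟩), by
    obtain ⟨⟨β, z⟩, h1, h2, h3, h4⟩ := x
    rw [LinearMap.mem_ker, D0_apply]
    refine Prod.ext ?_ ?_
    · funext j
      exact h3 j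
    · show wedge g 3 (arrEquiv R ⟨z, h2⟩) - bc ν β = 0
      rw [sub_eq_zero]
      refine al_ext fun v => ?_
      have h : (fun i => ev (v i) : Fin 4 → Fin 8 → R) = ![ev (v 0), ev (v 1), ev (v 2), ev (v 3)] := by
        funext i; fin_cases i <;> rfl
      rw [h, wedge_single, bc_single]
      exact h4 _ _ _ _⟩
  map_add' x y := by
    apply Subtype.ext
    refine Prod.ext rfl ?_
    exact map_add (arrEquiv R) (⟨x.1.2, x.2.2.1⟩ : Al3 R) ⟨y.1.2, y.2.2.1⟩
  map_smul' r x := by
    apply Subtype.ext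
    refine Prod.ext rfl ?_
    exact map_smul (arrEquiv R) r (⟨x.1.2, x.2.2.1⟩ : Al3 R)
  invFun c := ⟨(c.1.1.1, ((arrEquiv R).symm c.1.2).1), by
    obtain ⟨⟨β, ω⟩, hc⟩ := c
    rw [LinearMap.mem_ker, D0_apply] at hc
    obtain ⟨h1, h2⟩ := Prod.ext_iff.1 hc
    refine ⟨β.2, ((arrEquiv R).symm ω).2, fun j => congrFun h1 j, fun i j k l => ?_⟩
    have h3 : wedge g 3 ω - bc ν β.1 = 0 := h2
    rw [sub_eq_zero] at h3
    have h4 := wedge_single g ((arrEquiv R).symm ω) i j k l
    rw [LinearEquiv.apply_symm_apply, h3, bc_single] at h4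
    exact h4.symm⟩
  left_inv x := by
    apply Subtype.ext
    refine Prod.ext rfl ?_
    show ((arrEquiv R).symm (arrEquiv R (⟨x.1.2, x.2.2.1⟩ : Al3 R))).1 = x.1.2
    rw [LinearEquiv.symm_apply_apply]
  right_inv c := by
    apply Subtype.ext
    refine Prod.ext rfl ?_
    show arrEquiv R ((arrEquiv R).symm c.1.2) = c.1.2
    rw [LinearEquiv.apply_symm_apply]

/-- The middle part of the filtration satisfies `H23`. -/
theorem H23_dual_V2 [IsLocalRing R] [IsNoetherianRing R] (hd : Depth6 R)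
    {g : (Fin 8 → R) →ₗ[R] R} {a : Fin 6 → (Fin 8 → R)} {w : R} {ν : Al R 6}
    (hI : ∃ k, ∀ y ∈ maximalIdeal R ^ k, ∃ v, g v = y) (hG : Gor g a w)
    (hν0 : wedge g 6 ν = 0) (hνa : ν a - w ∈ Ideal.span (Set.range fun i => g (a i))) :
    H23 R (Module.Dual R (V2 g ν)) :=
  H23.congr (V2Equiv g ν).dualMap (H23_dual_D0 hd hI hG hν0 hνa)

end Pool.Agent.Licci.XE
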