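import Pool.Agent.Work.MP_a98e4e_ag.XE.Dual

/-!
# LICCI, codimension 6 (XE): duals of modules with a filtration

Module theory for `Ext ^ 2 (V*, R) = Ext ^ 3 (V*, R) = 0`: duals of a module `Φ` with a filtration
`Φ0 ⊆ Φ2 ⊆ Φ` whose pieces are, up to modules killed by a power of the maximal ideal, a free module,
a module `V2` and the kernel of a linear form.
-/

set_option autoImplicit false

namespace Pool.Agent.Licci.XE

open CategoryTheory Abelian IsLocalRing

universe u

variable {R : Type u} [CommRing R]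

variable {A B C F : Type u} [AddCommGroup A] [Module R A] [AddCommGroup B] [Module R B]
  [AddCommGroup C] [Module R C] [AddCommGroup F] [Module R F]

/-- linear forms on a submodule extend if `Ext ^ 1` of the quotient vanishes -/
theorem SE.extend {f : A →ₗ[R] B} {g : B →ₗ[R] C} (hf : Function.Injective f)
    (hfg : Function.Exact f g) (hg : Function.Surjective g) (hC : SE (R := R) C 1)
    (φ : A →ₗ[R] R) : ∃ ψ : B →ₗ[R] R, ψ ∘ₗ f = φ := by
  have hS := shortExact_of hf hfg hg
  unfold SE at hC
  obtain ⟨x, hx⟩ := Ext.contravariant_sequence_exact₁ hS (ModuleCat.of R R)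
    (Ext.mk₀ (ModuleCat.ofHom φ)) (n₁ := 1) rfl (hC.elim _ _)
  obtain ⟨ψ, rfl⟩ := (Ext.mk₀_bijective _ _).2 x
  rw [Ext.mk₀_comp_mk₀] at hx
  have h2 := (Ext.mk₀_bijective _ _).1 hx
  refine ⟨ψ.hom, ?_⟩
  have h3 := congrArg ModuleCat.Hom.hom h2
  exact h3

/-- linear forms on a submodule extend if `Ext ^ 1` of the quotient vanishes -/
theorem SE.extend_sub (S : Submodule R B) (hC : SE (R := R) (B ⧸ S) 1)
    (φ : S →ₗ[R] R) : ∃ ψ : B →ₗ[R] R, ∀ x : S, ψ x = φ x := by
  obtain ⟨ψ, hψ⟩ := SE.extend (f := S.subtype) (g := S.mkQ) S.injective_subtype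
    (LinearMap.exact_subtype_mkQ S) S.mkQ_surjective hC φ
  exact ⟨ψ, fun x => LinearMap.congr_fun hψ x⟩

/-- a linear form which vanishes on the kernel of a linear map factors through its range -/
theorem factor_range (q : B →ₗ[R] F) (ψ : B →ₗ[R] R) (h : ∀ x, q x = 0 → ψ x = 0) :
    ∃ φ : LinearMap.range q →ₗ[R] R, ∀ x, φ ⟨q x, LinearMap.mem_range_self q x⟩ = ψ x := by
  have hk : LinearMap.ker q.rangeRestrict ≤ LinearMap.ker ψ := by
    intro x hx
    rw [LinearMap.mem_ker] at hx ⊢
    exact h x (congrArg Subtype.val hx)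
  refine ⟨((LinearMap.ker q.rangeRestrict).liftQ ψ hk) ∘ₗ
    (q.rangeRestrict.quotKerEquivOfSurjective q.surjective_rangeRestrict).symm.toLinearMap, ?_⟩
  intro x
  have : (q.rangeRestrict.quotKerEquivOfSurjective q.surjective_rangeRestrict).symm
      (q.rangeRestrict x) = Submodule.Quotient.mk x := by
    rw [LinearEquiv.symm_apply_eq]
    rfl
  have e : (⟨q x, LinearMap.mem_range_self q x⟩ : LinearMap.range q) = q.rangeRestrict x := rfl
  rw [e, LinearMap.comp_apply, LinearEquiv.coe_coe, this, Submodule.liftQ_apply]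

section dom

variable [IsDomain R] [IsLocalRing R] [IsNoetherianRing R]

/-- a power of the maximal ideal contains a nonzero element -/
theorem exists_mem_pow_ne_zero (hd : Depth6 R) (k : ℕ) : ∃ r ∈ maximalIdeal R ^ k, r ≠ 0 := by
  obtain ⟨rs, hlen, hmem, hreg⟩ := hd
  match rs, hlen with
  | r :: rs, _ =>
    have h0 : r ≠ 0 := by
      rintro rfl
      have h := ((RingTheory.Sequence.isRegular_cons_iff R (0 : R) rs).1 hreg).1
      have := h (show (0 : R) • (1 : R) = (0 : R) • (0 : R) by simp)
      exact one_ne_zero this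
    exact ⟨r ^ k, Ideal.pow_mem_pow (hmem r List.mem_cons_self) k, pow_ne_zero k h0⟩

/-- a linear form which vanishes on a submodule with torsion quotient vanishes -/
theorem form_zero (hd : Depth6 R) (q : B →ₗ[R] F) (hT : Tors R (F ⧸ LinearMap.range q))
    (φ : F →ₗ[R] R) (h : ∀ x, φ (q x) = 0) : φ = 0 := by
  obtain ⟨k, hk⟩ := hT
  obtain ⟨r, hr, hr0⟩ := exists_mem_pow_ne_zero hd k
  ext y
  have h1 : r • y ∈ LinearMap.range q := by
    rw [← Submodule.Quotient.mk_eq_zero, Submodule.Quotient.mk_smul]
    exact hk r hr _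
  obtain ⟨x, hx⟩ := h1
  have h2 := h x
  rw [hx, map_smul, smul_eq_mul] at h2
  rcases mul_eq_zero.1 h2 with h3 | h3
  · exact absurd h3 hr0
  · exact h3

/-- `0 → F* → B* → A*`, for `0 → A → B → F` exact with torsion cokernel -/
theorem dual_exact_of [Module.Finite R F] (hd : Depth6 R) {f : A →ₗ[R] B} {q : B →ₗ[R] F}
    (hfq : Function.Exact f q) (hT : Tors R (F ⧸ LinearMap.range q)) :
    Function.Injective q.dualMap ∧ Function.Exact q.dualMap f.dualMap := by
  constructor
  · rw [← LinearMap.ker_eq_bot, LinearMap.ker_eq_bot']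
    intro φ hφ
    exact form_zero hd q hT φ fun x => LinearMap.congr_fun hφ x
  · intro ψ
    constructor
    · intro h
      obtain ⟨φ, hφ⟩ := factor_range q ψ (fun x hx => by
        obtain ⟨a, rfl⟩ := (hfq x).1 hx
        exact LinearMap.congr_fun h a)
      obtain ⟨χ, hχ⟩ := SE.extend_sub (LinearMap.range q) (SE.tors hd hT (by norm_num)) φ
      refine ⟨χ, ?_⟩
      ext x
      rw [LinearMap.dualMap_apply, ← hφ x, ← hχ]
    · rintro ⟨φ, rfl⟩
      ext a
      rw [LinearMap.dualMap_apply, LinearMap.dualMap_apply, hfq.apply_apply_eq_zero, map_zero]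
      rfl

/-- surjectivity of the restriction, if moreover `F` is free -/
theorem dual_surj_of [Module.Finite R F] [Module.Free R F] (hd : Depth6 R) {f : A →ₗ[R] B}
    {q : B →ₗ[R] F} (hf : Function.Injective f)
    (hfq : Function.Exact f q) (hT : Tors R (F ⧸ LinearMap.range q)) :
    Function.Surjective f.dualMap := by
  intro φ
  have h1 : SE (R := R) (LinearMap.range q) 1 :=
    SE.left (f := (LinearMap.range q).subtype) (g := (LinearMap.range q).mkQ)
      (Submodule.injective_subtype _) (LinearMap.exact_subtype_mkQ _)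
      (Submodule.mkQ_surjective _) (SE.free 0) (SE.tors hd hT (by norm_num))
  have h2 : Function.Exact f q.rangeRestrict := by
    intro x
    rw [← hfq x]
    exact ⟨fun h => congrArg Subtype.val h, fun h => Subtype.ext h⟩
  obtain ⟨ψ, hψ⟩ := SE.extend hf h2 q.surjective_rangeRestrict h1 φ
  exact ⟨ψ, hψ⟩

/-- step 1: `0 → A → B → F` exact, `F` free, torsion cokernel -/
theorem H23.step1 [Module.Finite R F] [Module.Free R F] (hd : Depth6 R) {f : A →ₗ[R] B}
    {q : B →ₗ[R] F} (hf : Function.Injective f)
    (hfq : Function.Exact f q) (hT : Tors R (F ⧸ LinearMap.range q))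
    (hA : H23 R (Module.Dual R A)) : H23 R (Module.Dual R B) := by
  obtain ⟨h1, h2⟩ := dual_exact_of hd hfq hT
  exact H23.ext (f := q.dualMap) (g := f.dualMap) h1 h2 (dual_surj_of hd hf hfq hT) H23.free hA

/-- step 3: the dual of the kernel of a map of free modules with torsion cokernel -/
theorem H23.step3 [Module.Finite R F] [Module.Free R F] [Module.Finite R B] [Module.Free R B]
    (hd : Depth6 R) {f : A →ₗ[R] B} {q : B →ₗ[R] F} (hf : Function.Injective f)
    (hfq : Function.Exact f q) (hT : Tors R (F ⧸ LinearMap.range q)) :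
    H23 R (Module.Dual R A) := by
  obtain ⟨h1, h2⟩ := dual_exact_of hd hfq hT
  have h3 := dual_surj_of hd hf hfq hT
  exact ⟨SE.right h1 h2 h3 (i := 1) (SE.free 0) (SE.free 1),
    SE.right h1 h2 h3 (i := 2) (SE.free 1) (SE.free 2)⟩

/-- step 2: `0 → A → B → V` exact with torsion cokernel, restriction `B* → A*` with torsion
cokernel -/
theorem H23.step2 [Module.Finite R A] [Module.Finite R F] (hd : Depth6 R) {f : A →ₗ[R] B}
    {q : B →ₗ[R] F} (hfq : Function.Exact f q) (hT : Tors R (F ⧸ LinearMap.range q))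
    (hV : H23 R (Module.Dual R F)) (hA : H23 R (Module.Dual R A))
    (hT2 : Tors R (Module.Dual R A ⧸ LinearMap.range f.dualMap)) : H23 R (Module.Dual R B) := by
  obtain ⟨h1, h2⟩ := dual_exact_of hd hfq hT
  have hfin : Module.Finite R (Module.Dual R A) := inferInstance
  have h3 : H23 R (LinearMap.range f.dualMap) :=
    (H23.sub hd (f := (LinearMap.range f.dualMap).subtype)
      (g := (LinearMap.range f.dualMap).mkQ) (Submodule.injective_subtype _)
      (LinearMap.exact_subtype_mkQ _) (Submodule.mkQ_surjective _) hT2).2 hA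
  refine H23.ext (f := q.dualMap) (g := f.dualMap.rangeRestrict) h1 ?_
    f.dualMap.surjective_rangeRestrict hV h3
  intro x
  rw [← h2 x]
  exact ⟨fun h => congrArg Subtype.val h, fun h => Subtype.ext h⟩

/-- step 4: quotient by one element `p` such that the values `φ (p)` of linear forms generate an
ideal which contains a power of the maximal ideal -/
theorem H23.step4 (hd : Depth6 R) (p : B) (S : Submodule R B) (hS : S = Submodule.span R {p})
    (hT : Tors R (R ⧸ LinearMap.range (LinearMap.applyₗ (R := R) p : Module.Dual R B →ₗ[R] R)))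
    (hB : H23 R (Module.Dual R B)) : H23 R (Module.Dual R (B ⧸ S)) := by
  set e : Module.Dual R B →ₗ[R] R := LinearMap.applyₗ (R := R) p with he
  have h1 : Function.Injective S.mkQ.dualMap := by
    intro φ ψ h
    ext x
    exact LinearMap.congr_fun h x
  have h2 : Function.Exact S.mkQ.dualMap e.rangeRestrict := by
    intro φ
    constructor
    · intro h
      have h3 : φ p = 0 := congrArg Subtype.val h
      have h4 : S ≤ LinearMap.ker φ := by
        rw [hS, Submodule.span_le]
        rintro _ rfl
        exact h3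
      exact ⟨S.liftQ φ h4, by ext x; rfl⟩
    · rintro ⟨φ, rfl⟩
      apply Subtype.ext
      show φ (S.mkQ p) = 0
      have : S.mkQ p = 0 := by
        rw [Submodule.mkQ_apply, Submodule.Quotient.mk_eq_zero, hS]
        exact Submodule.mem_span_singleton_self p
      rw [this, map_zero]
  have h5 : ∀ i, i ≤ 3 → SE (R := R) (LinearMap.range e) (1 + i) := fun i hi =>
    SE.left (f := (LinearMap.range e).subtype) (g := (LinearMap.range e).mkQ)
      (Submodule.injective_subtype _) (LinearMap.exact_subtype_mkQ _)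
      (Submodule.mkQ_surjective _) (SE.free i) (SE.tors hd hT (by omega))
  exact ⟨SE.left h1 h2 e.surjective_rangeRestrict hB.1 (h5 2 (by norm_num)),
    SE.left h1 h2 e.surjective_rangeRestrict hB.2 (h5 3 (by norm_num))⟩

end dom

end Pool.Agent.Licci.XE
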