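import Pool.Agent.Work.MP_a98e4e_ag.XE.Ve3
import Pool.Agent.Work.MP_a98e4e_ag.XE.PhiDefs

/-!
# LICCI, codimension 6 (XE): torsion and grade
-/

set_option autoImplicit false

namespace Pool.Agent.Licci.XE

open IsLocalRing

universe u

variable {R : Type u} [CommRing R]

/-- killed by powers of the `f i` -/
theorem tors_of_local [IsLocalRing R] [IsNoetherianRing R] {ι : Type*} (f : ι → R)
    (hI : ∃ k, maximalIdeal R ^ k ≤ Ideal.span (Set.range f)) {M : Type u} [AddCommGroup M]
    [Module R M] (n : ℕ) (h : ∀ i, ∀ x : M, f i ^ n • x = 0) : Tors R M := by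
  obtain ⟨k, hk⟩ := hI
  have h1 : maximalIdeal R ^ k ≤ (Module.annihilator R M).radical := by
    refine hk.trans ?_
    rw [Ideal.span_le]
    rintro _ ⟨i, rfl⟩
    exact ⟨n, Module.mem_annihilator.2 (h i)⟩
  obtain ⟨m, hm⟩ := Ideal.exists_pow_le_of_le_radical_of_fg h1 (IsNoetherian.noetherian _)
  refine ⟨k * m, fun r hr x => ?_⟩
  rw [pow_mul] at hr
  exact Module.mem_annihilator.1 (hm hr) x

/-- the ideal generated by the coordinates as the range of the linear form -/
theorem range_constr (f : Fin 8 → R) :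
    LinearMap.range ((Pi.basisFun R (Fin 8)).constr ℕ f : (Fin 8 → R) →ₗ[R] R) =
      Ideal.span (Set.range f) := by
  rw [Module.Basis.constr_range]

theorem constr_apply (f v : Fin 8 → R) :
    ((Pi.basisFun R (Fin 8)).constr ℕ f : (Fin 8 → R) →ₗ[R] R) v = ∑ i, v i * f i := by
  rw [Module.Basis.constr_apply_fintype]
  simp

/-- grade at least two -/
theorem gr2_of [IsDomain R] [IsLocalRing R] [IsNoetherianRing R] (hd : Depth6 R) (f : Fin 8 → R)
    (hI : ∃ k, maximalIdeal R ^ k ≤ Ideal.span (Set.range f)) {a b : R} (hb : b ≠ 0)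
    (h : ∀ i, b ∣ f i * a) : b ∣ a := by
  set J : Submodule R R := Ideal.span (Set.range f) with hJ
  have hinj : Function.Injective (LinearMap.mulLeft R b) := by
    intro x y hxy
    exact mul_left_cancel₀ hb hxy
  have h1 : ∀ x : J, LinearMap.mulLeft R a (x : R) ∈ LinearMap.range (LinearMap.mulLeft R b) := by
    intro x
    have h2 : J ≤ (LinearMap.range (LinearMap.mulLeft R b)).comap (LinearMap.mulLeft R a) := by
      rw [hJ]
      refine Submodule.span_le.2 ?_
      rintro _ ⟨i, rfl⟩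
      obtain ⟨c, hc⟩ := h i
      refine ⟨c, ?_⟩
      rw [LinearMap.mulLeft_apply, LinearMap.mulLeft_apply, ← hc, mul_comm]
    exact h2 x.2
  let φ : J →ₗ[R] R := (LinearEquiv.ofInjective _ hinj).symm.toLinearMap ∘ₗ
    (LinearMap.codRestrict (LinearMap.range (LinearMap.mulLeft R b))
      (LinearMap.mulLeft R a ∘ₗ J.subtype) h1)
  have hφ : ∀ x : J, b * φ x = a * x := by
    intro x
    have h3 : (LinearEquiv.ofInjective (LinearMap.mulLeft R b) hinj) (φ x) =
        ⟨a * (x : R), h1 x⟩ := by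
      simp only [φ, LinearMap.comp_apply, LinearEquiv.coe_coe, LinearEquiv.apply_symm_apply]
      rfl
    exact congrArg Subtype.val h3
  have hT : Tors R (R ⧸ J) := by
    obtain ⟨k, hk⟩ := hI
    refine ⟨k, fun r hr x => ?_⟩
    obtain ⟨y, rfl⟩ := Submodule.Quotient.mk_surjective J x
    rw [← Submodule.Quotient.mk_smul, Submodule.Quotient.mk_eq_zero]
    exact J.smul_mem y (hk hr) |> fun h => by rwa [smul_eq_mul, mul_comm]
  obtain ⟨ψ, hψ⟩ := SE.extend_sub J (SE.tors hd hT (by norm_num)) φ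
  obtain ⟨k, hk⟩ := hI
  obtain ⟨r, hr, hr0⟩ := exists_mem_pow_ne_zero hd k
  have e1 := hφ ⟨r, hk hr⟩
  have e2 := hψ ⟨r, hk hr⟩
  have e3 : ψ r = r * ψ 1 := by
    conv_lhs => rw [← mul_one r, ← smul_eq_mul, map_smul, smul_eq_mul]
  refine ⟨ψ 1, ?_⟩
  have e4 : r * a = r * (b * ψ 1) := by
    calc r * a = a * r := mul_comm _ _
      _ = b * ψ r := by rw [← e1, ← e2]
      _ = r * (b * ψ 1) := by rw [e3]; ring
  exact mul_left_cancel₀ hr0 e4

end Pool.Agent.Licci.XE
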