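import Pool.Agent.Work.MP_a98e4e_ag.XE.VePChk

/-!
# LICCI, codimension 6 (XE): the equations of `Φ` in degree `1`

`t3_rel`: `f ∧ y_1 = ∑ β ν` for `y ∈ Φ (p)` of `z`-degree `≤ 2`; `isV2_of_mem`.
-/

set_option autoImplicit false

namespace Pool.Agent.Licci.XE

open scoped BigOperators

universe u

variable {R : Type u} [CommRing R]

/-! ### sums -/

theorem sum28 {M : Type*} [AddCommMonoid M] (F : Fin 248 → M)
    (h : ∀ a : Fin 248, ¬ (8 ≤ (a : ℕ) ∧ (a : ℕ) < 36) → F a = 0) :
    ∑ a, F a = ∑ c : Fin 8, ∑ d : Fin 8, if c < d then F (i2 c d) else 0 := by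
  have h1 : ∑ c : Fin 8, ∑ d : Fin 8, (if c < d then F (i2 c d) else 0) =
      ∑ x ∈ (Finset.univ : Finset (Fin 8 × Fin 8)).filter (fun x => x.1 < x.2),
        F (i2 x.1 x.2) := by
    rw [Finset.sum_filter, ← Finset.univ_product_univ, Finset.sum_product]
  have h2 : ∑ x ∈ (Finset.univ : Finset (Fin 8 × Fin 8)).filter (fun x => x.1 < x.2),
      F (i2 x.1 x.2) = ∑ a ∈ ((Finset.univ : Finset (Fin 8 × Fin 8)).filter
        (fun x => x.1 < x.2)).image (fun x => i2 x.1 x.2), F a := by
    rw [Finset.sum_image]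
    intro x hx y hy hxy
    have hx' : x.1 < x.2 := (Finset.mem_filter.1 hx).2
    have hy' : y.1 < y.2 := (Finset.mem_filter.1 hy).2
    have := i2_inj hx' hy' hxy
    exact Prod.ext this.1 this.2
  rw [h1, h2]
  symm
  refine Finset.sum_subset (Finset.subset_univ _) fun a _ ha => h a ?_
  rintro ⟨h3, h4⟩
  obtain ⟨i, j, hij, hm⟩ := i2_surj a h3 h4
  exact ha (Finset.mem_image.2 ⟨(i, j), Finset.mem_filter.2 ⟨Finset.mem_univ _, hij⟩, hm⟩)

theorem KK_zdg {n m a b : Fin 248} (h : KK n m a b ≠ 0) : zdg a + zdg b + zdg n = zdg m := by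
  rw [KK_eq] at h
  obtain ⟨c, -, hc⟩ := Finset.exists_ne_zero_of_sum_ne_zero h
  have h1 := sc_zdg (left_ne_zero_of_mul hc)
  have h2 := sc_zdg (right_ne_zero_of_mul hc)
  omega

/-! ### alternating arrays -/

theorem t3_swapP (Y : E8 R) (i j k : Fin 8) : t3 Y i j k = - t3 Y j i k := by
  unfold t3
  rw [i1_swap i j k, sg3_swap i j k, ep3_swap i j k]
  push_cast
  ring

theorem t3_swapP' (Y : E8 R) (i j k : Fin 8) : t3 Y i j k = - t3 Y i k j := by
  unfold t3
  rw [i1_swap' i j k, sg3_swap' i j k, ep3_swap' i j k]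
  push_cast
  ring

theorem t3_selfP (Y : E8 R) (i k : Fin 8) : t3 Y i i k = 0 := by
  unfold t3
  rw [ep3_self]
  simp

theorem alt4_zero {M : Type*} [AddCommGroup M] (Φ : Fin 8 → Fin 8 → Fin 8 → Fin 8 → M)
    (h12 : ∀ i j k l, Φ i j k l = - Φ j i k l) (h23 : ∀ i j k l, Φ i j k l = - Φ i k j l)
    (h34 : ∀ i j k l, Φ i j k l = - Φ i j l k) (h0 : ∀ i k l, Φ i i k l = 0)
    (hs : ∀ i j k l, i < j → j < k → k < l → Φ i j k l = 0) (i j k l : Fin 8) :
    Φ i j k l = 0 := by
  refine alt3_zero (fun i j k => Φ i j k l) (fun i j k => h12 i j k l) (fun i j k => h23 i j k l)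
    (fun i k => h0 i k l) ?_ i j k
  intro i j k hij hjk
  have e23 : ∀ i k l, Φ i k k l = 0 := fun i k l => by
    rw [h12, h23, h0]; simp
  rcases lt_trichotomy k l with h | h | h
  · exact hs i j k l hij hjk h
  · subst h
    rw [h23, h34, e23]; simp
  · rw [h34]
    rcases lt_trichotomy j l with h' | h' | h'
    · rw [hs i j l k hij h' h, neg_zero]
    · subst h'
      rw [e23, neg_zero]
    · rw [h23]
      rcases lt_trichotomy i l with h'' | h'' | h''
      · rw [hs i l j k h'' h' hjk]; simp
      · subst h''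
        rw [h0]; simp
      · rw [h12, hs l i j k h'' hij hjk]; simp

theorem sg8_swapP12 (a b i j k l c d : Fin 8) : sg8 a b i j k l c d = - sg8 a b j i k l c d := by
  unfold sg8
  rw [ep2_swap i j]
  ring

theorem sg8_swap23 (a b i j k l c d : Fin 8) : sg8 a b i j k l c d = - sg8 a b i k j l c d := by
  unfold sg8
  rw [ep2_swap j k]
  ring

theorem sg8_swap34 (a b i j k l c d : Fin 8) : sg8 a b i j k l c d = - sg8 a b i j l k c d := by
  unfold sg8
  rw [ep2_swap k l]
  ring

theorem sg8_self (a b i k l c d : Fin 8) : sg8 a b i i k l c d = 0 := by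
  unfold sg8
  rw [ep2_self i]
  ring

theorem nuA_of_sg {ζ : Fin 8 → Fin 8 → R} {a b i j k l i' j' k' l' : Fin 8}
    (h : ∀ c d, sg8 a b i j k l c d = - sg8 a b i' j' k' l' c d) :
    nuA ζ a b i j k l = - nuA ζ a b i' j' k' l' := by
  unfold nuA
  rw [neg_neg, ← Finset.sum_neg_distrib]
  refine Finset.sum_congr rfl fun c _ => ?_
  rw [← Finset.sum_neg_distrib]
  refine Finset.sum_congr rfl fun d _ => ?_
  split_ifs
  · rw [h c d]; push_cast; ring
  · simp

theorem nuA_self (ζ : Fin 8 → Fin 8 → R) (a b i k l : Fin 8) : nuA ζ a b i i k l = 0 := by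
  unfold nuA
  rw [neg_eq_zero]
  refine Finset.sum_eq_zero fun c _ => Finset.sum_eq_zero fun d _ => ?_
  rw [sg8_self]; simp

/-! ### the relation -/

theorem sum_nu_swap {β : Fin 8 → Fin 8 → R} {ζ : Fin 8 → Fin 8 → R} {i j k l i' j' k' l' : Fin 8}
    (h : ∀ a b, nuA ζ a b i j k l = - nuA ζ a b i' j' k' l') :
    (∑ a, ∑ b, if a < b then β a b * nuA ζ a b i j k l else 0) =
      - ∑ a, ∑ b, if a < b then β a b * nuA ζ a b i' j' k' l' else 0 := by
  rw [← Finset.sum_neg_distrib]
  refine Finset.sum_congr rfl fun c _ => ?_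
  rw [← Finset.sum_neg_distrib]
  refine Finset.sum_congr rfl fun d _ => ?_
  split_ifs
  · rw [h c d]; ring
  · simp

theorem w2_lt (Y : E8 R) {c d : Fin 8} (h : c < d) : w2 Y c d = Y (i2 c d) := by
  unfold w2
  rw [ep2_of_lt h, Int.cast_one, one_mul]

theorem t3_lt (Y : E8 R) {i j k : Fin 8} (h : i < j) (h' : j < k) :
    t3 Y i j k = -(sg3 i j k : R) * Y (i1 i j k) := by
  unfold t3
  rw [ep3_of_lt h h', mul_one]
  push_cast
  ring

theorem t3_rel_sorted {p y : E8 R} (hy : y ∈ Phi p) (h3 : ∀ i, p3 y i = 0) {i j k l : Fin 8}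
    (hij : i < j) (hjk : j < k) (hkl : k < l) :
    p3 p i * t3 y j k l - p3 p j * t3 y i k l + p3 p k * t3 y i j l - p3 p l * t3 y i j k =
      ∑ a, ∑ b, if a < b then w2 y a b * nuA (w2 p) a b i j k l else 0 := by
  set n : Fin 248 := im1 i j k with hn
  set m : Fin 248 := ix l with hm
  have hzn : zdg n = -1 := zdg_im1 i j k hij hjk
  have hzm : zdg m = 3 := zdg_lt8 l
  have hy8 : ∀ b : Fin 248, (b : ℕ) < 8 → y b = 0 := by
    intro b hb
    rw [eq_ix hb]
    exact h3 _
  have h4 : kf y (eb n) = - y (i1 i j k) := by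
    rw [kf_eb, Finset.sum_eq_single (i1 i j k)]
    · rw [kf_all i j k hij hjk, if_pos rfl]
      push_cast
      ring
    · intro b _ hb
      rw [kf_all i j k hij hjk, if_neg hb]
      simp
    · intro h
      exact absurd (Finset.mem_univ _) h
  have h1 : br p (br y (eb n)) m = y (i1 i j k) * p m := by
    have h2 := congrFun (hy.2 (eb n)) m
    rw [h2, Pi.sub_apply, Pi.neg_apply, Pi.smul_apply, Pi.smul_apply, smul_eq_mul, smul_eq_mul,
      hy8 m (by rw [hm, ix_fin]; exact l.2), h4]
    ring
  -- the sum over `a`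
  set F : Fin 248 → R := fun a => ∑ b : Fin 248, (KK n m a b : R) * (p a * y b) with hF
  have hterm : ∀ a b : Fin 248, zdg a + zdg b ≠ 4 → (KK n m a b : R) * (p a * y b) = 0 := by
    intro a b hab
    by_cases hK : KK n m a b = 0
    · rw [hK]; simp
    · exact absurd (by have := KK_zdg hK; omega) hab
  have hterm8 : ∀ a b : Fin 248, (b : ℕ) < 8 → (KK n m a b : R) * (p a * y b) = 0 := by
    intro a b hb
    rw [hy8 b hb]; ring
  have hbig : ∀ a : Fin 248, 36 ≤ (a : ℕ) → F a = 0 := by
    intro a ha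
    refine Finset.sum_eq_zero fun b _ => ?_
    rcases lt_or_ge (b : ℕ) 8 with hb | hb
    · exact hterm8 a b hb
    · refine hterm a b fun h => ?_
      have hb2 := (zd_all b).2.2.2.2.2.1 hb
      have ha2 : zdg a = 2 ∨ zdg a = 3 := by
        have := (zd_all a).2.2.2.2.1
        omega
      rcases ha2 with h5 | h5
      · have := (zd_all a).2.2.1 h5; omega
      · have := (zd_all a).2.2.2.1 h5; omega
  have hsplit : ∑ a : Fin 248, F a = ∑ a : Fin 248, (if (a : ℕ) < 8 then F a else 0) +
      ∑ a : Fin 248, (if (a : ℕ) < 8 then 0 else F a) := by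
    rw [← Finset.sum_add_distrib]
    refine Finset.sum_congr rfl fun a _ => ?_
    split_ifs <;> simp
  have hs1 : ∑ a : Fin 248, (if (a : ℕ) < 8 then F a else 0) = ∑ c : Fin 8, F (ix c) := by
    rw [sum_lt8]
    · refine Finset.sum_congr rfl fun c _ => ?_
      rw [if_pos (by rw [ix_fin]; exact c.2)]
    · intro a ha
      rw [if_neg (by omega)]
  have hs2 : ∑ a : Fin 248, (if (a : ℕ) < 8 then 0 else F a) =
      ∑ c : Fin 8, ∑ d : Fin 8, if c < d then F (i2 c d) else 0 := by
    rw [sum28]
    · refine Finset.sum_congr rfl fun c _ => Finset.sum_congr rfl fun d _ => ?_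
      split_ifs with h5 h6
      · have := (i2_rng c d h5).1; omega
      · rfl
      · rfl
    · intro a ha
      split_ifs with h5
      · rfl
      · exact hbig a (by omega)
  -- degree three
  have hF1 : ∀ c : Fin 8, F (ix c) =
      (if c = i then (KK n m (ix i) (i1 j k l) : R) * (p (ix i) * y (i1 j k l)) else 0) +
      (if c = j then (KK n m (ix j) (i1 i k l) : R) * (p (ix j) * y (i1 i k l)) else 0) +
      (if c = k then (KK n m (ix k) (i1 i j l) : R) * (p (ix k) * y (i1 i j l)) else 0) +
      (if c = l then (KK n m (ix l) (i1 i j k) : R) * (p (ix l) * y (i1 i j k)) else 0) := by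
    intro c
    have hfd : ∀ b : Fin 248, KK n m (ix c : Fin 248) b ≠ 0 →
        (b : ℕ) = fnd (cd m + off + off + off - cd (ix c) - cd n) := by
      intro b hK
      have hz := KK_zdg hK
      have hzc := zdg_lt8 c
      have hb := (zd_all b).1 (by omega)
      have hw := KK_wt hK
      have h6 : cd m + off + off + off - cd (ix c) - cd n = cd b + off := by omega
      rw [h6, fnd_cd (by omega)]
    have hone : ∀ b0 : Fin 248, fnd (cd m + off + off + off - cd (ix c) - cd n) = b0 →
        F (ix c) = (KK n m (ix c : Fin 248) b0 : R) * (p (ix c) * y b0) := by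
      intro b0 hb0
      refine Finset.sum_eq_single b0 (fun b _ hb => ?_) fun h => absurd (Finset.mem_univ _) h
      by_cases hK : KK n m (ix c : Fin 248) b = 0
      · rw [hK]; simp
      · exact absurd (Fin.ext ((hfd b hK).trans hb0)) hb
    have hk1 := k1_all i j k l hij hjk hkl c
    by_cases hci : c = i
    · subst hci
      rw [if_pos rfl] at hk1
      rw [if_pos rfl, if_neg (by omega), if_neg (by omega), if_neg (by omega), add_zero, add_zero,
        add_zero]
      exact hone _ hk1
    · rw [if_neg hci] at hk1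
      by_cases hcj : c = j
      · subst hcj
        rw [if_pos rfl] at hk1
        rw [if_neg hci, if_pos rfl, if_neg (by omega), if_neg (by omega), add_zero, add_zero,
          zero_add]
        exact hone _ hk1
      · rw [if_neg hcj] at hk1
        by_cases hck : c = k
        · subst hck
          rw [if_pos rfl] at hk1
          rw [if_neg hci, if_neg hcj, if_pos rfl, if_neg (by omega), add_zero, add_zero, zero_add]
          exact hone _ hk1
        · rw [if_neg hck] at hk1
          by_cases hcl : c = l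
          · subst hcl
            rw [if_pos rfl] at hk1
            rw [if_neg hci, if_neg hcj, if_neg hck, if_pos rfl, add_zero, add_zero, zero_add]
            exact hone _ hk1
          · rw [if_neg hcl] at hk1
            rw [if_neg hci, if_neg hcj, if_neg hck, if_neg hcl, add_zero, add_zero, add_zero]
            refine Finset.sum_eq_zero fun b _ => ?_
            by_cases hK : KK n m (ix c : Fin 248) b = 0
            · rw [hK]; simp
            · have := hfd b hK
              rw [hk1] at this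
              have := b.2
              omega
  -- degree two
  have hF2 : ∀ c d : Fin 8, c < d → F (i2 c d) =
      ∑ e : Fin 8, ∑ f : Fin 8, if e < f then
        (KK n m (i2 c d) (i2 e f) : R) * (w2 p c d * w2 y e f) else 0 := by
    intro c d hcd
    change ∑ b : Fin 248, (KK n m (i2 c d) b : R) * (p (i2 c d) * y b) = _
    rw [sum28]
    · refine Finset.sum_congr rfl fun e _ => Finset.sum_congr rfl fun f _ => ?_
      split_ifs with hef
      · rw [w2_lt p hcd, w2_lt y hef]
      · rfl
    · intro b hb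
      rcases lt_or_ge (b : ℕ) 8 with hb8 | hb8
      · exact hterm8 _ b hb8
      · refine hterm _ b fun h => ?_
        rw [zdg_i2 c d hcd] at h
        exact hb ((zd_all b).2.2.1 (by omega))
  have hmain : ∑ a, F a = y (i1 i j k) * p m := by
    rw [← h1, br_br_eb]
  obtain ⟨q1, q2, q3, q4⟩ := k0_all i j k l hij hjk hkl
  rw [← hn, ← hm] at q1 q2 q3 q4
  have q1' : -(sg3 i j k : R) * (KK n m (ix i) (i1 j k l) : R) = -(sg3 j k l : R) := by
    exact_mod_cast congrArg (Int.cast : ℤ → R) q1
  have q2' : -(sg3 i j k : R) * (KK n m (ix j) (i1 i k l) : R) = (sg3 i k l : R) := by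
    exact_mod_cast congrArg (Int.cast : ℤ → R) q2
  have q3' : -(sg3 i j k : R) * (KK n m (ix k) (i1 i j l) : R) = -(sg3 i j l : R) := by
    exact_mod_cast congrArg (Int.cast : ℤ → R) q3
  have q4' : -(sg3 i j k : R) * ((KK n m (ix l) (i1 i j k) : R) - 1) = (sg3 i j k : R) := by
    exact_mod_cast congrArg (Int.cast : ℤ → R) q4
  -- the right hand side
  have hR : ∑ a, ∑ b, (if a < b then w2 y a b * nuA (w2 p) a b i j k l else 0) =
      (sg3 i j k : R) * ∑ c : Fin 8, ∑ d : Fin 8, if c < d then F (i2 c d) else 0 := by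
    have e1 : ∀ a b : Fin 8, (if a < b then w2 y a b * nuA (w2 p) a b i j k l else 0) =
        ∑ c : Fin 8, ∑ d : Fin 8, if c < d then (if a < b then
          (sg3 i j k : R) * ((KK n m (i2 c d) (i2 a b) : R) * (w2 p c d * w2 y a b)) else 0)
            else 0 := by
      intro a b
      split_ifs with hab
      · unfold nuA
        rw [← Finset.sum_neg_distrib, Finset.mul_sum]
        refine Finset.sum_congr rfl fun c _ => ?_
        rw [← Finset.sum_neg_distrib, Finset.mul_sum]
        refine Finset.sum_congr rfl fun d _ => ?_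
        split_ifs with hcd
        · have hk2 : -(sg3 i j k : R) * (KK n m (i2 c d) (i2 a b) : R) =
              (sg8 a b i j k l c d : R) := by
            exact_mod_cast congrArg (Int.cast : ℤ → R)
              (k2_all i j k l hij hjk hkl c d hcd a b hab)
          rw [← hk2]
          ring
        · simp
      · simp
    calc ∑ a, ∑ b, (if a < b then w2 y a b * nuA (w2 p) a b i j k l else 0)
        = ∑ a, ∑ b, ∑ c : Fin 8, ∑ d : Fin 8, (if c < d then (if a < b then
          (sg3 i j k : R) * ((KK n m (i2 c d) (i2 a b) : R) * (w2 p c d * w2 y a b)) else 0)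
            else 0) := Finset.sum_congr rfl fun a _ => Finset.sum_congr rfl fun b _ => e1 a b
      _ = ∑ c : Fin 8, ∑ d : Fin 8, ∑ a, ∑ b, (if c < d then (if a < b then
          (sg3 i j k : R) * ((KK n m (i2 c d) (i2 a b) : R) * (w2 p c d * w2 y a b)) else 0)
            else 0) := by
        rw [Finset.sum_congr rfl fun a _ => Finset.sum_comm]
        rw [Finset.sum_comm]
        refine Finset.sum_congr rfl fun c _ => ?_
        rw [Finset.sum_congr rfl fun a _ => Finset.sum_comm]
        rw [Finset.sum_comm]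
      _ = _ := by
        rw [Finset.mul_sum]
        refine Finset.sum_congr rfl fun c _ => ?_
        rw [Finset.mul_sum]
        refine Finset.sum_congr rfl fun d _ => ?_
        split_ifs with hcd
        · rw [hF2 c d hcd, Finset.mul_sum]
          refine Finset.sum_congr rfl fun e _ => ?_
          rw [Finset.mul_sum]
          refine Finset.sum_congr rfl fun f _ => ?_
          split_ifs <;> simp
        · simp
  have hL : ∑ c : Fin 8, F (ix c) =
      (KK n m (ix i) (i1 j k l) : R) * (p (ix i) * y (i1 j k l)) +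
      (KK n m (ix j) (i1 i k l) : R) * (p (ix j) * y (i1 i k l)) +
      (KK n m (ix k) (i1 i j l) : R) * (p (ix k) * y (i1 i j l)) +
      (KK n m (ix l) (i1 i j k) : R) * (p (ix l) * y (i1 i j k)) := by
    rw [Finset.sum_congr rfl fun c _ => hF1 c]
    simp only [Finset.sum_add_distrib, Finset.sum_ite_eq', Finset.mem_univ, if_true]
  rw [hR, t3_lt y hjk hkl, t3_lt y (hij.trans hjk) hkl, t3_lt y hij (hjk.trans hkl),
    t3_lt y hij hjk]
  rw [hsplit, hs1, hs2, hL] at hmain
  unfold p3
  have hpm : p m = p (ix l) := rfl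
  rw [hpm] at hmain
  linear_combination -(sg3 i j k : R) * hmain - (p (ix i) * y (i1 j k l)) * q1' -
    (p (ix j) * y (i1 i k l)) * q2' - (p (ix k) * y (i1 i j l)) * q3' -
    (p (ix l) * y (i1 i j k)) * q4'

theorem t3_rel {p y : E8 R} (hy : y ∈ Phi p) (h3 : ∀ i, p3 y i = 0) (i j k l : Fin 8) :
    p3 p i * t3 y j k l - p3 p j * t3 y i k l + p3 p k * t3 y i j l - p3 p l * t3 y i j k =
      ∑ a, ∑ b, if a < b then w2 y a b * nuA (w2 p) a b i j k l else 0 := by
  rw [← sub_eq_zero]
  refine alt4_zero (fun i j k l => p3 p i * t3 y j k l - p3 p j * t3 y i k l +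
    p3 p k * t3 y i j l - p3 p l * t3 y i j k -
      ∑ a, ∑ b, if a < b then w2 y a b * nuA (w2 p) a b i j k l else 0) ?_ ?_ ?_ ?_ ?_ i j k l
  · intro i j k l
    rw [sum_nu_swap (i' := j) (j' := i) (k' := k) (l' := l)
      fun a b => nuA_of_sg fun c d => sg8_swapP12 a b i j k l c d]
    rw [t3_swapP y i j l, t3_swapP y i j k]
    ring
  · intro i j k l
    rw [sum_nu_swap (i' := i) (j' := k) (k' := j) (l' := l)
      fun a b => nuA_of_sg fun c d => sg8_swap23 a b i j k l c d]
    rw [t3_swapP y j k l, t3_swapP' y i j k]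
    ring
  · intro i j k l
    rw [sum_nu_swap (i' := i) (j' := j) (k' := l) (l' := k)
      fun a b => nuA_of_sg fun c d => sg8_swap34 a b i j k l c d]
    rw [t3_swapP' y j k l, t3_swapP' y i k l]
    ring
  · intro i k l
    have : ∑ a, ∑ b, (if a < b then w2 y a b * nuA (w2 p) a b i i k l else 0) = 0 := by
      refine Finset.sum_eq_zero fun a _ => Finset.sum_eq_zero fun b _ => ?_
      rw [nuA_self]; simp
    rw [this, t3_selfP, t3_selfP]
    ring
  · intro i j k l hij hjk hkl
    rw [sub_eq_zero]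
    exact t3_rel_sorted hy h3 hij hjk hkl

theorem isV2_of_mem {p y : E8 R} (hy : y ∈ Phi p) (h3 : ∀ i, p3 y i = 0) :
    IsV2 (p3 p) (w2 p) (w2 y) (t3 y) where
  b0 := fun i => w2_self y i
  b1 := fun i j => w2_swap y i j
  z0 := fun i k => t3_selfP y i k
  z1 := fun i j k => t3_swapP y i j k
  z2 := fun i j k => t3_swapP' y i j k
  fb := fun j => w2_perp hy h3 j
  fz := fun i j k l => t3_rel hy h3 i j k l

end Pool.Agent.Licci.XE
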