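import Pool.Agent.Work.MP_a98e4e_ag.XE.VeSC
import Pool.Agent.Work.MP_a98e4e_ag.XE.UPhi
import Pool.Agent.Work.MP_a98e4e_ag.L.FormA3

/-!
# LICCI, codimension 6 (XE): elements of `Φ` with given components of degree `2` and `1` (helper33)
-/

set_option autoImplicit false
set_option linter.unusedSectionVars false

namespace Pool.Agent.Licci.XE

open scoped BigOperators
open U (Sup)

universe u

variable {R : Type u} [CommRing R]

/-! ### degree one -/


/-- vectors of degree `≤ 2` with `w2 = 0`, `t3 = 0` have degree `≤ 0` -/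
theorem zdg_of_w2_t3 {y : E8 R} (h3 : ∀ i, p3 y i = 0) (h2 : ∀ i j, w2 y i j = 0)
    (h1 : ∀ i j k, t3 y i j k = 0) (m : Fin 248) (hm : 0 < zdg m) : y m = 0 := by
  have h92 := zdg_one m hm
  rcases lt_or_ge (m : ℕ) 8 with h8 | h8
  · have h := h3 ⟨m, h8⟩
    unfold p3 at h
    rw [← eq_ix h8] at h
    exact h
  · rcases lt_or_ge (m : ℕ) 36 with h36 | h36
    · obtain ⟨i, j, hij, rfl⟩ := i2_surj m h8 h36
      have h := h2 i j
      unfold w2 at h
      rwa [ep2_of_lt hij, Int.cast_one, one_mul] at h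
    · obtain ⟨i, j, k, ⟨hij, hjk⟩, rfl⟩ := i1_surj m h36 h92
      have h := h1 i j k
      unfold t3 at h
      have hs : ((sg3 i j k : ℤ) : R) * ((sg3 i j k : ℤ) : R) = 1 := by
        rw [← Int.cast_mul, sg3_sq, Int.cast_one]
      rw [ep3_of_lt hij hjk, mul_one] at h
      push_cast at h
      linear_combination (-((sg3 i j k : ℤ) : R)) * h - (y (i1 i j k)) * hs

/-! ### additivity -/

theorem t3_add (Y Z : E8 R) (i j k : Fin 8) : t3 (Y + Z) i j k = t3 Y i j k + t3 Z i j k := by
  simp only [t3, Pi.add_apply, mul_add]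

theorem t3_smul (c : R) (Y : E8 R) (i j k : Fin 8) : t3 (c • Y) i j k = c * t3 Y i j k := by
  simp only [t3, Pi.smul_apply, smul_eq_mul]; ring

theorem t3_swap (Y : E8 R) (i j k : Fin 8) : t3 Y i j k = - t3 Y j i k := by
  unfold t3
  rw [i1_swap i j k, sg3_swap i j k, ep3_swap i j k]
  push_cast
  ring

theorem t3_swap' (Y : E8 R) (i j k : Fin 8) : t3 Y i j k = - t3 Y i k j := by
  unfold t3
  rw [i1_swap' i j k, sg3_swap' i j k, ep3_swap' i j k]
  push_cast
  ring

theorem t3_self (Y : E8 R) (i k : Fin 8) : t3 Y i i k = 0 := by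
  unfold t3
  rw [ep3_self]
  simp

/-! ### signs -/

theorem sg8_swap13 (a b i j k l c d : Fin 8) : sg8 a b i j k l c d = - sg8 i b a j k l c d := by
  unfold sg8
  rw [ep2_swap i b, ep2_swap i a, ep2_swap b a]
  ring

theorem sg8_swap12 (a b i j k l c d : Fin 8) : sg8 a b i j k l c d = - sg8 b a i j k l c d := by
  unfold sg8
  rw [ep2_swap b a]
  ring

theorem sg8_swap45 (a b i j k l c d : Fin 8) : sg8 a b i j k l c d = - sg8 a b i k j l c d := by
  unfold sg8
  rw [ep2_swap k j]
  ring

theorem sg8_swap56 (a b i j k l c d : Fin 8) : sg8 a b i j k l c d = - sg8 a b i j l k c d := by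
  unfold sg8
  rw [ep2_swap l k]
  ring

theorem nuA_of_swap (ζ : Fin 8 → Fin 8 → R) {a b i j k l a' b' i' j' k' l' : Fin 8}
    (h : ∀ c d, sg8 a b i j k l c d = - sg8 a' b' i' j' k' l' c d) :
    nuA ζ a b i j k l = - nuA ζ a' b' i' j' k' l' := by
  unfold nuA
  rw [neg_neg, ← Finset.sum_neg_distrib]
  refine Finset.sum_congr rfl fun c _ => ?_
  rw [← Finset.sum_neg_distrib]
  refine Finset.sum_congr rfl fun d _ => ?_
  split_ifs
  · rw [h c d]
    push_cast
    ring
  · exact neg_zero

theorem nuA_of_zero (ζ : Fin 8 → Fin 8 → R) {a b i j k l : Fin 8}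
    (h : ∀ c d, sg8 a b i j k l c d = 0) : nuA ζ a b i j k l = 0 := by
  unfold nuA
  rw [neg_eq_zero]
  refine Finset.sum_eq_zero fun c _ => Finset.sum_eq_zero fun d _ => ?_
  rw [h c d]
  simp

/-! ### brackets with a vector of degree `-1`, component of degree `1` -/

/-- A bracket with a homogeneous vector depends on one component only. -/
theorem br_deg {e : ℤ} {E : E8 R} (hE : Sup zdg e E) {Y Y' : E8 R} {g : ℤ}
    (h : ∀ m, zdg m = g → Y m = Y' m) {m : Fin 248} (hm : zdg m = e + g) :
    br E Y m = br E Y' m := by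
  have h1 : ∀ Z : E8 R, br E Z m = ∑ c, Z c * br E (eb c) m := by
    intro Z
    conv_lhs => rw [E8.eq_sum Z]
    rw [br_sum_right, Finset.sum_apply]
    refine Finset.sum_congr rfl fun c _ => ?_
    rw [br_smul_right, Pi.smul_apply, smul_eq_mul]
  rw [h1, h1]
  refine Finset.sum_congr rfl fun c _ => ?_
  by_cases hc : zdg c = g
  · rw [h c hc]
  · have h2 : Sup zdg (zdg c) (eb c : E8 R) := by
      intro n hn
      rw [eb_apply, if_neg]
      rintro rfl
      exact hn rfl
    have h3 := Sup.br (fun i j k => sc_zdg) hE h2 m (by omega)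
    rw [h3, mul_zero, mul_zero]

theorem E3_sup (i j k : Fin 8) : Sup zdg (-1) (FormB.E3 i j k : E8 R) := by
  intro m hm
  refine alt3_zero (fun i j k => (FormB.E3 i j k : E8 R) m) ?_ ?_ ?_ ?_ i j k
  · intro i j k
    rw [FormB.E3_swap, Pi.neg_apply]
  · intro i j k
    rw [FormB.E3_swap', Pi.neg_apply]
  · intro i k
    rw [FormB.E3_self, Pi.zero_apply]
  · intro i j k hij hjk
    unfold FormB.E3
    rw [Pi.smul_apply, eb_apply, if_neg, smul_zero]
    rintro rfl
    exact hm (zdg_im1 i j k hij hjk)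

/-- component of degree `1` of `[E3 i a b, p]` -/
theorem t3_E3_sorted {i a b j k l : Fin 8} (h1 : i < a) (h2 : a < b) (h3 : j < k) (h4 : k < l)
    (p : E8 R) : t3 (br (FormB.E3 i a b) p) j k l = nuA (w2 p) a b i j k l := by
  have hz1 := zdg_i1 j k l h3 h4
  have e1 : br (FormB.E3 i a b : E8 R) p (i1 j k l) =
      br (FormB.E3 i a b) (W2 (w2 p)) (i1 j k l) := by
    refine br_deg (e := -1) (g := 2) (E3_sup i a b) (fun m hm => ?_) (by rw [hz1]; norm_num)
    obtain ⟨h8, h36⟩ := (FormA3.zd_chk m).2.1 hm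
    obtain ⟨c, d, hcd, rfl⟩ := i2_surj m h8 h36
    rw [W2_apply_i2 _ hcd]
    unfold w2
    rw [ep2_of_lt hcd, Int.cast_one, one_mul]
  unfold t3
  rw [e1]
  unfold W2
  rw [br_sum_right, Finset.sum_apply, Finset.mul_sum]
  unfold nuA
  rw [← Finset.sum_neg_distrib]
  refine Finset.sum_congr rfl fun c _ => ?_
  rw [br_sum_right, Finset.sum_apply, Finset.mul_sum, ← Finset.sum_neg_distrib]
  refine Finset.sum_congr rfl fun d _ => ?_
  by_cases hcd : c < d
  · have e2 : (eb (i2 c d) : E8 R) = FormB.E2 c d := by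
      unfold FormB.E2
      rw [ep2_of_lt hcd, Int.cast_one, one_smul]
    rw [if_pos hcd, if_pos hcd, br_smul_right, Pi.smul_apply, smul_eq_mul, e2, FormB.br_E3_E2,
      Pi.smul_apply, eb_apply, smul_eq_mul, m1w_chk i a b h1 h2 j k l h3 h4 c d hcd,
      ep3_of_lt h3 h4]
    by_cases h5 : ep5 i a b c d = 0
    · rw [if_pos h5, h5]
      simp
    · rw [if_neg h5]
      by_cases h6 : i1 j k l = cpl i a b c d
      · rw [if_pos h6, if_pos h6]
        push_cast
        ring
      · rw [if_neg h6, if_neg h6]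
        simp
  · rw [if_neg hcd, if_neg hcd, br_zero_right, Pi.zero_apply, mul_zero, neg_zero]

theorem t3_E3 (i a b j k l : Fin 8) (p : E8 R) :
    t3 (br (FormB.E3 i a b) p) j k l = nuA (w2 p) a b i j k l := by
  have key : ∀ j k l : Fin 8, j < k → k < l → ∀ i a b : Fin 8,
      t3 (br (FormB.E3 i a b) p) j k l - nuA (w2 p) a b i j k l = 0 := by
    intro j k l h3 h4 i a b
    refine alt3_zero (fun i a b => t3 (br (FormB.E3 i a b) p) j k l - nuA (w2 p) a b i j k l)
      ?_ ?_ ?_ ?_ i a b
    · intro i a b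
      rw [FormB.E3_swap, br_neg_left, nuA_of_swap (w2 p) (fun c d => sg8_swap13 a b i j k l c d)]
      simp only [t3, Pi.neg_apply]
      ring
    · intro i a b
      rw [FormB.E3_swap', br_neg_left, nuA_of_swap (w2 p) (fun c d => sg8_swap12 a b i j k l c d)]
      simp only [t3, Pi.neg_apply]
      ring
    · intro i b
      rw [FormB.E3_self, br_zero_left, nuA_of_zero (w2 p) (fun c d => by simp [sg8, ep2_self])]
      simp [t3]
    · intro i a b h1 h2
      rw [t3_E3_sorted h1 h2 h3 h4, sub_self]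
  rw [← sub_eq_zero]
  refine alt3_zero (fun j k l => t3 (br (FormB.E3 i a b) p) j k l - nuA (w2 p) a b i j k l)
    ?_ ?_ ?_ (fun j k l h3 h4 => key j k l h3 h4 i a b) j k l
  · intro j k l
    rw [t3_swap, nuA_of_swap (w2 p) (fun c d => sg8_swap45 a b i j k l c d)]
    ring
  · intro j k l
    rw [t3_swap', nuA_of_swap (w2 p) (fun c d => sg8_swap56 a b i j k l c d)]
    ring
  · intro j l
    rw [t3_self, nuA_of_zero (w2 p) (fun c d => by simp [sg8, ep2_self]), sub_zero]

/-- component of degree `1` as a linear map -/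
def t3L (j k l : Fin 8) : E8 R →ₗ[R] R where
  toFun Y := t3 Y j k l
  map_add' Y Z := t3_add Y Z j k l
  map_smul' c Y := t3_smul c Y j k l

theorem t3L_apply (j k l : Fin 8) (Y : E8 R) : t3L j k l Y = t3 Y j k l := rfl

theorem t3_M1 (i : Fin 8) (β : Fin 8 → Fin 8 → R) (p : E8 R) (j k l : Fin 8) :
    t3 (br (M1 (wedge12 (Pi.single i 1) β)) p) j k l =
      ∑ a, ∑ b, if a < b then β a b * nuA (w2 p) a b i j k l else 0 := by
  rw [FormB.M1_eq, ← t3L_apply, br_sum_left, map_sum, Finset.sum_eq_single i]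
  · rw [br_sum_left, map_sum]
    refine Finset.sum_congr rfl fun a _ => ?_
    rw [br_sum_left, map_sum]
    refine Finset.sum_congr rfl fun b _ => ?_
    by_cases h : a < b
    · rw [if_pos h, if_pos h, br_smul_left, map_smul, t3L_apply, t3_E3, Pi.single_eq_same, one_mul,
        smul_eq_mul]
    · rw [if_neg h, if_neg h, br_zero_left, map_zero]
  · intro b _ hb
    have h : ∀ a c : Fin 8, ((Pi.single i (1 : R) : Vec R) b * β a c) • (FormB.E3 b a c : E8 R) =
        0 := by
      intro a c
      rw [Pi.single_eq_of_ne hb, zero_mul, zero_smul]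
    simp only [h, ite_self, Finset.sum_const_zero, br_zero_left, map_zero]
  · intro h
    exact absurd (Finset.mem_univ _) h

/-! ### degree `-2` -/

/-- inclusion of `Λ² F` in degree `-2` (only the coefficients with `i < j` are used) -/
def M2w (u : Fin 8 → Fin 8 → R) : E8 R := ∑ c, ∑ d, if c < d then u c d • eb (im2 c d) else 0

theorem M2w_sup (u : Fin 8 → Fin 8 → R) : Sup zdg (-2) (M2w u) := by
  intro m hm
  unfold M2w
  rw [Finset.sum_apply]
  refine Finset.sum_eq_zero fun c _ => ?_
  rw [Finset.sum_apply]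
  refine Finset.sum_eq_zero fun d _ => ?_
  by_cases h : c < d
  · rw [if_pos h, Pi.smul_apply, eb_apply, if_neg, smul_zero]
    rintro rfl
    exact hm (zdg_im2 c d h)
  · rw [if_neg h]
    rfl

theorem t3_im2 {c d j k l : Fin 8} (h : c < d) (h3 : j < k) (h4 : k < l) (p : E8 R) :
    t3 (br (eb (im2 c d)) p) j k l =
      p3 p j * (if c = k ∧ d = l then 1 else 0) - p3 p k * (if c = j ∧ d = l then 1 else 0) +
        p3 p l * (if c = j ∧ d = k then 1 else 0) := by
  have hz1 := zdg_i1 j k l h3 h4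
  have hs : Sup zdg (-2) (eb (im2 c d) : E8 R) := by
    intro n hn
    rw [eb_apply, if_neg]
    rintro rfl
    exact hn (zdg_im2 c d h)
  have e1 : br (eb (im2 c d) : E8 R) p (i1 j k l) =
      br (eb (im2 c d)) (∑ q : Fin 8, p3 p q • (eb (ix q) : E8 R)) (i1 j k l) := by
    refine br_deg (e := -2) (g := 3) hs (fun m hm => ?_) (by rw [hz1]; norm_num)
    have h8 := (FormA3.zd_chk m).1 hm
    rw [Finset.sum_apply, Finset.sum_eq_single (⟨m, h8⟩ : Fin 8)]
    · rw [Pi.smul_apply, eb_apply, if_pos (eq_ix h8), smul_eq_mul, mul_one]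
      show p m = p (ix _)
      rw [← eq_ix h8]
    · intro q _ hq
      rw [Pi.smul_apply, eb_apply, if_neg, smul_zero]
      intro h'
      apply hq
      apply Fin.ext
      have h9 := congrArg Fin.val h'
      rw [ix_fin] at h9
      exact h9.symm
    · intro h'
      exact absurd (Finset.mem_univ _) h'
  have e2 : ∀ m : Fin 8, ((-(sg3 j k l * ep3 j k l) : ℤ) : R) *
      (br (eb (im2 c d) : E8 R) (p3 p m • eb (ix m))) (i1 j k l) =
      p3 p m * (((if m = j ∧ c = k ∧ d = l then 1 else 0) -
        (if m = k ∧ c = j ∧ d = l then 1 else 0) +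
        (if m = l ∧ c = j ∧ d = k then 1 else 0) : ℤ) : R) := by
    intro m
    rw [br_smul_right, Pi.smul_apply, br_eb_eb, smul_eq_mul, ← m2w_chk c d h j k l h3 h4 m,
      ep3_of_lt h3 h4]
    push_cast
    ring
  unfold t3
  rw [e1, br_sum_right, Finset.sum_apply, Finset.mul_sum, Finset.sum_congr rfl fun m _ => e2 m]
  have e3 : ∀ (s : Fin 8) (P : Prop) [Decidable P],
      ∑ m, p3 p m * (if m = s ∧ P then (1 : R) else 0) = p3 p s * (if P then 1 else 0) := by
    intro s P _
    rw [Finset.sum_eq_single s]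
    · simp
    · intro m _ hm
      rw [if_neg (fun h => hm h.1), mul_zero]
    · intro h'
      exact absurd (Finset.mem_univ _) h'
  rw [← e3 j, ← e3 k, ← e3 l, ← Finset.sum_sub_distrib, ← Finset.sum_add_distrib]
  refine Finset.sum_congr rfl fun m _ => ?_
  push_cast
  ring

theorem t3_M2w_sorted {j k l : Fin 8} (h3 : j < k) (h4 : k < l) (u : Fin 8 → Fin 8 → R)
    (p : E8 R) : t3 (br (M2w u) p) j k l =
      p3 p j * u k l - p3 p k * u j l + p3 p l * u j k := by
  have e3 : ∀ (x : R) (s t : Fin 8), s < t →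
      ∑ c, ∑ d, (if c < d then u c d * (x * (if c = s ∧ d = t then (1 : R) else 0)) else 0) =
        x * u s t := by
    intro x s t hst
    rw [Finset.sum_eq_single s, Finset.sum_eq_single t]
    · rw [if_pos hst, if_pos ⟨rfl, rfl⟩]
      ring
    · intro d _ hd
      rw [if_neg (fun h : s = s ∧ d = t => hd h.2), mul_zero, mul_zero, ite_self]
    · intro h'
      exact absurd (Finset.mem_univ _) h'
    · intro c _ hc
      refine Finset.sum_eq_zero fun d _ => ?_
      rw [if_neg (fun h : c = s ∧ d = t => hc h.1), mul_zero, mul_zero, ite_self]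
    · intro h'
      exact absurd (Finset.mem_univ _) h'
  rw [← e3 _ k l h4, ← e3 _ j l (lt_trans h3 h4), ← e3 _ j k h3, ← t3L_apply]
  unfold M2w
  rw [br_sum_left, map_sum, ← Finset.sum_sub_distrib, ← Finset.sum_add_distrib]
  refine Finset.sum_congr rfl fun c _ => ?_
  rw [br_sum_left, map_sum, ← Finset.sum_sub_distrib, ← Finset.sum_add_distrib]
  refine Finset.sum_congr rfl fun d _ => ?_
  by_cases h : c < d
  · rw [if_pos h, if_pos h, if_pos h, if_pos h, br_smul_left, map_smul, t3L_apply,
      t3_im2 h h3 h4, smul_eq_mul]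
    ring
  · rw [if_neg h, if_neg h, if_neg h, if_neg h, br_zero_left, map_zero]
    ring

theorem t3_M2w {u : Fin 8 → Fin 8 → R} (h0 : ∀ i, u i i = 0) (h1 : ∀ i j, u i j = - u j i)
    (p : E8 R) (j k l : Fin 8) : t3 (br (M2w u) p) j k l =
      p3 p j * u k l - p3 p k * u j l + p3 p l * u j k := by
  rw [← sub_eq_zero]
  refine alt3_zero (fun j k l => t3 (br (M2w u) p) j k l -
    (p3 p j * u k l - p3 p k * u j l + p3 p l * u j k)) ?_ ?_ ?_ ?_ j k l
  · intro j k l
    rw [t3_swap, h1 j k]
    ring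
  · intro j k l
    rw [t3_swap', h1 k l]
    ring
  · intro j l
    rw [t3_self, h0]
    ring
  · intro j k l h3 h4
    rw [t3_M2w_sorted h3 h4, sub_self]

/-! ### degree `-3` -/

theorem kf_wqR (p : E8 R) (q : Fin 8) : kf p (wq q) = p3 p q := by
  unfold kf wq
  have e : ∀ i : Fin 248, ∑ j : Fin 248, (kc i j : R) * (p i * (-eb (ix (232 + q)) : E8 R) j) =
      if i = ix q then p i else 0 := by
    intro i
    rw [Finset.sum_eq_single (ix (232 + q))]
    · rw [kc_wq, Pi.neg_apply, eb_apply, if_pos rfl]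
      split_ifs
      · push_cast
        ring
      · push_cast
        ring
    · intro j _ hj
      rw [Pi.neg_apply, eb_apply, if_neg hj]
      ring
    · intro h'
      exact absurd (Finset.mem_univ _) h'
  rw [Finset.sum_congr rfl fun i _ => e i, Finset.sum_ite_eq' Finset.univ (ix q) p,
    if_pos (Finset.mem_univ _)]
  rfl

theorem wq_le (q : Fin 8) : Le zdg (-3) (wq q : E8 R) := by
  intro m hm
  unfold wq
  rw [Pi.neg_apply, eb_apply, if_neg, neg_zero]
  rintro rfl
  rw [zdg_wq] at hm
  omega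

/-! ### elements of `Φ` -/

/-- `y = [p, w]`, `w = - f_i (f_i X - c wq i)`, `X = e^i ∧ β + ι_i z` of degree `-1` and `-2`. -/
theorem exists_w2_t3 [Algebra ℚ R] {p : E8 R} (hc : Cone p) {β : Fin 8 → Fin 8 → R}
    {z : Fin 8 → Fin 8 → Fin 8 → R} (h : IsV2 (p3 p) (w2 p) β z) (i : Fin 8) :
    ∃ y ∈ Phi p, (∀ a, p3 y a = 0) ∧ (∀ a b, w2 y a b = p3 p i ^ 3 * β a b) ∧
      ∀ a b c, t3 y a b c = p3 p i ^ 3 * z a b c := by
  set μ : Fin 8 → Fin 8 → Fin 8 → R := wedge12 (Pi.single i 1) β with hμ
  set X : E8 R := M1 μ + M2w (z i) with hX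
  have hM1 : Le zdg (-1) (M1 μ) := fun m hm => M1_sup μ m (by omega)
  have hM2 : Le zdg (-2) (M2w (z i)) := fun m hm => M2w_sup (z i) m (by omega)
  have hp : Le zdg 3 p := fun m hm => absurd (zdg_le m) (by omega)
  have hXle : Le zdg (-1) X := by
    intro m hm
    rw [hX, Pi.add_apply, hM1 m hm, hM2 m (by omega), add_zero]
  have hd : ∀ i j k, sc i j k ≠ 0 → zdg i + zdg j = zdg k := fun i j k => sc_zdg
  have hXp : Le zdg 2 (br X p) := fun m hm => Le.br hd hXle hp m (by omega)
  have hM2p : Le zdg 1 (br (M2w (z i)) p) := fun m hm => Le.br hd hM2 hp m (by omega)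
  have hwp : Le zdg 0 (br (wq i : E8 R) p) := fun m hm => Le.br hd (wq_le i) hp m (by omega)
  -- the component of degree two
  have hw2 : ∀ a b, w2 (br X p) a b = p3 p i * β a b := by
    intro a b
    have e1 : w2 (br (M2w (z i)) p) a b = 0 := by
      have key : ∀ a b : Fin 8, a < b → w2 (br (M2w (z i)) p) a b = 0 := by
        intro a b hab
        unfold w2
        rw [hM2p _ (by rw [zdg_i2 a b hab]; norm_num), mul_zero]
      rcases lt_trichotomy a b with h1 | h1 | h1
      · exact key a b h1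
      · subst h1
        exact w2_self _ _
      · rw [w2_swap, key b a h1, neg_zero]
    rw [hX, br_add_left, FormA3.w2_add, e1, add_zero, w2_m1 hM1]
    have e2 : ∀ m, t1 (M1 μ) m a b = μ m a b := by
      intro m
      refine t1_M1 μ ?_ ?_ ?_ m a b
      · intro s t
        rw [hμ]
        unfold wedge12
        rw [h.b0 s]
        ring
      · intro s t r
        rw [hμ]
        unfold wedge12
        rw [h.b1 s t]
        ring
      · intro s t r
        rw [hμ]
        unfold wedge12
        rw [h.b1 t r]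
        ring
    simp only [e2]
    have e3 : ∀ m : Fin 8, μ m a b * p (ix m) =
        (Pi.single i (1 : R) : Vec R) m * (p3 p m * β a b) -
          (Pi.single i (1 : R) : Vec R) a * (p3 p m * β m b) +
          (Pi.single i (1 : R) : Vec R) b * (p3 p m * β m a) := by
      intro m
      rw [hμ]
      unfold wedge12
      show _ * p3 p m = _
      ring
    simp only [e3]
    rw [Finset.sum_add_distrib, Finset.sum_sub_distrib, ← Finset.mul_sum, ← Finset.mul_sum,
      h.fb a, h.fb b, mul_zero, mul_zero, sub_zero, add_zero, Finset.sum_eq_single i]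
    · rw [Pi.single_eq_same, one_mul]
    · intro m _ hm
      rw [Pi.single_eq_of_ne hm, zero_mul]
    · intro h'
      exact absurd (Finset.mem_univ _) h'
  -- the component of degree one
  have ht3 : ∀ a b c, t3 (br X p) a b c = p3 p i * z a b c := by
    intro a b c
    rw [hX, br_add_left, t3_add, hμ, t3_M1, t3_M2w (u := z i) (fun j => ?_) (fun j k => h.z2 i j k),
      ← h.fz i a b c]
    · ring
    · have h1 := h.z1 i j j
      rw [h1, h.z2 j i j, h.z0, neg_zero, neg_zero]
  set c : R := kf p X with hcdef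
  set f : R := p3 p i with hf
  have hkw : kf p (-(f • (f • X - c • wq i))) = 0 := by
    rw [kf_neg_right, kf_smul_right, kf_sub_right, kf_smul_right, kf_smul_right, kf_wqR, ← hf,
      ← hcdef]
    ring
  have hy : br p (-(f • (f • X - c • wq i))) = f • (f • br X p - c • br (wq i) p) := by
    rw [br_neg_right, br_skew, neg_neg, br_smul_left, br_sub_left, br_smul_left, br_smul_left]
  refine ⟨br p (-(f • (f • X - c • wq i))), br_mem_Phi hc hkw, ?_, ?_, ?_⟩
  · intro a
    rw [hy]
    show f * (f * br X p (ix a) - c * br (wq i) p (ix a)) = 0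
    rw [hXp _ (by rw [zdg_lt8]; norm_num), hwp _ (by rw [zdg_lt8]; norm_num)]
    ring
  · have key : ∀ a b : Fin 8, a < b → w2 (f • (f • br X p - c • br (wq i) p)) a b =
        f ^ 3 * β a b := by
      intro a b hab
      have h1 := hw2 a b
      unfold w2 at h1 ⊢
      show _ * (f * (f * br X p (i2 a b) - c * br (wq i) p (i2 a b))) = _
      rw [hwp _ (by rw [zdg_i2 a b hab]; norm_num)]
      linear_combination (f ^ 2) * h1
    intro a b
    rw [hy]
    rcases lt_trichotomy a b with h1 | h1 | h1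
    · exact key a b h1
    · subst h1
      rw [w2_self, h.b0, mul_zero]
    · rw [w2_swap, key b a h1, h.b1 a b]
      ring
  · intro a b d
    rw [hy, ← sub_eq_zero]
    refine alt3_zero (fun a b d => t3 (f • (f • br X p - c • br (wq i) p)) a b d -
      f ^ 3 * z a b d) ?_ ?_ ?_ ?_ a b d
    · intro a b d
      rw [t3_swap, h.z1 a b d]
      ring
    · intro a b d
      rw [t3_swap', h.z2 a b d]
      ring
    · intro a d
      rw [t3_self, h.z0, mul_zero, sub_zero]
    · intro a b d hab hbd
      have h1 := ht3 a b d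
      unfold t3 at h1 ⊢
      show _ * (f * (f * br X p (i1 a b d) - c * br (wq i) p (i1 a b d))) - _ = 0
      rw [hwp _ (by rw [zdg_i1 a b d hab hbd]; norm_num)]
      linear_combination (f ^ 2) * h1

end Pool.Agent.Licci.XE
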