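import Pool.Agent.Work.MP_a98e4e_ag.XE.VeN0
import Pool.Agent.Work.MP_a98e4e_ag.XE.VeP
import Pool.Agent.Work.MP_a98e4e_ag.XE.VeS

/-!
# LICCI, codimension 6 (XE): the middle part of `Φ` and the module `V2`
-/

set_option autoImplicit false

namespace Pool.Agent.Licci.XE

open scoped BigOperators

universe u

variable {R : Type u} [CommRing R]

/-- the linear form of `f = p3 p` -/
noncomputable abbrev gf (p : E8 R) : (Fin 8 → R) →ₗ[R] R :=
  ((Pi.basisFun R (Fin 8)).constr ℕ (p3 p) : (Fin 8 → R) →ₗ[R] R)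

section

variable [Algebra ℚ R]

/-- the components of degree `2` and `1` -/
noncomputable def phi2ToV2 (p : E8 R) : Phi2 p →ₗ[R] V2 (gf p) (nuF (w2 p)) where
  toFun y := ⟨(w2 (((y : Phi p) : E8 R)), t3 (((y : Phi p) : E8 R))),
    mem_V2_of (isV2_of_mem y.1.2 y.2)⟩
  map_add' x y := by
    apply Subtype.ext
    refine Prod.ext ?_ ?_
    · funext i j
      exact w2_addN _ _ i j
    · funext i j k
      exact t3_addN _ _ i j k
  map_smul' c y := by
    apply Subtype.ext
    refine Prod.ext ?_ ?_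
    · funext i j
      exact w2_smulN _ _ i j
    · funext i j k
      exact t3_smulN _ _ i j k

theorem phi2ToV2_fst (p : E8 R) (y : Phi2 p) :
    (phi2ToV2 p y).1.1 = w2 (((y : Phi p) : E8 R)) := rfl

theorem phi2ToV2_snd (p : E8 R) (y : Phi2 p) :
    (phi2ToV2 p y).1.2 = t3 (((y : Phi p) : E8 R)) := rfl

theorem phi2ToV2_eq_zero {p : E8 R} {y : Phi2 p} : phi2ToV2 p y = 0 ↔ y ∈ Phi0 p := by
  constructor
  · intro h m hm
    have h2 : w2 (((y : Phi p) : E8 R)) = 0 := congrArg (fun x => x.1.1) h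
    have h1 : t3 (((y : Phi p) : E8 R)) = 0 := congrArg (fun x => x.1.2) h
    exact zdg_of_w2_t3 y.2 (fun i j => congrFun (congrFun h2 i) j)
      (fun i j k => congrFun (congrFun (congrFun h1 i) j) k) m hm
  · intro h
    have hi2 : ∀ i j : Fin 8, i ≠ j → 0 < zdg (i2 i j) := by decide
    have hi1 : ∀ i j k : Fin 8, i ≠ j → i ≠ k → j ≠ k → 0 < zdg (i1 i j k) := by decide
    apply Subtype.ext
    refine Prod.ext ?_ ?_
    · funext i j
      show (ep2 i j : R) * ((y : Phi p) : E8 R) (i2 i j) = 0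
      by_cases hij : i = j
      · subst hij
        simp [ep2]
      · rw [h _ (hi2 i j hij), mul_zero]
    · funext i j k
      show ((-(sg3 i j k * ep3 i j k) : ℤ) : R) * ((y : Phi p) : E8 R) (i1 i j k) = 0
      by_cases hij : i = j
      · subst hij
        simp [ep3]
      by_cases hik : i = k
      · subst hik
        simp [ep3]
      by_cases hjk : j = k
      · subst hjk
        simp [ep3]
      rw [h _ (hi1 i j k hij hik hjk), mul_zero]

/-- the kernel is the part of degree `≤ 0` -/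
theorem ker_phi2ToV2 (p : E8 R) : LinearMap.ker (phi2ToV2 p) = Phi0 p := by
  ext y
  rw [LinearMap.mem_ker]
  exact phi2ToV2_eq_zero

/-- the cokernel is killed by `f_i ^ 3` -/
theorem phi2ToV2_coker {p : E8 R} (hc : Cone p) (i : Fin 8) (x : V2 (gf p) (nuF (w2 p))) :
    ∃ y : Phi2 p, phi2ToV2 p y = p3 p i ^ 3 • x := by
  obtain ⟨⟨β, z⟩, hx⟩ := x
  obtain ⟨y, hy, h3, h2, h1⟩ := exists_w2_t3 hc ((mem_V2_iff _ _ β z).1 hx) i
  refine ⟨⟨⟨y, hy⟩, h3⟩, ?_⟩
  apply Subtype.ext
  refine Prod.ext ?_ ?_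
  · funext a b
    exact h2 a b
  · funext a b c
    exact h1 a b c

end

end Pool.Agent.Licci.XE
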