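import Pool.Agent.Work.MP_a98e4e_ag.XE.UPhi
import Pool.Agent.Work.MP_a98e4e_ag.L.FormA4

/-!
# LICCI, codimension 6 (XE): elements of `Φ (p)` with given component of degree `3`
-/

set_option autoImplicit false

namespace Pool.Agent.Licci.XE

open scoped BigOperators
open U (Sup)

universe u

variable {R : Type u} [CommRing R]

set_option maxRecDepth 100000 in
theorem db_low_chk : ∀ (i : Fin 8) (m : Fin 248), zdg m ≠ -3 → cf (dbN (ix i : Fin 248)) m = 0 := by
  decide +kernel

theorem zdg_le3 (m : Fin 248) : zdg m ≤ 3 := by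
  obtain ⟨-, -, -, h, -⟩ := g_spec m.2
  have := zdN_three m.2
  unfold zdg
  omega

theorem db_apply (i m : Fin 248) : (db i : E8 R) m = (cf (dbN i) m : R) := by
  rw [db, Finset.sum_apply, Finset.sum_eq_single m]
  · simp [eb_apply]
  · intro b _ hb
    simp [eb_apply, Ne.symm hb]
  · intro h
    exact absurd (Finset.mem_univ _) h

theorem db_sup (i : Fin 8) : Sup zdg (-3) (db (ix i) : E8 R) := by
  intro m hm
  rw [db_apply, db_low_chk i m hm, Int.cast_zero]

/-- brackets with an element of degree `-3` have no component of degree `3` -/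
theorem p3_br_low (p : E8 R) {x : E8 R} (hx : Sup zdg (-3) x) (q : Fin 8) : p3 (br p x) q = 0 := by
  change br p x (ix q) = 0
  rw [br_apply]
  refine Finset.sum_eq_zero fun a _ => Finset.sum_eq_zero fun c _ => ?_
  by_cases hs : sc a c (ix q) = 0
  · rw [hs]
    simp
  · have h1 := sc_zdg hs
    rw [zdg_lt8] at h1
    have h2 := zdg_le3 a
    rw [hx c (by omega)]
    ring

theorem exists_p3 [Algebra ℚ R] {p : E8 R} (hc : Cone p) (i : Fin 8) (v : Vec R) :
    ∃ y ∈ Phi p, ∀ j, p3 y j = p3 p i ^ 3 * v j := by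
  have hf : kf p (db (ix i)) = p3 p i := by
    rw [kf_symm, kf_db_apply]
    rfl
  -- the elements with component `f_i ^ 2 e_j`
  set Y : Fin 8 → E8 R := fun j => if j = i then 0 else -bz p (db (ix i)) (Eg j i) with hY
  have hYm : ∀ j, Y j ∈ Phi p := by
    intro j
    rw [hY]
    simp only
    split_ifs
    · exact Submodule.zero_mem _
    · exact Submodule.neg_mem _ (bz_mem hc _ _)
  have hYp : ∀ j, j ≠ i → ∀ q, p3 (Y j) q = if q = j then p3 p i ^ 2 else 0 := by
    intro j hj q
    have h1 : Y j = -bz p (db (ix i)) (Eg j i) := by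
      rw [hY]
      simp only
      rw [if_neg hj]
    have h2 : p3 (br p (Eg j i : E8 R)) q = -(p3 p i * (Pi.single j (1 : R) : Vec R) q) := by
      have h3 := congrFun (p3_Eg hj p) q
      rw [Pi.smul_apply, smul_eq_mul] at h3
      rw [← h3]
      change br p (Eg j i) (ix q) = -(br (Eg j i) p (ix q))
      rw [br_skew]
      rfl
    have h4 : p3 (br p (db (ix i) : E8 R)) q = 0 := p3_br_low p (db_sup i) q
    have h5 : p3 (Y j) q = -(p3 p i * p3 (br p (Eg j i : E8 R)) q -
        kf p (Eg j i) * p3 (br p (db (ix i) : E8 R)) q) := by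
      rw [h1, bz_apply, hf]
      change -(br p (p3 p i • (Eg j i : E8 R) - kf p (Eg j i) • db (ix i)) (ix q)) = _
      rw [br_sub_right, br_smul_right, br_smul_right]
      rfl
    rw [h5, h2, h4]
    split_ifs with hq
    · rw [hq, Pi.single_eq_same]
      ring
    · rw [Pi.single_eq_of_ne hq]
      ring
  refine ⟨(p3 p i ^ 2 * v i) • p + ∑ j, (p3 p i * v j - v i * p3 p j) • Y j, ?_, fun q => ?_⟩
  · exact Submodule.add_mem _ (Submodule.smul_mem _ _ (p_mem_Phi hc))
      (Submodule.sum_mem _ fun j _ => Submodule.smul_mem _ _ (hYm j))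
  · have h6 : p3 ((p3 p i ^ 2 * v i) • p + ∑ j, (p3 p i * v j - v i * p3 p j) • Y j) q =
        p3 p i ^ 2 * v i * p3 p q + ∑ j, (p3 p i * v j - v i * p3 p j) * p3 (Y j) q := by
      change ((p3 p i ^ 2 * v i) • p + ∑ j, (p3 p i * v j - v i * p3 p j) • Y j) (ix q) = _
      rw [Pi.add_apply, Finset.sum_apply]
      rfl
    have hYi : p3 (Y i) q = 0 := by
      have hY0 : Y i = 0 := if_pos rfl
      rw [hY0]
      rfl
    rw [h6]
    have h7 : ∀ j, (p3 p i * v j - v i * p3 p j) * p3 (Y j) q =
        if q = j then (if q = i then 0 else (p3 p i * v q - v i * p3 p q) * p3 p i ^ 2) else 0 := by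
      intro j
      by_cases hj : j = i
      · rw [hj, hYi, mul_zero]
        split_ifs <;> rfl
      · rw [hYp j hj q]
        split_ifs with h8 h9
        · exact absurd (h8.symm.trans h9) hj
        · rw [h8]
        · rw [mul_zero]
    rw [Finset.sum_congr rfl fun j _ => h7 j, Finset.sum_ite_eq Finset.univ q,
      if_pos (Finset.mem_univ _)]
    split_ifs with h8
    · rw [h8]
      ring
    · ring

end Pool.Agent.Licci.XE
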