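import Pool.Agent.Work.MP_a98e4e_ag.XE.PhiDefs
import Pool.Agent.Work.MP_a98e4e_ag.E.Pair
import Pool.Agent.Work.MP_a98e4e_ag.E.Tr0

/-!
# LICCI, codimension 6 (XE): the part of degree `≤ 0` of `Φ` (helper88)
-/

set_option autoImplicit false
set_option linter.unusedSectionVars false

namespace Pool.Agent.Licci.XE

open scoped BigOperators

universe u

variable {R : Type u} [CommRing R]

/-- inclusion of `F^*` in degree `-3`, `u = ∑ u_i e^i`, with `[p, M3 u]` for `f (u) = 0` in Φ0 -/
def M3 (u : Vec R) : E8 R := ∑ i, u i • wq i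

/-! ### tables -/

theorem kc_wqZ : ∀ (q : Fin 8) (a : Fin 248), kc a (ix (232 + q)) = if a = ix q then -1 else 0 := by
  decide +kernel

theorem zdg_wqZ : ∀ q : Fin 8, zdg (ix (232 + q)) = -3 := by decide +kernel

theorem zdg_ix : ∀ q : Fin 8, zdg (ix q) = 3 := by decide +kernel

theorem zdg_neg3 : ∀ m : Fin 248, zdg m = -3 → ∃ q : Fin 8, m = ix (232 + q) := by decide +kernel

theorem wtg_wq : ∀ a b : Fin 8, a ≠ b → wtg b (ix (232 + a)) = -1 := by decide +kernel

theorem ix_wq_inj : ∀ a b : Fin 8, ix (232 + a) = ix (232 + b) → a = b := by decide +kernel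

/-! ### the vectors of degree `-3` -/

theorem kf_wq (p : E8 R) (q : Fin 8) : kf p (wq q) = p3 p q := by
  unfold kf wq p3
  rw [Finset.sum_eq_single (ix q)]
  · rw [Finset.sum_eq_single (ix (232 + q))]
    · rw [kc_wqZ, if_pos rfl, Pi.neg_apply, eb_apply, if_pos rfl]
      push_cast
      ring
    · intro b _ hb
      rw [Pi.neg_apply, eb_apply, if_neg hb]
      ring
    · intro h
      exact absurd (Finset.mem_univ _) h
  · intro a _ ha
    refine Finset.sum_eq_zero fun b _ => ?_
    by_cases hb : b = ix (232 + q)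
    · rw [hb, kc_wqZ, if_neg ha]
      push_cast
      ring
    · rw [Pi.neg_apply, eb_apply, if_neg hb]
      ring
  · intro h
    exact absurd (Finset.mem_univ _) h

theorem kf_M3 (p : E8 R) (u : Vec R) : kf p (M3 u) = ∑ i, p3 p i * u i := by
  unfold M3
  rw [kf_sum_right]
  refine Finset.sum_congr rfl fun i _ => ?_
  rw [kf_smul_right, kf_wq, mul_comm]

theorem M3_apply (u : Vec R) (m : Fin 248) :
    M3 u m = -∑ q : Fin 8, if m = ix (232 + q) then u q else 0 := by
  unfold M3
  rw [Finset.sum_apply, ← Finset.sum_neg_distrib]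
  refine Finset.sum_congr rfl fun q _ => ?_
  rw [Pi.smul_apply, wq, Pi.neg_apply, eb_apply, smul_eq_mul]
  split_ifs <;> ring

theorem M3_wq (u : Vec R) (q : Fin 8) : M3 u (ix (232 + q)) = -u q := by
  rw [M3_apply, Finset.sum_eq_single q]
  · rw [if_pos rfl]
  · intro b _ hb
    rw [if_neg fun h => hb (ix_wq_inj q b h).symm]
  · intro h
    exact absurd (Finset.mem_univ _) h

theorem Le_M3 (u : Vec R) : Le zdg (-3) (M3 u) := by
  intro m hm
  rw [M3_apply, neg_eq_zero]
  refine Finset.sum_eq_zero fun q _ => ?_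
  rw [if_neg]
  rintro rfl
  rw [zdg_wqZ] at hm
  exact lt_irrefl _ hm

theorem M3_add (u v : Vec R) : M3 (u + v) = M3 u + M3 v := by
  unfold M3
  rw [← Finset.sum_add_distrib]
  refine Finset.sum_congr rfl fun i _ => ?_
  rw [Pi.add_apply, add_smul]

theorem M3_smul (c : R) (u : Vec R) : M3 (c • u) = c • M3 u := by
  unfold M3
  rw [Finset.smul_sum]
  refine Finset.sum_congr rfl fun i _ => ?_
  rw [Pi.smul_apply, smul_eq_mul, mul_smul]

theorem M3_neg (u : Vec R) : M3 (-u) = -M3 u := by
  have h := M3_smul (-1 : R) u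
  simpa using h

/-- a vector supported in degrees `≤ -3` is in degree `-3` -/
theorem eq_M3 {y : E8 R} (hy : Le zdg (-3) y) : y = M3 fun q => -y (ix (232 + q)) := by
  funext m
  by_cases hm : zdg m = -3
  · obtain ⟨q, rfl⟩ := zdg_neg3 m hm
    rw [M3_wq, neg_neg]
  · have h1 := zdg_ge m
    rw [hy m (by omega), Le_M3 _ m (by omega)]

theorem M3_injective {u v : Vec R} (h : M3 u = M3 v) : u = v := by
  funext q
  have h1 := congrFun h (ix (232 + q))
  rw [M3_wq, M3_wq] at h1
  exact neg_injective h1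

theorem wq_eq_M3 (q : Fin 8) : (wq q : E8 R) = M3 (Pi.single q 1) := by
  unfold M3
  rw [Finset.sum_eq_single q]
  · rw [Pi.single_eq_same, one_smul]
  · intro b _ hb
    rw [Pi.single_eq_of_ne hb, zero_smul]
  · intro h
    exact absurd (Finset.mem_univ _) h

theorem Le_top (p : E8 R) : Le zdg 3 p := fun m hm => absurd (zdg_le m) (not_le.2 hm)

theorem Le_wq (q : Fin 8) : Le zdg (-3) (wq q : E8 R) := by
  rw [wq_eq_M3]
  exact Le_M3 _

/-- two vectors of degree `-3` commute -/
theorem br_low {x y : E8 R} (hx : Le zdg (-3) x) (hy : Le zdg (-3) y) : br x y = 0 := by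
  have h := Le.br (fun _ _ _ => sc_zdg) hx hy
  funext m
  exact h m (by have := zdg_ge m; omega)

/-- the polarized cone identity for two of the vectors `wq` -/
theorem wq_wq [Algebra ℚ R] (a b : Fin 8) (z : E8 R) :
    br (wq a) (br (wq b) z) = -(kf (wq b) z • wq a) - kf (wq a) z • wq b := by
  by_cases hab : a = b
  · subst hab
    rw [cone_wq a z]
    module
  · have hcomm : br (wq a : E8 R) (wq b) = 0 := br_low (Le_wq a) (Le_wq b)
    set E : E8 R := br (wq a) (eb (ix b)) with hE
    have hEb : br E (wq b) = wq a := by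
      rw [hE, br_br_skew, hcomm, br_zero_right, sub_zero]
      have h1 : br (eb (ix b)) (wq b) = (hq b : E8 R) := rfl
      rw [h1, br_skew]
      funext m
      rw [Pi.neg_apply, br_hq]
      by_cases hm : m = ix (232 + a)
      · rw [hm, wtg_wq a b hab]
        push_cast
        ring
      · rw [wq, Pi.neg_apply, eb_apply, if_neg hm]
        ring
    -- derivative of the cone identity
    have h1 : br E (br (wq b) (br (wq b) z)) = (-(2 * kf (wq b) z)) • wq a := by
      rw [cone_wq b z, br_smul_right, hEb]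
    rw [jacobi E (wq b) (br (wq b) z), hEb, jacobi E (wq b) z, hEb, br_add_right,
      cone_wq b (br E z)] at h1
    have h2 : kf (wq b) (br E z) = -kf (wq a) z := by
      rw [← hEb, ← kf_inv, br_skew (wq b) E, kf_neg_left]
    have h3 : br (wq b) (br (wq a) z) = br (wq a) (br (wq b) z) := by
      have := jacobi (wq a) (wq b) z
      rw [hcomm, br_zero_left, zero_add] at this
      exact this.symm
    rw [h2, h3] at h1
    apply smul_two_cancel
    have h4 : (2 : R) • br (wq a) (br (wq b) z) = (-(2 * kf (wq b) z)) • wq a -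
        (-(2 * -kf (wq a) z)) • wq b := by
      rw [← h1]
      module
    rw [h4]
    module

theorem M3_M3 [Algebra ℚ R] (u v : Vec R) (z : E8 R) :
    br (M3 u) (br (M3 v) z) = -(kf (M3 v) z • M3 u) - kf (M3 u) z • M3 v := by
  have h1 : ∀ (a : Fin 8) (v : Vec R), br (wq a) (br (M3 v) z) =
      -(kf (M3 v) z • wq a) - kf (wq a) z • M3 v := by
    intro a v
    have e1 : br (M3 v) z = ∑ b, v b • br (wq b) z := by
      unfold M3
      rw [br_sum_left]
      exact Finset.sum_congr rfl fun b _ => br_smul_left _ _ _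
    have e2 : kf (M3 v) z = ∑ b, v b * kf (wq b) z := by
      unfold M3
      rw [kf_sum_left]
      exact Finset.sum_congr rfl fun b _ => kf_smul_left _ _ _
    rw [e1, br_sum_right, e2, Finset.sum_smul, ← Finset.sum_neg_distrib]
    conv_rhs => rw [M3, Finset.smul_sum]
    rw [← Finset.sum_sub_distrib]
    refine Finset.sum_congr rfl fun b _ => ?_
    rw [br_smul_right, wq_wq]
    module
  have e1 : br (M3 u) (br (M3 v) z) = ∑ a, u a • br (wq a) (br (M3 v) z) := by
    conv_lhs => rw [M3]
    rw [br_sum_left]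
    exact Finset.sum_congr rfl fun b _ => br_smul_left _ _ _
  have e2 : kf (M3 u) z = ∑ a, u a * kf (wq a) z := by
    conv_lhs => rw [M3]
    rw [kf_sum_left]
    exact Finset.sum_congr rfl fun b _ => kf_smul_left _ _ _
  have e3 : kf (M3 v) z • M3 u = ∑ a, kf (M3 v) z • u a • wq a := by
    change kf (M3 v) z • (∑ a, u a • wq a) = _
    rw [Finset.smul_sum]
  rw [e1, e2, e3, Finset.sum_smul, ← Finset.sum_neg_distrib, ← Finset.sum_sub_distrib]
  refine Finset.sum_congr rfl fun a _ => ?_
  rw [h1]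
  module

/-- `[[p, u], v] = - f (v) u - f (u) v` -/
theorem br_br_M3 [Algebra ℚ R] (p : E8 R) (u v : Vec R) :
    br (br p (M3 u)) (M3 v) = -(kf p (M3 v) • M3 u) - kf p (M3 u) • M3 v := by
  rw [br_br_skew, br_low (Le_M3 u) (Le_M3 v), br_zero_right, zero_sub, br_skew p (M3 v),
    br_neg_right, neg_neg, M3_M3, kf_symm, kf_symm (M3 u) p]

/-! ### brackets with `p` -/

theorem br_M3_mem_Phi [Algebra ℚ R] {p : E8 R} (hc : Cone p) {w : E8 R} (hw : kf p w = 0) :
    br p w ∈ Phi p := by
  refine ⟨?_, fun w' => ?_⟩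
  · rw [hc w, hw]
    simp
  · rw [br_br_skew, br_sub_right, hc, hc.PEP, hw, ← kf_inv, br_skew w p]
    module

theorem Le_br_M3 (p : E8 R) (u : Vec R) : Le zdg 0 (br p (M3 u)) := by
  have h := Le.br (fun _ _ _ => sc_zdg) (Le_top p) (Le_M3 u)
  intro m hm
  exact h m (by omega)

/-- the linear form of `p` on `R^8` -/
noncomputable abbrev fF (p : E8 R) : (Fin 8 → R) →ₗ[R] R := (Pi.basisFun R (Fin 8)).constr ℕ (p3 p)

theorem fF_apply (p : E8 R) (u : Vec R) : fF p u = kf p (M3 u) := by
  rw [kf_M3, Module.Basis.constr_apply_fintype]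
  refine Finset.sum_congr rfl fun i _ => ?_
  rw [smul_eq_mul, mul_comm]
  rfl

/-- `u ↦ [p, u]` -/
noncomputable def zMap [Algebra ℚ R] {p : E8 R} (hc : Cone p) : LinearMap.ker (fF p) →ₗ[R] Phi0 p where
  toFun u := ⟨⟨⟨br p (M3 u.1), br_M3_mem_Phi hc (by rw [← fF_apply]; exact u.2)⟩,
    fun i => Le_br_M3 p u.1 _ (by rw [zdg_ix]; norm_num)⟩, fun m hm => Le_br_M3 p u.1 m hm⟩
  map_add' u v := by
    apply Subtype.ext
    apply Subtype.ext
    apply Subtype.ext
    change br p (M3 (u.1 + v.1)) = br p (M3 u.1) + br p (M3 v.1)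
    rw [M3_add, br_add_right]
  map_smul' c u := by
    apply Subtype.ext
    apply Subtype.ext
    apply Subtype.ext
    change br p (M3 (c • u.1)) = c • br p (M3 u.1)
    rw [M3_smul, br_smul_right]

theorem zMap_coe [Algebra ℚ R] {p : E8 R} (hc : Cone p) (u : LinearMap.ker (fF p)) :
    (((zMap hc u : Phi2 p) : Phi p) : E8 R) = br p (M3 u.1) := rfl

/-- the component of degree `-3` of `[y, wq i]` -/
def low (i : Fin 8) (y : E8 R) : Vec R := fun q => -br y (wq i) (ix (232 + q))

theorem low_spec {y : E8 R} (hy : ∀ m : Fin 248, 0 < zdg m → y m = 0) (i : Fin 8) :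
    br y (wq i) = M3 (low i y) := by
  have h := Le.br (fun _ _ _ => sc_zdg) (a := 0) (b := -3) (x := y) (y := wq i) (fun m hm => hy m hm)
    (Le_wq i)
  exact eq_M3 fun m hm => h m (by omega)

theorem smul_eq_of_mem {p y : E8 R} (hy : y ∈ Phi p) (h3 : ∀ i, p3 y i = 0)
    (h0 : ∀ m : Fin 248, 0 < zdg m → y m = 0) (i : Fin 8) :
    p3 p i • y = -br p (M3 (low i y)) := by
  have h := hy.2 (wq i)
  rw [kf_wq, kf_wq, h3 i, zero_smul, sub_zero, low_spec h0] at h
  rw [h, neg_neg]

theorem fF_low {p y : E8 R} (hy : y ∈ Phi p) (h0 : ∀ m : Fin 248, 0 < zdg m → y m = 0)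
    (i : Fin 8) : kf p (M3 (low i y)) = 0 := by
  rw [← low_spec h0, ← kf_inv, hy.1, kf_zero_left]

/-- `f` has grade at least `2` -/
def Gr2 (f : Vec R) : Prop := ∀ a b : R, b ≠ 0 → (∀ i, b ∣ f i * a) → b ∣ a

/-- `u ↦ [p, u]`, onto because `(p, w) y = - [p, [y, w]]` for `w` of degree `-3` (`[y, w]` is then of
degree `-3` too) and `f` has grade `2` -/
theorem exists_phi0Equiv [IsDomain R] [Algebra ℚ R] {p : E8 R} (hc : Cone p) (h0 : ∃ i, p3 p i ≠ 0)
    (hg : Gr2 (p3 p)) :
    ∃ e : LinearMap.ker ((Pi.basisFun R (Fin 8)).constr ℕ (p3 p) : (Fin 8 → R) →ₗ[R] R) ≃ₗ[R]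
      Phi0 p, ∀ u, (((e u : Phi2 p) : Phi p) : E8 R) = br p (M3 u.1) := by
  obtain ⟨i₀, hi₀⟩ := h0
  have hbij : Function.Bijective (zMap hc) := by
    constructor
    · rw [injective_iff_map_eq_zero]
      intro u hu
      have h1 : br p (M3 u.1) = 0 := by
        rw [← zMap_coe hc u, hu]
        rfl
      have h2 : kf p (M3 u.1) = 0 := by
        rw [← fF_apply]
        exact u.2
      have h3 := br_br_M3 p u.1 (Pi.single i₀ 1)
      rw [h1, br_zero_left, h2, zero_smul, sub_zero, ← wq_eq_M3, kf_wq, ← M3_smul, ← M3_neg] at h3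
      have h4 : (0 : E8 R) = M3 0 := by
        have := M3_smul (0 : R) (0 : Vec R)
        simpa using this.symm
      have h5 := M3_injective (h4.symm.trans h3)
      apply Subtype.ext
      funext q
      have h6 := congrFun h5 q
      rw [Pi.neg_apply, Pi.smul_apply, smul_eq_mul, Pi.zero_apply] at h6
      have h7 : p3 p i₀ * u.1 q = 0 := neg_eq_zero.1 h6.symm
      exact (mul_eq_zero.1 h7).resolve_left hi₀
    · intro y
      have hyP : (((y : Phi2 p) : Phi p) : E8 R) ∈ Phi p := ((y : Phi2 p) : Phi p).2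
      have hy3 : ∀ i, p3 (((y : Phi2 p) : Phi p) : E8 R) i = 0 := (y : Phi2 p).2
      have hy0 : ∀ m : Fin 248, 0 < zdg m → (((y : Phi2 p) : Phi p) : E8 R) m = 0 := y.2
      set Y : E8 R := (((y : Phi2 p) : Phi p) : E8 R) with hY
      have hs := smul_eq_of_mem hyP hy3 hy0
      have hf := fF_low hyP hy0
      -- proportionality
      have hprop : ∀ i j, p3 p i • low j Y = p3 p j • low i Y := by
        intro i j
        apply M3_injective
        rw [M3_smul, M3_smul, ← low_spec hy0 j, ← br_smul_left, hs i, br_neg_left]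
        have h1 := br_br_M3 p (low i Y) (Pi.single j 1)
        rw [← wq_eq_M3, kf_wq, hf i, zero_smul, sub_zero] at h1
        rw [h1, neg_neg]
      have hdvd : ∀ k, p3 p i₀ ∣ low i₀ Y k := by
        intro k
        refine hg _ _ hi₀ fun i => ?_
        have := congrFun (hprop i i₀) k
        rw [Pi.smul_apply, Pi.smul_apply, smul_eq_mul, smul_eq_mul] at this
        exact ⟨low i Y k, this⟩
      choose c hc' using hdvd
      have hlow : low i₀ Y = p3 p i₀ • c := by
        funext k
        rw [hc' k, Pi.smul_apply, smul_eq_mul]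
      have hcf : kf p (M3 c) = 0 := by
        have := hf i₀
        rw [hlow, M3_smul, kf_smul_right] at this
        exact (mul_eq_zero.1 this).resolve_left hi₀
      refine ⟨⟨-c, ?_⟩, ?_⟩
      · rw [LinearMap.mem_ker, fF_apply, M3_neg, kf_neg_right, hcf, neg_zero]
      · apply Subtype.ext
        apply Subtype.ext
        apply Subtype.ext
        change br p (M3 (-c)) = Y
        have h1 := hs i₀
        rw [hlow, M3_smul, br_smul_right, ← smul_neg] at h1
        rw [M3_neg, br_neg_right]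
        funext m
        have h2 := congrFun h1 m
        rw [Pi.smul_apply, Pi.smul_apply, smul_eq_mul, smul_eq_mul] at h2
        exact (mul_left_cancel₀ hi₀ h2).symm
  exact ⟨LinearEquiv.ofBijective (zMap hc) hbij, fun u => rfl⟩

/-- extension of linear forms from `Φ0` to `Φ2`, up to `f_i ^ 2`:
`T y = ∓ [p, f_i u - f (u) e^i]`, `u` = component of degree `-3` of `[y, wq i]` -/
theorem exists_ext0 [IsDomain R] [Algebra ℚ R] {p : E8 R} (hc : Cone p) (i : Fin 8) :
    ∃ T : Phi2 p →ₗ[R] Phi0 p, ∀ y : Phi0 p, T (y : Phi2 p) = p3 p i ^ 2 • y := by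
  let L : Phi2 p →ₗ[R] LinearMap.ker (fF p) :=
    { toFun := fun y => ⟨kf p (M3 (low i (y : E8 R))) • Pi.single i 1 - p3 p i • low i (y : E8 R), by
        rw [LinearMap.mem_ker, map_sub, map_smul, map_smul, fF_apply, fF_apply, ← wq_eq_M3, kf_wq,
          smul_eq_mul, smul_eq_mul]
        ring⟩
      map_add' := fun y z => by
        apply Subtype.ext
        have h1 : low i (((y + z : Phi2 p) : Phi p) : E8 R) = low i ((y : Phi p) : E8 R) +
            low i ((z : Phi p) : E8 R) := by
          funext q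
          change -br (((y : Phi p) : E8 R) + ((z : Phi p) : E8 R)) (wq i) _ = _
          rw [br_add_left, Pi.add_apply, neg_add]
          rfl
        change kf p (M3 (low i (((y + z : Phi2 p) : Phi p) : E8 R))) • Pi.single i 1 -
          p3 p i • low i (((y + z : Phi2 p) : Phi p) : E8 R) =
          (kf p (M3 (low i ((y : Phi p) : E8 R))) • Pi.single i 1 -
            p3 p i • low i ((y : Phi p) : E8 R)) +
          (kf p (M3 (low i ((z : Phi p) : E8 R))) • Pi.single i 1 -
            p3 p i • low i ((z : Phi p) : E8 R))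
        rw [h1, M3_add, kf_add_right]
        module
      map_smul' := fun c y => by
        apply Subtype.ext
        have h1 : low i (((c • y : Phi2 p) : Phi p) : E8 R) = c • low i ((y : Phi p) : E8 R) := by
          funext q
          change -br (c • ((y : Phi p) : E8 R)) (wq i) _ = _
          rw [br_smul_left, Pi.smul_apply, ← smul_neg]
          rfl
        change kf p (M3 (low i (((c • y : Phi2 p) : Phi p) : E8 R))) • Pi.single i 1 -
          p3 p i • low i (((c • y : Phi2 p) : Phi p) : E8 R) =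
          c • (kf p (M3 (low i ((y : Phi p) : E8 R))) • Pi.single i 1 -
            p3 p i • low i ((y : Phi p) : E8 R))
        rw [h1, M3_smul, kf_smul_right]
        module }
  refine ⟨zMap hc ∘ₗ L, fun y => ?_⟩
  have hyP : (((y : Phi2 p) : Phi p) : E8 R) ∈ Phi p := ((y : Phi2 p) : Phi p).2
  have hy3 : ∀ i, p3 (((y : Phi2 p) : Phi p) : E8 R) i = 0 := (y : Phi2 p).2
  have hy0 : ∀ m : Fin 248, 0 < zdg m → (((y : Phi2 p) : Phi p) : E8 R) m = 0 := y.2
  apply Subtype.ext
  apply Subtype.ext
  apply Subtype.ext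
  change br p (M3 (kf p (M3 (low i (((y : Phi2 p) : Phi p) : E8 R))) • Pi.single i 1 -
    p3 p i • low i (((y : Phi2 p) : Phi p) : E8 R))) =
    p3 p i ^ 2 • (((y : Phi2 p) : Phi p) : E8 R)
  rw [fF_low hyP hy0, zero_smul, zero_sub, M3_neg, br_neg_right, M3_smul, br_smul_right,
    ← smul_neg, ← smul_eq_of_mem hyP hy3 hy0, smul_smul, sq]

end Pool.Agent.Licci.XE
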