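import Pool.Agent.Work.MP_a98e4e_ag.XE.Ve4
import Pool.Agent.Work.MP_a98e4e_ag.XE.VeN
import Pool.Agent.Work.MP_a98e4e_ag.XE.VeS3
import Pool.Agent.Work.MP_a98e4e_ag.XE.VeZ
import Pool.Agent.Work.MP_a98e4e_ag.XE.UPhi

/-!
# LICCI, codimension 6 (XE): `Ext ^ 2 (V*, R) = Ext ^ 3 (V*, R) = 0` for `V = Φ / R p`
-/

set_option autoImplicit false

namespace Pool.Agent.Licci.XE

open IsLocalRing

universe u

variable {R : Type u} [CommRing R]

/-- the linear form with coefficients `f` -/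
noncomputable abbrev lf (f : Fin 8 → R) : (Fin 8 → R) →ₗ[R] R :=
  (Pi.basisFun R (Fin 8)).constr ℕ f

/-- (instance search does not find this one) -/
noncomputable instance addCommGroupPhi0 (p : E8 R) : AddCommGroup (Phi0 p) :=
  Module.addCommMonoidToAddCommGroup R

/-- the component of degree `3` on `Φ` -/
def top3 (p : E8 R) : Phi p →ₗ[R] (Fin 8 → R) where
  toFun y := p3 (y : E8 R)
  map_add' _ _ := rfl
  map_smul' _ _ := rfl

theorem top3_exact (p : E8 R) : Function.Exact (Phi2 p).subtype (top3 p) := by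
  intro y
  constructor
  · intro h
    exact ⟨⟨y, fun i => congrFun h i⟩, rfl⟩
  · rintro ⟨y, rfl⟩
    funext i
    exact y.2 i

section

variable [IsDomain R] [IsLocalRing R] [IsNoetherianRing R] [Algebra ℚ R]

/-- the dual of the part of degree `≤ 0` -/
theorem H23_dual_Phi0 (hd : Depth6 R) {p : E8 R} (hc : Cone p)
    (hI : ∃ k, maximalIdeal R ^ k ≤ Ideal.span (Set.range (p3 p))) :
    H23 R (Module.Dual R (Phi0 p)) := by
  have hg : Gr2 (p3 p) := fun a b hb h => gr2_of hd (p3 p) hI hb h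
  have h0 : ∃ i, p3 p i ≠ 0 := by
    by_contra hcon
    push Not at hcon
    obtain ⟨k, hk⟩ := hI
    obtain ⟨r, hr, hr0⟩ := exists_mem_pow_ne_zero hd k
    have h1 := hk hr
    have h2 : Ideal.span (Set.range (p3 p)) = ⊥ := by
      rw [Ideal.span_eq_bot]
      rintro _ ⟨i, rfl⟩
      exact hcon i
    rw [h2] at h1
    exact hr0 h1
  obtain ⟨e, -⟩ := exists_phi0Equiv hc h0 hg
  have hT : Tors R (R ⧸ LinearMap.range (lf (p3 p))) := by
    obtain ⟨k, hk⟩ := hI
    refine ⟨k, fun r hr x => ?_⟩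
    obtain ⟨y, rfl⟩ := Submodule.Quotient.mk_surjective _ x
    rw [← Submodule.Quotient.mk_smul, Submodule.Quotient.mk_eq_zero, range_constr]
    rw [smul_eq_mul, mul_comm]
    exact Ideal.mul_mem_left _ _ (hk hr)
  have h3 : H23 R (Module.Dual R (LinearMap.ker (lf (p3 p)))) :=
    H23.step3 hd (f := (LinearMap.ker (lf (p3 p))).subtype) (q := lf (p3 p))
      (Submodule.injective_subtype _) (LinearMap.exact_subtype_ker_map _) hT
  exact h3.congr e.symm.dualMap

/-- the dual of the part of degree `≤ 2` -/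
theorem H23_dual_Phi2 (hd : Depth6 R) {p : E8 R} (hc : Cone p)
    (hI : ∃ k, maximalIdeal R ^ k ≤ Ideal.span (Set.range (p3 p)))
    (hV : H23 R (Module.Dual R (V2 (lf (p3 p)) (nuF (w2 p))))) :
    H23 R (Module.Dual R (Phi2 p)) := by
  have hN : IsNoetherian R (Phi0 p) := inferInstance
  refine H23.step2 (A := Phi0 p) (B := Phi2 p) (F := V2 (lf (p3 p)) (nuF (w2 p))) hd
    (f := (Phi0 p).subtype) (q := phi2ToV2 p) ?_ ?_ hV
    (H23_dual_Phi0 hd hc hI) ?_
  · intro y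
    rw [phi2ToV2_eq_zero]
    exact ⟨fun h => ⟨⟨y, h⟩, rfl⟩, by rintro ⟨y, rfl⟩; exact y.2⟩
  · refine tors_of_local (p3 p) hI 3 fun i x => ?_
    obtain ⟨y, rfl⟩ := Submodule.Quotient.mk_surjective _ x
    rw [← Submodule.Quotient.mk_smul, Submodule.Quotient.mk_eq_zero]
    obtain ⟨z, hz⟩ := phi2ToV2_coker hc i y
    exact ⟨z, hz⟩
  · refine tors_of_local (p3 p) hI 2 fun i x => ?_
    obtain ⟨ψ, rfl⟩ := Submodule.Quotient.mk_surjective _ x
    rw [← Submodule.Quotient.mk_smul, Submodule.Quotient.mk_eq_zero]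
    obtain ⟨T, hT⟩ := exists_ext0 hc i
    refine ⟨ψ ∘ₗ T, ?_⟩
    ext y
    rw [LinearMap.dualMap_apply]
    show ψ (T (y : Phi2 p)) = p3 p i ^ 2 • ψ y
    rw [hT y, map_smul]

/-- the dual of `Φ` -/
theorem H23_dual_Phi (hd : Depth6 R) {p : E8 R} (hc : Cone p)
    (hI : ∃ k, maximalIdeal R ^ k ≤ Ideal.span (Set.range (p3 p)))
    (hV : H23 R (Module.Dual R (V2 (lf (p3 p)) (nuF (w2 p))))) :
    H23 R (Module.Dual R (Phi p)) := by
  have h2 := H23_dual_Phi2 hd hc hI hV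
  refine H23.step1 (A := Phi2 p) (B := Phi p) hd (f := (Phi2 p).subtype) (q := top3 p)
    (Submodule.injective_subtype _) (top3_exact p) ?_ h2
  refine tors_of_local (p3 p) hI 3 fun i x => ?_
  obtain ⟨v, rfl⟩ := Submodule.Quotient.mk_surjective _ x
  rw [← Submodule.Quotient.mk_smul, Submodule.Quotient.mk_eq_zero]
  obtain ⟨y, hy, hv⟩ := exists_p3 hc i v
  exact ⟨⟨y, hy⟩, funext hv⟩

/-- the dual of `V = Φ / R p` -/
theorem H23_dual_VR (hd : Depth6 R) {p : E8 R} (hc : Cone p)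
    (hI : ∃ k, maximalIdeal R ^ k ≤ Ideal.span (Set.range (p3 p)))
    (hV : H23 R (Module.Dual R (V2 (lf (p3 p)) (nuF (w2 p))))) :
    H23 R (Module.Dual R (VR p)) := by
  set p' : Phi p := ⟨p, p_mem_Phi hc⟩ with hp'
  refine H23.step4 hd p' _ ?_ ?_ (H23_dual_Phi hd hc hI hV)
  · apply le_antisymm
    · intro y hy
      obtain ⟨c, hc'⟩ := Submodule.mem_span_singleton.1 hy
      exact Submodule.mem_span_singleton.2 ⟨c, Subtype.ext hc'⟩
    · rw [Submodule.span_le]
      rintro _ rfl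
      exact Submodule.mem_span_singleton_self p
  · obtain ⟨k, hk⟩ := hI
    refine ⟨k, fun r hr x => ?_⟩
    obtain ⟨y, rfl⟩ := Submodule.Quotient.mk_surjective _ x
    rw [← Submodule.Quotient.mk_smul, Submodule.Quotient.mk_eq_zero, smul_eq_mul, mul_comm]
    refine Ideal.mul_mem_left (LinearMap.range (LinearMap.applyₗ (R := R) p' :
      Module.Dual R (Phi p) →ₗ[R] R)) y ?_
    have h1 : Ideal.span (Set.range (p3 p)) ≤ LinearMap.range (LinearMap.applyₗ (R := R) p' :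
        Module.Dual R (Phi p) →ₗ[R] R) := by
      refine Submodule.span_le.2 ?_
      rintro _ ⟨i, rfl⟩
      exact ⟨LinearMap.proj i ∘ₗ top3 p, rfl⟩
    exact h1 (hk hr)

/-- the final form, with the hypotheses on `f` and `ζ` of the ideal side -/
theorem H23_dual_VR' (hd : Depth6 R) {p : E8 R} (hc : Cone p)
    (hI : ∃ k, maximalIdeal R ^ k ≤ Ideal.span (Set.range (p3 p)))
    {a : Fin 6 → (Fin 8 → R)} {w : R} (hG : Gor (lf (p3 p)) a w) {ν : Al R 6}
    (hνζ : ν = nuF (w2 p)) (hν0 : wedge (lf (p3 p)) 6 ν = 0)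
    (hνa : ν a - w ∈ Ideal.span (Set.range fun i => lf (p3 p) (a i))) :
    H23 R (Module.Dual R (VR p)) := by
  subst hνζ
  refine H23_dual_VR hd hc hI (H23_dual_V2 hd ?_ hG hν0 hνa)
  obtain ⟨k, hk⟩ := hI
  refine ⟨k, fun y hy => ?_⟩
  have h1 := hk hy
  rw [← range_constr] at h1
  exact h1

end

end Pool.Agent.Licci.XE
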