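import Pool.Agent.Work.MP_a98e4e_ag.XE.PhiDefs
import Pool.Agent.Work.MP_a98e4e_ag.XE.V2

/-!
# LICCI, codimension 6 (XE): the `6`-form of `ζ`
-/

set_option autoImplicit false

namespace Pool.Agent.Licci.XE

open scoped BigOperators

universe u

variable {R : Type u} [CommRing R]


theorem det_ev {n : ℕ} (σ : Fin n → Fin n) :
    (Matrix.of fun i => (Pi.single (σ i) 1 : Fin n → R)).det =
      ((∏ j, ∏ i ∈ Finset.Iio j, Int.sign ((σ j : ℤ) - σ i) : ℤ) : R) := by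
  by_cases hσ : Function.Injective σ
  · let e : Equiv.Perm (Fin n) := Equiv.ofBijective σ (Finite.injective_iff_bijective.1 hσ)
    have h1 : (Matrix.of fun i => (Pi.single (σ i) 1 : Fin n → R)) =
        (1 : Matrix (Fin n) (Fin n) R).submatrix e id := by
      ext i j
      simp [Matrix.one_apply, Pi.single_apply, e, eq_comm]
    rw [h1, Matrix.det_permute, Matrix.det_one, mul_one, Equiv.Perm.sign_eq_prod_prod_Iio]
    push_cast
    refine Finset.prod_congr rfl fun j _ => Finset.prod_congr rfl fun i hi => ?_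
    have hij : i ≠ j := (Finset.mem_Iio.1 hi).ne
    have h2 : (σ i : ℕ) ≠ σ j := fun h => hij (hσ (Fin.ext h))
    have h3 : (e i < e j) ↔ ((σ i : ℕ) < σ j) := by
      rw [Fin.lt_def]; rfl
    by_cases h4 : (σ i : ℕ) < σ j
    · rw [if_pos (h3.2 h4), Int.sign_eq_one_of_pos (by omega)]
      simp
    · rw [if_neg (fun h => h4 (h3.1 h)), Int.sign_eq_neg_one_of_neg (by omega)]
      simp
  · have h : ∃ i j, σ i = σ j ∧ i ≠ j := by
      by_contra hcon
      push Not at hcon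
      exact hσ fun i j h => hcon i j h
    obtain ⟨i, j, h1, h2⟩ := h
    rw [Matrix.det_zero_of_row_eq h2 (by
      show (Pi.single (σ i) 1 : Fin n → R) = Pi.single (σ j) 1
      rw [h1])]
    symm
    wlog hlt : i < j generalizing i j
    · exact this j i h1.symm h2.symm (lt_of_le_of_ne (not_lt.mp hlt) h2.symm)
    have h3 : (∏ j, ∏ i ∈ Finset.Iio j, Int.sign ((σ j : ℤ) - σ i) : ℤ) = 0 := by
      refine Finset.prod_eq_zero (Finset.mem_univ j) ?_
      refine Finset.prod_eq_zero (Finset.mem_Iio.2 hlt) ?_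
      rw [h1]; simp
    rw [h3]; simp

theorem prod8 (F : Fin 8 → Fin 8 → ℤ) : ∏ j, ∏ i ∈ Finset.Iio j, F i j =
    F 0 1 * (F 0 2 * F 1 2) * (F 0 3 * F 1 3 * F 2 3) * (F 0 4 * F 1 4 * F 2 4 * F 3 4) *
    (F 0 5 * F 1 5 * F 2 5 * F 3 5 * F 4 5) * (F 0 6 * F 1 6 * F 2 6 * F 3 6 * F 4 6 * F 5 6) *
    (F 0 7 * F 1 7 * F 2 7 * F 3 7 * F 4 7 * F 5 7 * F 6 7) := by
  have h0 : Finset.Iio (0 : Fin 8) = ∅ := by decide
  have h1 : Finset.Iio (1 : Fin 8) = {0} := by decide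
  have h2 : Finset.Iio (2 : Fin 8) = {0, 1} := by decide
  have h3 : Finset.Iio (3 : Fin 8) = {0, 1, 2} := by decide
  have h4 : Finset.Iio (4 : Fin 8) = {0, 1, 2, 3} := by decide
  have h5 : Finset.Iio (5 : Fin 8) = {0, 1, 2, 3, 4} := by decide
  have h6 : Finset.Iio (6 : Fin 8) = {0, 1, 2, 3, 4, 5} := by decide
  have h7 : Finset.Iio (7 : Fin 8) = {0, 1, 2, 3, 4, 5, 6} := by decide
  rw [Fin.prod_univ_eight, h0, h1, h2, h3, h4, h5, h6, h7]
  simp [Finset.prod_insert]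
  ring

theorem ep2_swapN (a b : Fin 8) : ep2 a b = - ep2 b a := by
  unfold ep2
  rw [← Int.sign_neg]
  congr 1
  ring

/-- the determinant of basis vectors -/
theorem det8_ev (c d a b i j k l : Fin 8) :
    (Matrix.of fun m => (Pi.single ((![c, d, a, b, i, j, k, l] : Fin 8 → Fin 8) m) 1 :
      Fin 8 → R)).det = (sg8 a b i j k l c d : R) := by
  rw [det_ev]
  congr 1
  refine (prod8 fun i' j' => ep2 ((![c, d, a, b, i, j, k, l] : Fin 8 → Fin 8) i')
    ((![c, d, a, b, i, j, k, l] : Fin 8 → Fin 8) j')).trans ?_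
  change ep2 c d * (ep2 c a * ep2 d a) * (ep2 c b * ep2 d b * ep2 a b) *
    (ep2 c i * ep2 d i * ep2 a i * ep2 b i) * (ep2 c j * ep2 d j * ep2 a j * ep2 b j * ep2 i j) *
    (ep2 c k * ep2 d k * ep2 a k * ep2 b k * ep2 i k * ep2 j k) *
    (ep2 c l * ep2 d l * ep2 a l * ep2 b l * ep2 i l * ep2 j l * ep2 k l) = _
  unfold sg8
  rw [ep2_swapN c a, ep2_swapN d a, ep2_swapN c b, ep2_swapN d b, ep2_swapN c i, ep2_swapN d i,
    ep2_swapN c j, ep2_swapN d j, ep2_swapN c k, ep2_swapN d k, ep2_swapN c l, ep2_swapN d l]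
  ring

/-- the determinant -/
noncomputable def dt8 (R : Type u) [CommRing R] : (Fin 8 → R) [⋀^Fin 8]→ₗ[R] R :=
  (Matrix.detRowAlternating : (Fin 8 → R) [⋀^Fin 8]→ₗ[R] R)

theorem dtg {n : ℕ} (R : Type u) [CommRing R] (v : Fin n → Fin n → R) :
    (Matrix.detRowAlternating : (Fin n → R) [⋀^Fin n]→ₗ[R] R) v = (Matrix.of v).det := rfl

theorem dt8_apply (v : Fin 8 → Fin 8 → R) : dt8 R v = (Matrix.of v).det := by
  unfold dt8
  exact dtg R v

theorem dt8_ev (c d a b i j k l : Fin 8) :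
    dt8 R ![ev c, ev d, ev a, ev b, ev i, ev j, ev k, ev l] = (sg8 a b i j k l c d : R) := by
  rw [← det8_ev, dt8_apply]
  have h0 : (![ev c, ev d, ev a, ev b, ev i, ev j, ev k, ev l] : Fin 8 → Fin 8 → R) =
      fun m => Pi.single ((![c, d, a, b, i, j, k, l] : Fin 8 → Fin 8) m) 1 := by
    funext m
    fin_cases m <;> rfl
  rw [h0]

theorem al_neg_apply {n : ℕ} (ω : Al R n) (v : Fin n → Fin 8 → R) : (-ω) v = -ω v := rfl

theorem al_smul_apply {n : ℕ} (r : R) (ω : Al R n) (v : Fin n → Fin 8 → R) :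
    (r • ω) v = r * ω v := rfl

theorem al_zero_apply {n : ℕ} (v : Fin n → Fin 8 → R) : (0 : Al R n) v = 0 := rfl

theorem al_sum_apply {n : ℕ} (F : Fin 8 → Al R n) (v : Fin n → Fin 8 → R) :
    (∑ a, F a) v = ∑ a, F a v := by
  let E : Al R n →+ R := { toFun := fun ω => ω v, map_zero' := rfl, map_add' := fun _ _ => rfl }
  exact map_sum E F Finset.univ

/-- contraction of an `8`-form with a bivector -/
def nuG (ω : Al R 8) (ζ : Fin 8 → Fin 8 → R) : Al R 6 :=
  -∑ c, ∑ d, if c < d then ζ c d • contr (ev d) 6 (contr (ev c) 7 ω) else 0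

theorem nuG_apply (ω : Al R 8) (ζ : Fin 8 → Fin 8 → R) (v : Fin 6 → Fin 8 → R) :
    nuG ω ζ v = -∑ c, ∑ d, if c < d then ζ c d * ω (Fin.cons (ev c) (Fin.cons (ev d) v)) else 0 := by
  unfold nuG
  rw [al_neg_apply, al_sum_apply]
  refine congrArg Neg.neg (Finset.sum_congr rfl fun c _ => ?_)
  rw [al_sum_apply]
  refine Finset.sum_congr rfl fun d _ => ?_
  split_ifs
  · rw [al_smul_apply, contr_apply, contr_apply]
  · exact al_zero_apply v

theorem nuG_ev {ω : Al R 8} (hω : ∀ c d a b i j k l : Fin 8,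
      ω ![ev c, ev d, ev a, ev b, ev i, ev j, ev k, ev l] = (sg8 a b i j k l c d : R))
    (ζ : Fin 8 → Fin 8 → R) (a b i j k l : Fin 8) :
    nuG ω ζ ![ev a, ev b, ev i, ev j, ev k, ev l] = nuA ζ a b i j k l := by
  rw [nuG_apply, nuA]
  refine congrArg Neg.neg (Finset.sum_congr rfl fun c _ => Finset.sum_congr rfl fun d _ => ?_)
  split_ifs
  · have h : (Fin.cons (ev c) (Fin.cons (ev d) ![ev a, ev b, ev i, ev j, ev k, ev l]) :
        Fin 8 → Fin 8 → R) = ![ev c, ev d, ev a, ev b, ev i, ev j, ev k, ev l] := rfl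
    rw [h, hω, mul_comm]
  · rfl

/-- `ν (x_1, .., x_6) = - ∑_(c<d) ζ_cd det (e_c, e_d, x_1, .., x_6)` -/
noncomputable def nuF (ζ : Fin 8 → Fin 8 → R) : Al R 6 := nuG (dt8 R) ζ

theorem nuF_ev (ζ : Fin 8 → Fin 8 → R) (a b i j k l : Fin 8) :
    nuF ζ ![ev a, ev b, ev i, ev j, ev k, ev l] = nuA ζ a b i j k l :=
  nuG_ev dt8_ev ζ a b i j k l

theorem al6_ext {ω η : Al R 6} (h : ∀ a b i j k l,
    ω ![ev a, ev b, ev i, ev j, ev k, ev l] = η ![ev a, ev b, ev i, ev j, ev k, ev l]) :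
    ω = η := by
  refine al_ext fun v => ?_
  have h1 : (fun i => ev (v i) : Fin 6 → Fin 8 → R) =
      ![ev (v 0), ev (v 1), ev (v 2), ev (v 3), ev (v 4), ev (v 5)] := by
    funext i; fin_cases i <;> rfl
  rw [h1]
  exact h _ _ _ _ _ _

theorem nuF_unique (ν : Al R 6) (ζ : Fin 8 → Fin 8 → R)
    (h : ∀ a b i j k l, ν ![ev a, ev b, ev i, ev j, ev k, ev l] = nuA ζ a b i j k l) :
    ν = nuF ζ :=
  al6_ext fun a b i j k l => (h a b i j k l).trans (nuF_ev ζ a b i j k l).symm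

theorem ep2_selfN (a : Fin 8) : ep2 a a = 0 := by simp [ep2]

theorem sg8_eq (a b i j k l c d : Fin 8) : sg8 a b i j k l c d =
    ∏ q, ∏ p ∈ Finset.Iio q, ep2 ((![a, b, i, j, k, l, c, d] : Fin 8 → Fin 8) p)
      ((![a, b, i, j, k, l, c, d] : Fin 8 → Fin 8) q) := by
  refine Eq.trans ?_ (prod8 fun i' j' => ep2 ((![a, b, i, j, k, l, c, d] : Fin 8 → Fin 8) i')
    ((![a, b, i, j, k, l, c, d] : Fin 8 → Fin 8) j')).symm
  change _ = ep2 a b * (ep2 a i * ep2 b i) * (ep2 a j * ep2 b j * ep2 i j) *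
    (ep2 a k * ep2 b k * ep2 i k * ep2 j k) * (ep2 a l * ep2 b l * ep2 i l * ep2 j l * ep2 k l) *
    (ep2 a c * ep2 b c * ep2 i c * ep2 j c * ep2 k c * ep2 l c) *
    (ep2 a d * ep2 b d * ep2 i d * ep2 j d * ep2 k d * ep2 l d * ep2 c d)
  unfold sg8
  ring

/-- `sg8` vanishes if two indices are equal -/
theorem sg8_ne {a b i j k l c d : Fin 8} (h : sg8 a b i j k l c d ≠ 0) :
    Function.Injective ![a, b, i, j, k, l, c, d] := by
  rw [sg8_eq] at h
  generalize (![a, b, i, j, k, l, c, d] : Fin 8 → Fin 8) = x at h ⊢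
  intro p q hpq
  by_contra hne
  apply h
  wlog hlt : p < q generalizing p q
  · exact this hpq.symm (fun h => hne h.symm) (lt_of_le_of_ne (not_lt.1 hlt) fun h => hne h.symm)
  refine Finset.prod_eq_zero (Finset.mem_univ q) (Finset.prod_eq_zero (Finset.mem_Iio.2 hlt) ?_)
  rw [hpq]
  exact ep2_selfN _

theorem compl_aux {x x' : Fin 8 → Fin 8} (hx : Function.Injective x) (hx' : Function.Injective x')
    (h : ∀ m : Fin 8, m < 6 → x' m = x m) {q : Fin 8} (hq : ¬ q < 6) :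
    x' q = x 6 ∨ x' q = x 7 := by
  obtain ⟨m, hm⟩ := Finite.surjective_of_injective hx (x' q)
  by_cases hm6 : m < 6
  · have := hx' ((h m hm6).trans hm)
    rw [this] at hm6
    exact absurd hm6 hq
  · have : m = 6 ∨ m = 7 := by revert hm6; clear hm; revert m; decide
    rcases this with h | h
    · rw [h] at hm; exact Or.inl hm.symm
    · rw [h] at hm; exact Or.inr hm.symm

theorem vec8_lt (a b i j k l c d c' d' : Fin 8) (m : Fin 8) (hm : m < 6) :
    (![a, b, i, j, k, l, c', d'] : Fin 8 → Fin 8) m = (![a, b, i, j, k, l, c, d] : Fin 8 → Fin 8) m := by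
  have h : m = 0 ∨ m = 1 ∨ m = 2 ∨ m = 3 ∨ m = 4 ∨ m = 5 := by revert hm; revert m; decide
  rcases h with rfl | rfl | rfl | rfl | rfl | rfl
  · exact Eq.trans (b := a) rfl rfl
  · exact Eq.trans (b := b) rfl rfl
  · exact Eq.trans (b := i) rfl rfl
  · exact Eq.trans (b := j) rfl rfl
  · exact Eq.trans (b := k) rfl rfl
  · exact Eq.trans (b := l) rfl rfl

theorem sg8_compl {a b i j k l c d c' d' : Fin 8} (h : sg8 a b i j k l c d ≠ 0) (hcd : c < d)
    (hlt : c' < d') (h0 : sg8 a b i j k l c' d' ≠ 0) : c' = c ∧ d' = d := by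
  have h1 := sg8_ne h
  have h2 := sg8_ne h0
  have h3 := vec8_lt a b i j k l c d c' d'
  have hc : c' = c ∨ c' = d := compl_aux (q := 6) h1 h2 h3 (by decide)
  have hd : d' = c ∨ d' = d := compl_aux (q := 7) h1 h2 h3 (by decide)
  clear h h0 h1 h2 h3
  rcases hc with hc | hc
  · rcases hd with hd | hd
    · rw [hc, hd] at hlt; exact absurd hlt (lt_irrefl _)
    · exact ⟨hc, hd⟩
  · rcases hd with hd | hd
    · rw [hc, hd] at hlt; exact absurd hlt (not_lt.2 hcd.le)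
    · rw [hc, hd] at hlt; exact absurd hlt (lt_irrefl _)

/-- the coefficient of `ν` in terms of the complementary coefficient of `ζ` -/
theorem nuA_compl (ζ : Fin 8 → Fin 8 → R) {a b i j k l c d : Fin 8} (h : sg8 a b i j k l c d ≠ 0)
    (hcd : c < d) : nuA ζ a b i j k l = -((sg8 a b i j k l c d : R) * ζ c d) := by
  rw [nuA]
  have key : ∀ c' d' : Fin 8, (c' ≠ c ∨ d' ≠ d) →
      (if c' < d' then (sg8 a b i j k l c' d' : R) * ζ c' d' else 0) = 0 := by
    intro c' d' hne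
    split_ifs with hlt
    · have h0 : sg8 a b i j k l c' d' = 0 := by
        by_contra h0
        obtain ⟨h1, h2⟩ := sg8_compl h hcd hlt h0
        rcases hne with h3 | h3
        · exact h3 h1
        · exact h3 h2
      rw [h0, Int.cast_zero, zero_mul]
    · rfl
  generalize (fun c' d' : Fin 8 => (sg8 a b i j k l c' d' : R)) = G at *
  refine congrArg Neg.neg ?_
  rw [Finset.sum_eq_single c, Finset.sum_eq_single d, if_pos hcd]
  · intro d' _ hd
    exact key c d' (Or.inr hd)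
  · intro h; exact absurd (Finset.mem_univ _) h
  · intro c' _ hc
    exact Finset.sum_eq_zero fun d' _ => key c' d' (Or.inl hc)
  · intro h; exact absurd (Finset.mem_univ _) h

/-! ### `V2` in terms of `IsV2` -/

theorem constr_ev (f : Vec R) (i : Fin 8) :
    ((Pi.basisFun R (Fin 8)).constr ℕ f : (Fin 8 → R) →ₗ[R] R) (ev i) = f i := by
  have h := (Pi.basisFun R (Fin 8)).constr_basis ℕ f i
  rw [Pi.basisFun_apply] at h
  exact h

theorem w2_addN (x y : E8 R) (i j : Fin 8) : w2 (x + y) i j = w2 x i j + w2 y i j := by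
  simp only [w2, Pi.add_apply, mul_add]

theorem w2_smulN (c : R) (y : E8 R) (i j : Fin 8) : w2 (c • y) i j = c * w2 y i j := by
  simp only [w2, Pi.smul_apply, smul_eq_mul]
  ring

theorem t3_addN (x y : E8 R) (i j k : Fin 8) : t3 (x + y) i j k = t3 x i j k + t3 y i j k := by
  simp only [t3, Pi.add_apply, mul_add]

theorem t3_smulN (c : R) (y : E8 R) (i j k : Fin 8) : t3 (c • y) i j k = c * t3 y i j k := by
  simp only [t3, Pi.smul_apply, smul_eq_mul]
  ring

theorem mem_V2_iff (f : Vec R) (ζ β : Fin 8 → Fin 8 → R) (z : Fin 8 → Fin 8 → Fin 8 → R) :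
    (β, z) ∈ V2 ((Pi.basisFun R (Fin 8)).constr ℕ f : (Fin 8 → R) →ₗ[R] R) (nuF ζ) ↔
      IsV2 f ζ β z := by
  constructor
  · rintro ⟨⟨h1, h2⟩, ⟨h3, h4, h5, h6⟩, h7, h8⟩
    simp only [constr_ev, nuF_ev] at h7 h8
    exact ⟨h1, h2, h3, fun i j k => h5 j i k, fun i j k => h6 i k j, h7, h8⟩
  · rintro ⟨h1, h2, h3, h4, h5, h6, h7⟩
    refine ⟨⟨h1, h2⟩, ⟨h3, fun i j => ?_, fun i j k => h4 j i k, fun i j k => h5 i k j⟩, ?_, ?_⟩
    · show z i j j = 0
      rw [h4 i j j, h5 j i j, h3]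
      ring
    · simp only [constr_ev]
      exact h6
    · simp only [constr_ev, nuF_ev]
      exact h7

theorem isV2_iff {f : Vec R} {ζ : Fin 8 → Fin 8 → R}
    (x : V2 ((Pi.basisFun R (Fin 8)).constr ℕ f : (Fin 8 → R) →ₗ[R] R) (nuF ζ)) :
    IsV2 f ζ x.1.1 x.1.2 := (mem_V2_iff f ζ _ _).1 x.2

theorem mem_V2_of {f : Vec R} {ζ β : Fin 8 → Fin 8 → R} {z : Fin 8 → Fin 8 → Fin 8 → R}
    (h : IsV2 f ζ β z) :
    (β, z) ∈ V2 ((Pi.basisFun R (Fin 8)).constr ℕ f : (Fin 8 → R) →ₗ[R] R) (nuF ζ) :=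
  (mem_V2_iff f ζ β z).2 h

end Pool.Agent.Licci.XE
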