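import Pool.Agent.Work.MP_a98e4e_ag.XE.VeP2
import Pool.Agent.Work.MP_a98e4e_ag.L.Grad

/-!
# LICCI, codimension 6 (XE): the equations of `Φ` in degree `1`, kernel checks
-/

set_option autoImplicit false

namespace Pool.Agent.Licci.XE

/-! ### checks -/

set_option maxRecDepth 100000 in
theorem k2_all : ∀ i j k l : Fin 8, i < j → j < k → k < l → ∀ c d : Fin 8, c < d →
    ∀ e f : Fin 8, e < f →
    - sg3 i j k * KK (im1 i j k) (ix l) (i2 c d) (i2 e f) = sg8 e f i j k l c d := by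
  decide +kernel

set_option maxRecDepth 100000 in
theorem k1_all : ∀ i j k l : Fin 8, i < j → j < k → k < l → ∀ c : Fin 8,
    fnd (cd (ix l) + off + off + off - cd (ix c) - cd (im1 i j k)) =
      if c = i then (i1 j k l : ℕ) else if c = j then (i1 i k l : ℕ) else
        if c = k then (i1 i j l : ℕ) else if c = l then (i1 i j k : ℕ) else 255 := by
  decide +kernel

set_option maxRecDepth 100000 in
theorem k0_all : ∀ i j k l : Fin 8, i < j → j < k → k < l →
    (- sg3 i j k * KK (im1 i j k) (ix l) (ix i) (i1 j k l) = -(sg3 j k l)) ∧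
    (- sg3 i j k * KK (im1 i j k) (ix l) (ix j) (i1 i k l) = (sg3 i k l)) ∧
    (- sg3 i j k * KK (im1 i j k) (ix l) (ix k) (i1 i j l) = -(sg3 i j l)) ∧
    (- sg3 i j k * (KK (im1 i j k) (ix l) (ix l) (i1 i j k) - 1) = (sg3 i j k)) := by
  decide +kernel

set_option maxRecDepth 100000 in
theorem kf_all : ∀ i j k : Fin 8, i < j → j < k → ∀ b : Fin 248,
    kc b (im1 i j k) = if b = i1 i j k then -1 else 0 := by decide +kernel

set_option maxRecDepth 100000 in
theorem zd_all : ∀ m : Fin 248, (zdg m = 1 → 36 ≤ (m : ℕ) ∧ (m : ℕ) < 92) ∧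
    (8 ≤ (m : ℕ) → (m : ℕ) < 36 → zdg m = 2) ∧ (zdg m = 2 → 8 ≤ (m : ℕ) ∧ (m : ℕ) < 36) ∧
    (zdg m = 3 → (m : ℕ) < 8) ∧ zdg m ≤ 3 ∧ (8 ≤ (m : ℕ) → zdg m ≤ 2) ∧
    ((m : ℕ) < 8 → zdg m = 3) := by decide +kernel

end Pool.Agent.Licci.XE
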