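import Pool.Agent.Work.MP_a98e4e_ag.XE.PhiDefs
import Pool.Agent.Work.MP_a98e4e_ag.L.FormB

/-!
# LICCI, codimension 6 (XE): kernel checks for `VeS` (helper33), part D
-/

set_option autoImplicit false

namespace Pool.Agent.Licci.XE

set_option maxRecDepth 100000 in
theorem m1w_24 : ∀ b : Fin 8, 4 < b → ∀ j k l : Fin 8, j < k → k < l →
    ∀ c d : Fin 8, c < d → sg8 4 b 2 j k l c d =
      if ep5 2 4 b c d = 0 then 0 else if i1 j k l = cpl 2 4 b c d then
        sg3 j k l * ep5 2 4 b c d else 0 := by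
  decide +kernel

set_option maxRecDepth 100000 in
theorem m1w_25 : ∀ b : Fin 8, 5 < b → ∀ j k l : Fin 8, j < k → k < l →
    ∀ c d : Fin 8, c < d → sg8 5 b 2 j k l c d =
      if ep5 2 5 b c d = 0 then 0 else if i1 j k l = cpl 2 5 b c d then
        sg3 j k l * ep5 2 5 b c d else 0 := by
  decide +kernel

set_option maxRecDepth 100000 in
theorem m1w_26 : ∀ b : Fin 8, 6 < b → ∀ j k l : Fin 8, j < k → k < l →
    ∀ c d : Fin 8, c < d → sg8 6 b 2 j k l c d =
      if ep5 2 6 b c d = 0 then 0 else if i1 j k l = cpl 2 6 b c d then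
        sg3 j k l * ep5 2 6 b c d else 0 := by
  decide +kernel

set_option maxRecDepth 100000 in
theorem m1w_34 : ∀ b : Fin 8, 4 < b → ∀ j k l : Fin 8, j < k → k < l →
    ∀ c d : Fin 8, c < d → sg8 4 b 3 j k l c d =
      if ep5 3 4 b c d = 0 then 0 else if i1 j k l = cpl 3 4 b c d then
        sg3 j k l * ep5 3 4 b c d else 0 := by
  decide +kernel

set_option maxRecDepth 100000 in
theorem m1w_35 : ∀ b : Fin 8, 5 < b → ∀ j k l : Fin 8, j < k → k < l →
    ∀ c d : Fin 8, c < d → sg8 5 b 3 j k l c d =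
      if ep5 3 5 b c d = 0 then 0 else if i1 j k l = cpl 3 5 b c d then
        sg3 j k l * ep5 3 5 b c d else 0 := by
  decide +kernel

set_option maxRecDepth 100000 in
theorem m1w_36 : ∀ b : Fin 8, 6 < b → ∀ j k l : Fin 8, j < k → k < l →
    ∀ c d : Fin 8, c < d → sg8 6 b 3 j k l c d =
      if ep5 3 6 b c d = 0 then 0 else if i1 j k l = cpl 3 6 b c d then
        sg3 j k l * ep5 3 6 b c d else 0 := by
  decide +kernel

set_option maxRecDepth 100000 in
theorem m1w_45 : ∀ b : Fin 8, 5 < b → ∀ j k l : Fin 8, j < k → k < l →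
    ∀ c d : Fin 8, c < d → sg8 5 b 4 j k l c d =
      if ep5 4 5 b c d = 0 then 0 else if i1 j k l = cpl 4 5 b c d then
        sg3 j k l * ep5 4 5 b c d else 0 := by
  decide +kernel

set_option maxRecDepth 100000 in
theorem m1w_46 : ∀ b : Fin 8, 6 < b → ∀ j k l : Fin 8, j < k → k < l →
    ∀ c d : Fin 8, c < d → sg8 6 b 4 j k l c d =
      if ep5 4 6 b c d = 0 then 0 else if i1 j k l = cpl 4 6 b c d then
        sg3 j k l * ep5 4 6 b c d else 0 := by
  decide +kernel

set_option maxRecDepth 100000 in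
theorem m1w_56 : ∀ b : Fin 8, 6 < b → ∀ j k l : Fin 8, j < k → k < l →
    ∀ c d : Fin 8, c < d → sg8 6 b 5 j k l c d =
      if ep5 5 6 b c d = 0 then 0 else if i1 j k l = cpl 5 6 b c d then
        sg3 j k l * ep5 5 6 b c d else 0 := by
  decide +kernel

end Pool.Agent.Licci.XE
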