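import Pool.Agent.Work.MP_a98e4e_ag.XE.VeSCA
import Pool.Agent.Work.MP_a98e4e_ag.XE.VeSCB
import Pool.Agent.Work.MP_a98e4e_ag.XE.VeSCC
import Pool.Agent.Work.MP_a98e4e_ag.XE.VeSCD

/-!
# LICCI, codimension 6 (XE): kernel checks for `VeS` (helper33)
-/

set_option autoImplicit false

namespace Pool.Agent.Licci.XE

set_option maxRecDepth 100000 in
theorem i1_surj : ∀ m : Fin 248, 36 ≤ (m : ℕ) → (m : ℕ) < 92 →
    ∃ i j k : Fin 8, (i < j ∧ j < k) ∧ i1 i j k = m := by
  decide +kernel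

set_option maxRecDepth 100000 in
theorem zdg_one : ∀ m : Fin 248, 0 < zdg m → (m : ℕ) < 92 := by decide +kernel

theorem m1w_ia (i a : Fin 8) : i < a → ∀ b : Fin 8, a < b → ∀ j k l : Fin 8, j < k → k < l →
    ∀ c d : Fin 8, c < d → sg8 a b i j k l c d =
      if ep5 i a b c d = 0 then 0 else if i1 j k l = cpl i a b c d then sg3 j k l * ep5 i a b c d
        else 0 := by
  obtain ⟨i, hi⟩ := i
  obtain ⟨a, ha⟩ := a
  match i, hi, a, ha with
  | 0, _, 0, _ => exact fun h => absurd (Fin.lt_def.1 h) (by simp)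
  | 0, _, 1, _ => exact fun _ => m1w_01
  | 0, _, 2, _ => exact fun _ => m1w_02
  | 0, _, 3, _ => exact fun _ => m1w_03
  | 0, _, 4, _ => exact fun _ => m1w_04
  | 0, _, 5, _ => exact fun _ => m1w_05
  | 0, _, 6, _ => exact fun _ => m1w_06
  | 0, _, 7, _ => exact fun _ b hb => absurd (Fin.lt_def.1 hb) (by have := b.2; simp only; omega)
  | 1, _, 0, _ => exact fun h => absurd (Fin.lt_def.1 h) (by simp)
  | 1, _, 1, _ => exact fun h => absurd (Fin.lt_def.1 h) (by simp)
  | 1, _, 2, _ => exact fun _ => m1w_12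
  | 1, _, 3, _ => exact fun _ => m1w_13
  | 1, _, 4, _ => exact fun _ => m1w_14
  | 1, _, 5, _ => exact fun _ => m1w_15
  | 1, _, 6, _ => exact fun _ => m1w_16
  | 1, _, 7, _ => exact fun _ b hb => absurd (Fin.lt_def.1 hb) (by have := b.2; simp only; omega)
  | 2, _, 0, _ => exact fun h => absurd (Fin.lt_def.1 h) (by simp)
  | 2, _, 1, _ => exact fun h => absurd (Fin.lt_def.1 h) (by simp)
  | 2, _, 2, _ => exact fun h => absurd (Fin.lt_def.1 h) (by simp)
  | 2, _, 3, _ => exact fun _ => m1w_23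
  | 2, _, 4, _ => exact fun _ => m1w_24
  | 2, _, 5, _ => exact fun _ => m1w_25
  | 2, _, 6, _ => exact fun _ => m1w_26
  | 2, _, 7, _ => exact fun _ b hb => absurd (Fin.lt_def.1 hb) (by have := b.2; simp only; omega)
  | 3, _, 0, _ => exact fun h => absurd (Fin.lt_def.1 h) (by simp)
  | 3, _, 1, _ => exact fun h => absurd (Fin.lt_def.1 h) (by simp)
  | 3, _, 2, _ => exact fun h => absurd (Fin.lt_def.1 h) (by simp)
  | 3, _, 3, _ => exact fun h => absurd (Fin.lt_def.1 h) (by simp)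
  | 3, _, 4, _ => exact fun _ => m1w_34
  | 3, _, 5, _ => exact fun _ => m1w_35
  | 3, _, 6, _ => exact fun _ => m1w_36
  | 3, _, 7, _ => exact fun _ b hb => absurd (Fin.lt_def.1 hb) (by have := b.2; simp only; omega)
  | 4, _, 0, _ => exact fun h => absurd (Fin.lt_def.1 h) (by simp)
  | 4, _, 1, _ => exact fun h => absurd (Fin.lt_def.1 h) (by simp)
  | 4, _, 2, _ => exact fun h => absurd (Fin.lt_def.1 h) (by simp)
  | 4, _, 3, _ => exact fun h => absurd (Fin.lt_def.1 h) (by simp)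
  | 4, _, 4, _ => exact fun h => absurd (Fin.lt_def.1 h) (by simp)
  | 4, _, 5, _ => exact fun _ => m1w_45
  | 4, _, 6, _ => exact fun _ => m1w_46
  | 4, _, 7, _ => exact fun _ b hb => absurd (Fin.lt_def.1 hb) (by have := b.2; simp only; omega)
  | 5, _, 0, _ => exact fun h => absurd (Fin.lt_def.1 h) (by simp)
  | 5, _, 1, _ => exact fun h => absurd (Fin.lt_def.1 h) (by simp)
  | 5, _, 2, _ => exact fun h => absurd (Fin.lt_def.1 h) (by simp)
  | 5, _, 3, _ => exact fun h => absurd (Fin.lt_def.1 h) (by simp)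
  | 5, _, 4, _ => exact fun h => absurd (Fin.lt_def.1 h) (by simp)
  | 5, _, 5, _ => exact fun h => absurd (Fin.lt_def.1 h) (by simp)
  | 5, _, 6, _ => exact fun _ => m1w_56
  | 5, _, 7, _ => exact fun _ b hb => absurd (Fin.lt_def.1 hb) (by have := b.2; simp only; omega)
  | 6, _, 0, _ => exact fun h => absurd (Fin.lt_def.1 h) (by simp)
  | 6, _, 1, _ => exact fun h => absurd (Fin.lt_def.1 h) (by simp)
  | 6, _, 2, _ => exact fun h => absurd (Fin.lt_def.1 h) (by simp)
  | 6, _, 3, _ => exact fun h => absurd (Fin.lt_def.1 h) (by simp)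
  | 6, _, 4, _ => exact fun h => absurd (Fin.lt_def.1 h) (by simp)
  | 6, _, 5, _ => exact fun h => absurd (Fin.lt_def.1 h) (by simp)
  | 6, _, 6, _ => exact fun h => absurd (Fin.lt_def.1 h) (by simp)
  | 6, _, 7, _ => exact fun _ b hb => absurd (Fin.lt_def.1 hb) (by have := b.2; simp only; omega)
  | 7, _, 0, _ => exact fun h => absurd (Fin.lt_def.1 h) (by simp)
  | 7, _, 1, _ => exact fun h => absurd (Fin.lt_def.1 h) (by simp)
  | 7, _, 2, _ => exact fun h => absurd (Fin.lt_def.1 h) (by simp)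
  | 7, _, 3, _ => exact fun h => absurd (Fin.lt_def.1 h) (by simp)
  | 7, _, 4, _ => exact fun h => absurd (Fin.lt_def.1 h) (by simp)
  | 7, _, 5, _ => exact fun h => absurd (Fin.lt_def.1 h) (by simp)
  | 7, _, 6, _ => exact fun h => absurd (Fin.lt_def.1 h) (by simp)
  | 7, _, 7, _ => exact fun h => absurd (Fin.lt_def.1 h) (by simp)
  | i + 8, hi, _, _ => exact absurd hi (by omega)
  | _, _, a + 8, ha => exact absurd ha (by omega)

theorem m1w_chk : ∀ i a b : Fin 8, i < a → a < b → ∀ j k l : Fin 8, j < k → k < l →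
    ∀ c d : Fin 8, c < d → sg8 a b i j k l c d =
      if ep5 i a b c d = 0 then 0 else if i1 j k l = cpl i a b c d then sg3 j k l * ep5 i a b c d
        else 0 :=
  fun i a b hi => m1w_ia i a hi b

set_option maxRecDepth 100000 in
theorem m2w_chk : ∀ c d : Fin 8, c < d → ∀ j k l : Fin 8, j < k → k < l → ∀ m : Fin 8,
    -(sg3 j k l) * sc (im2 c d) (ix m) (i1 j k l) =
      (if m = j ∧ c = k ∧ d = l then 1 else 0) - (if m = k ∧ c = j ∧ d = l then 1 else 0) +
        (if m = l ∧ c = j ∧ d = k then 1 else 0) := by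
  decide +kernel

set_option maxRecDepth 100000 in
theorem zdg_im2 : ∀ c d : Fin 8, c < d → zdg (im2 c d) = -2 := by decide +kernel

set_option maxRecDepth 100000 in
theorem zdg_wq : ∀ q : Fin 8, zdg (ix (232 + q)) = -3 := by decide +kernel

set_option maxRecDepth 100000 in
theorem kc_wq : ∀ (m : Fin 248) (q : Fin 8), kc m (ix (232 + q)) = if m = ix q then -1 else 0 := by
  decide +kernel

end Pool.Agent.Licci.XE
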